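import Mathlib

/-!
Algebraic Smith theory for an automorphism `h` with `h^3 = 1` of a cochain complex `C` of
`ZMod 3`-modules with fixed part complex `E`.
-/

set_option autoImplicit false

namespace Pool.Agent.Helper554.Smith

universe u

/-- Smith data: a complex `C` with an automorphism `h`, `h^3 = 1`, a complex `E` (the fixed part),
a restriction `r : C → E` with an `h`-invariant section `x` (not a chain map), such that on
`ker r` the kernels of `1 + h + h²` and `1 - h` are the images of `1 - h`, `1 + h + h²`. -/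
structure SD where
  C : ℕ → Type u
  E : ℕ → Type u
  [iC : ∀ q, AddCommGroup (C q)]
  [mC : ∀ q, Module (ZMod 3) (C q)]
  [iE : ∀ q, AddCommGroup (E q)]
  [mE : ∀ q, Module (ZMod 3) (E q)]
  dC : ∀ q, C q →ₗ[ZMod 3] C (q + 1)
  dE : ∀ q, E q →ₗ[ZMod 3] E (q + 1)
  h : ∀ q, C q →ₗ[ZMod 3] C q
  r : ∀ q, C q →ₗ[ZMod 3] E q
  x : ∀ q, E q →ₗ[ZMod 3] C q
  dd : ∀ q c, dC (q + 1) (dC q c) = 0
  ddE : ∀ q c, dE (q + 1) (dE q c) = 0
  hd : ∀ q c, h (q + 1) (dC q c) = dC q (h q c)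
  h3 : ∀ q c, h q (h q (h q c)) = c
  rd : ∀ q c, r (q + 1) (dC q c) = dE q (r q c)
  rh : ∀ q c, r q (h q c) = r q c
  rx : ∀ q e, r q (x q e) = e
  hx : ∀ q e, h q (x q e) = x q e
  k1 : ∀ q c, r q c = 0 → c + h q c + h q (h q c) = 0 → ∃ b, r q b = 0 ∧ c = b - h q b
  k2 : ∀ q c, r q c = 0 → h q c = c → ∃ b, r q b = 0 ∧ c = b + h q b + h q (h q b)
  m0 : ∀ c, r 0 c = 0 → c = 0

attribute [instance] SD.iC SD.mC SD.iE SD.mE

namespace SD

variable (A : SD.{u})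

/-- coboundaries of `C`. -/
def BC : ∀ q, Submodule (ZMod 3) (A.C q)
  | 0 => ⊥
  | (q + 1) => LinearMap.range (A.dC q)

/-- coboundaries of `E`. -/
def BE : ∀ q, Submodule (ZMod 3) (A.E q)
  | 0 => ⊥
  | (q + 1) => LinearMap.range (A.dE q)

/-- `1 + h + h²`. -/
def sg (q : ℕ) : A.C q →ₗ[ZMod 3] A.C q :=
  LinearMap.id + A.h q + (A.h q).comp (A.h q)

/-- `1 - h`. -/
def ta (q : ℕ) : A.C q →ₗ[ZMod 3] A.C q := LinearMap.id - A.h q

/-- `σ (ker r)`. -/
def MS (q : ℕ) : Submodule (ZMod 3) (A.C q) := (LinearMap.ker (A.r q)).map (A.sg q)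

/-- `τ (ker r)`. -/
def MT (q : ℕ) : Submodule (ZMod 3) (A.C q) := (LinearMap.ker (A.r q)).map (A.ta q)

/-- coboundaries of `σ (ker r)`. -/
def BS : ∀ q, Submodule (ZMod 3) (A.C q)
  | 0 => ⊥
  | (q + 1) => (A.MS q).map (A.dC q)

/-- coboundaries of `τ (ker r)`. -/
def BT : ∀ q, Submodule (ZMod 3) (A.C q)
  | 0 => ⊥
  | (q + 1) => (A.MT q).map (A.dC q)

/-- `H^q(C) = 0`. -/
def VC (q : ℕ) : Prop := ∀ c, A.dC q c = 0 → c ∈ A.BC q

/-- `H^q(E) = 0`. -/
def VE (q : ℕ) : Prop := ∀ c, A.dE q c = 0 → c ∈ A.BE q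

/-- `H_σ^q = 0`. -/
def VS (q : ℕ) : Prop := ∀ c ∈ A.MS q, A.dC q c = 0 → c ∈ A.BS q

/-- `H_τ^q = 0`. -/
def VT (q : ℕ) : Prop := ∀ c ∈ A.MT q, A.dC q c = 0 → c ∈ A.BT q

end SD

namespace SD

variable {A : SD.{u}} {q : ℕ}

theorem three {M : Type u} [AddCommGroup M] [Module (ZMod 3) M] (y : M) : y + y + y = 0 := by
  have h : ((1 : ZMod 3) + 1 + 1) • y = 0 := by
    rw [show ((1 : ZMod 3) + 1 + 1) = 0 from by decide, zero_smul]
  simpa [add_smul] using h

theorem sg_apply (c : A.C q) : A.sg q c = c + A.h q c + A.h q (A.h q c) := rfl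

theorem ta_apply (c : A.C q) : A.ta q c = c - A.h q c := rfl

theorem d_sg (c : A.C q) : A.dC q (A.sg q c) = A.sg (q + 1) (A.dC q c) := by
  rw [sg_apply, sg_apply, map_add, map_add, A.hd, A.hd]

theorem d_ta (c : A.C q) : A.dC q (A.ta q c) = A.ta (q + 1) (A.dC q c) := by
  rw [ta_apply, ta_apply, map_sub, A.hd]

theorem ta_sg (c : A.C q) : A.ta q (A.sg q c) = 0 := by
  rw [ta_apply, sg_apply, map_add, map_add, A.h3]
  abel

theorem sg_ta (c : A.C q) : A.sg q (A.ta q c) = 0 := by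
  rw [ta_apply, sg_apply, map_sub, map_sub, A.h3]
  abel

theorem ta_ta (c : A.C q) : A.ta q (A.ta q c) = A.sg q c := by
  rw [ta_apply, ta_apply, sg_apply, map_sub, ← sub_eq_zero]
  have h := three (A.h q c)
  have e : c - A.h q c - (A.h q c - A.h q (A.h q c)) - (c + A.h q c + A.h q (A.h q c)) =
      -(A.h q c + A.h q c + A.h q c) := by abel
  rw [e, h, neg_zero]

theorem ta_x (e : A.E q) : A.ta q (A.x q e) = 0 := by
  rw [ta_apply, A.hx, sub_self]

theorem sg_x (e : A.E q) : A.sg q (A.x q e) = 0 := by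
  rw [sg_apply, A.hx, A.hx, three]

theorem r_sg (c : A.C q) : A.r q (A.sg q c) = 0 := by
  rw [sg_apply, map_add, map_add, A.rh, A.rh, A.rh, three]

theorem r_ta (c : A.C q) : A.r q (A.ta q c) = 0 := by
  rw [ta_apply, map_sub, A.rh, sub_self]

theorem mem_MS {z : A.C q} : z ∈ A.MS q ↔ ∃ m, A.r q m = 0 ∧ A.sg q m = z := by
  unfold MS
  rw [Submodule.mem_map]
  rfl

theorem mem_MT {z : A.C q} : z ∈ A.MT q ↔ ∃ m, A.r q m = 0 ∧ A.ta q m = z := by
  unfold MT
  rw [Submodule.mem_map]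
  rfl

theorem sg_mem (c : A.C q) : A.sg q c ∈ A.MS q := by
  rw [mem_MS]
  refine ⟨c - A.x q (A.r q c), ?_, ?_⟩
  · rw [map_sub, A.rx, sub_self]
  · rw [map_sub, sg_x, sub_zero]

theorem ta_mem (c : A.C q) : A.ta q c ∈ A.MT q := by
  rw [mem_MT]
  refine ⟨c - A.x q (A.r q c), ?_, ?_⟩
  · rw [map_sub, A.rx, sub_self]
  · rw [map_sub, ta_x, sub_zero]

theorem MS_le : A.MS q ≤ A.MT q := by
  intro z hz
  obtain ⟨m, -, rfl⟩ := mem_MS.1 hz
  rw [← ta_ta]
  exact ta_mem _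

theorem r_MT {z : A.C q} (hz : z ∈ A.MT q) : A.r q z = 0 := by
  obtain ⟨m, -, rfl⟩ := mem_MT.1 hz
  exact r_ta m

theorem r_MS {z : A.C q} (hz : z ∈ A.MS q) : A.r q z = 0 := r_MT (MS_le hz)

theorem ta_MS {z : A.C q} (hz : z ∈ A.MS q) : A.ta q z = 0 := by
  obtain ⟨m, -, rfl⟩ := mem_MS.1 hz
  exact ta_sg m

theorem sg_MT {z : A.C q} (hz : z ∈ A.MT q) : A.sg q z = 0 := by
  obtain ⟨m, -, rfl⟩ := mem_MT.1 hz
  exact sg_ta m

theorem BS_le_BT : A.BS q ≤ A.BT q := by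
  cases q with
  | zero => exact le_rfl
  | succ q => exact Submodule.map_mono MS_le

theorem BT_le_BC : A.BT q ≤ A.BC q := by
  cases q with
  | zero => exact le_rfl
  | succ q => exact LinearMap.map_le_range

theorem BS_le_BC : A.BS q ≤ A.BC q := BS_le_BT.trans BT_le_BC

theorem ta_BC {c : A.C q} (hc : c ∈ A.BC q) : A.ta q c ∈ A.BT q := by
  cases q with
  | zero =>
    have h : c = 0 := hc
    rw [h, map_zero]
    exact Submodule.zero_mem _
  | succ q =>
    obtain ⟨b, rfl⟩ := hc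
    rw [← d_ta]
    exact Submodule.mem_map_of_mem (ta_mem b)

theorem sg_BC {c : A.C q} (hc : c ∈ A.BC q) : A.sg q c ∈ A.BS q := by
  cases q with
  | zero =>
    have h : c = 0 := hc
    rw [h, map_zero]
    exact Submodule.zero_mem _
  | succ q =>
    obtain ⟨b, rfl⟩ := hc
    rw [← d_sg]
    exact Submodule.mem_map_of_mem (sg_mem b)

theorem r_BC {c : A.C q} (hc : c ∈ A.BC q) : A.r q c ∈ A.BE q := by
  cases q with
  | zero =>
    have h : c = 0 := hc
    rw [h, map_zero]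
    exact Submodule.zero_mem _
  | succ q =>
    obtain ⟨b, rfl⟩ := hc
    rw [A.rd]
    exact LinearMap.mem_range_self _ _

theorem h_BC {c : A.C q} (hc : c ∈ A.BC q) : A.h q c ∈ A.BC q := by
  cases q with
  | zero =>
    have h : c = 0 := hc
    rw [h, map_zero]
    exact Submodule.zero_mem _
  | succ q =>
    obtain ⟨b, rfl⟩ := hc
    rw [A.hd]
    exact LinearMap.mem_range_self _ _

theorem d_BC {c : A.C q} (hc : c ∈ A.BC q) : A.dC q c = 0 := by
  cases q with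
  | zero =>
    have h : c = 0 := hc
    rw [h, map_zero]
  | succ q =>
    obtain ⟨b, rfl⟩ := hc
    exact A.dd _ _

/-- an element of `BE` lifts to an element of `BC` killed by `σ` and `τ` -/
theorem lift_BE {e : A.E q} (he : e ∈ A.BE q) :
    ∃ b ∈ A.BC q, A.r q b = e ∧ A.ta q b = 0 ∧ A.sg q b = 0 := by
  cases q with
  | zero =>
    have h : e = 0 := he
    exact ⟨0, Submodule.zero_mem _, by rw [h, map_zero], map_zero _, map_zero _⟩
  | succ q =>
    obtain ⟨e', rfl⟩ := he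
    refine ⟨A.dC q (A.x q e'), LinearMap.mem_range_self _ _, ?_, ?_, ?_⟩
    · rw [A.rd, A.rx]
    · rw [← d_ta, ta_x, map_zero]
    · rw [← d_sg, sg_x, map_zero]

theorem lift_BT {z : A.C q} (hz : z ∈ A.BT q) :
    ∃ b ∈ A.BC q, A.r q b = 0 ∧ A.ta q b = z := by
  cases q with
  | zero =>
    have h : z = 0 := hz
    exact ⟨0, Submodule.zero_mem _, map_zero _, by rw [h, map_zero]⟩
  | succ q =>
    obtain ⟨y, hy, rfl⟩ := hz
    obtain ⟨m, hm, rfl⟩ := mem_MT.1 hy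
    refine ⟨A.dC q m, LinearMap.mem_range_self _ _, ?_, ?_⟩
    · rw [A.rd, hm, map_zero]
    · rw [d_ta]

theorem lift_BS {z : A.C q} (hz : z ∈ A.BS q) :
    ∃ b ∈ A.BC q, A.r q b = 0 ∧ A.sg q b = z := by
  cases q with
  | zero =>
    have h : z = 0 := hz
    exact ⟨0, Submodule.zero_mem _, map_zero _, by rw [h, map_zero]⟩
  | succ q =>
    obtain ⟨y, hy, rfl⟩ := hz
    obtain ⟨m, hm, rfl⟩ := mem_MS.1 hy
    refine ⟨A.dC q m, LinearMap.mem_range_self _ _, ?_, ?_⟩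
    · rw [A.rd, hm, map_zero]
    · rw [d_sg]

theorem of_k1 {c : A.C q} (h1 : A.r q c = 0) (h2 : A.sg q c = 0) : c ∈ A.MT q := by
  obtain ⟨b, hb, rfl⟩ := A.k1 q c h1 h2
  exact mem_MT.2 ⟨b, hb, rfl⟩

theorem of_k2 {c : A.C q} (h1 : A.r q c = 0) (h2 : A.ta q c = 0) : c ∈ A.MS q := by
  obtain ⟨b, hb, h⟩ := A.k2 q c h1 (by rw [ta_apply, sub_eq_zero] at h2; exact h2.symm)
  exact mem_MS.2 ⟨b, hb, h.symm⟩

/-- `z` generates the `σ`-cohomology -/
def GenS (A : SD.{u}) (q : ℕ) (s : A.C q) : Prop :=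
  ∀ z ∈ A.MS q, A.dC q z = 0 → ∃ a : ZMod 3, z - a • s ∈ A.BS q

/-- `z` generates the `τ`-cohomology -/
def GenT (A : SD.{u}) (q : ℕ) (t : A.C q) : Prop :=
  ∀ z ∈ A.MT q, A.dC q z = 0 → ∃ a : ZMod 3, z - a • t ∈ A.BT q

theorem GenS_zero (h : A.VS q) : GenS A q 0 := fun z hz hd => ⟨0, by
  rw [smul_zero, sub_zero]; exact h z hz hd⟩

theorem GenT_zero (h : A.VT q) : GenT A q 0 := fun z hz hd => ⟨0, by
  rw [smul_zero, sub_zero]; exact h z hz hd⟩

/-- correct `m` to a cocycle using a generator of the `σ`-cohomology -/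
theorem corrS {c : A.C q} (hg : GenS A (q + 1) (A.dC q c)) {m : A.C q}
    (hr : A.dE q (A.r q m) = 0) (ht : A.dC q (A.ta q m) = 0) :
    ∃ (a : ZMod 3) (y : A.C q), y ∈ A.MS q ∧ A.dC q (m - a • c - y) = 0 := by
  have h1 : A.dC q m ∈ A.MS (q + 1) := of_k2 (by rw [A.rd, hr]) (by rw [← d_ta, ht])
  obtain ⟨a, y, hy, hd⟩ := hg _ h1 (A.dd _ _)
  refine ⟨a, y, hy, ?_⟩
  rw [map_sub, map_sub, map_smul, hd, sub_self]

/-- correct `m` to a cocycle using a generator of the `τ`-cohomology -/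
theorem corrT {c : A.C q} (hg : GenT A (q + 1) (A.dC q c)) {m : A.C q}
    (hr : A.dE q (A.r q m) = 0) (ht : A.dC q (A.sg q m) = 0) :
    ∃ (a : ZMod 3) (y : A.C q), y ∈ A.MT q ∧ A.dC q (m - a • c - y) = 0 := by
  have h1 : A.dC q m ∈ A.MT (q + 1) := of_k1 (by rw [A.rd, hr]) (by rw [← d_sg, ht])
  obtain ⟨a, y, hy, hd⟩ := hg _ h1 (A.dd _ _)
  refine ⟨a, y, hy, ?_⟩
  rw [map_sub, map_sub, map_smul, hd, sub_self]

theorem ta_corr {m c y : A.C q} {a : ZMod 3} (hy : y ∈ A.MS q) :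
    A.ta q (m - a • c - y) = A.ta q m - a • A.ta q c := by
  rw [map_sub, map_sub, map_smul, ta_MS hy, sub_zero]

theorem sg_corr {m c y : A.C q} {a : ZMod 3} (hy : y ∈ A.MT q) :
    A.sg q (m - a • c - y) = A.sg q m - a • A.sg q c := by
  rw [map_sub, map_sub, map_smul, sg_MT hy, sub_zero]

theorem r_corr {m c y : A.C q} {a : ZMod 3} (hy : y ∈ A.MT q) :
    A.r q (m - a • c - y) = A.r q m - a • A.r q c := by
  rw [map_sub, map_sub, map_smul, r_MT hy, sub_zero]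

theorem genT_down (hV : A.VC q) {c : A.C q} (hg : GenS A (q + 1) (A.dC q c)) :
    GenT A q (A.ta q c) := by
  intro z hz hd
  obtain ⟨m, hm, rfl⟩ := mem_MT.1 hz
  obtain ⟨a, y, hy, h⟩ := corrS hg (m := m) (by rw [hm, map_zero]) hd
  refine ⟨a, ?_⟩
  rw [← ta_corr hy]
  exact ta_BC (hV _ h)

theorem genS_down (hV : A.VC q) {c : A.C q} (hg : GenT A (q + 1) (A.dC q c)) :
    GenS A q (A.sg q c) := by
  intro z hz hd
  obtain ⟨m, hm, rfl⟩ := mem_MS.1 hz
  obtain ⟨a, y, hy, h⟩ := corrT hg (m := m) (by rw [hm, map_zero]) hd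
  refine ⟨a, ?_⟩
  rw [← sg_corr hy]
  exact sg_BC (hV _ h)

theorem genE_down (hV : A.VC q) {c : A.C q} (hg : GenS A (q + 1) (A.dC q c)) {e : A.E q}
    (he : A.dE q e = 0) : ∃ a : ZMod 3, e - a • A.r q c ∈ A.BE q := by
  obtain ⟨a, y, hy, h⟩ := corrS hg (m := A.x q e) (by rw [A.rx, he]) (by rw [ta_x, map_zero])
  refine ⟨a, ?_⟩
  have h2 := r_BC (hV _ h)
  rwa [r_corr (MS_le hy), A.rx] at h2

theorem genE_down' (hV : A.VC q) {c : A.C q} (hg : GenT A (q + 1) (A.dC q c)) {e : A.E q}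
    (he : A.dE q e = 0) : ∃ a : ZMod 3, e - a • A.r q c ∈ A.BE q := by
  obtain ⟨a, y, hy, h⟩ := corrT hg (m := A.x q e) (by rw [A.rx, he]) (by rw [sg_x, map_zero])
  refine ⟨a, ?_⟩
  have h2 := r_BC (hV _ h)
  rwa [r_corr hy, A.rx] at h2

/-- step 1 -/
theorem down_vanish (hV : A.VC q) (hS : A.VS (q + 1)) (hT : A.VT (q + 1)) :
    A.VS q ∧ A.VT q ∧ A.VE q := by
  have hS' : GenS A (q + 1) (A.dC q 0) := by rw [map_zero]; exact GenS_zero hS
  have hT' : GenT A (q + 1) (A.dC q 0) := by rw [map_zero]; exact GenT_zero hT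
  refine ⟨?_, ?_, ?_⟩
  · intro z hz hd
    obtain ⟨a, ha⟩ := genS_down hV hT' z hz hd
    simpa using ha
  · intro z hz hd
    obtain ⟨a, ha⟩ := genT_down hV hS' z hz hd
    simpa using ha
  · intro e he
    obtain ⟨a, ha⟩ := genE_down hV hS' he
    simpa using ha

/-- the induction hypothesis of the descent -/
structure Dd (A : SD.{u}) (q : ℕ) (s t : A.C q) : Prop where
  s1 : s ∈ A.MS q
  t1 : t ∈ A.MT q
  s2 : A.dC q s = 0
  t2 : A.dC q t = 0
  s3 : s ∉ A.BS q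
  t3 : t ∉ A.BT q
  s4 : s ∈ A.BC q
  t4 : t ∈ A.BC q
  s5 : GenS A q s
  t5 : GenT A q t

theorem caseA (hV : A.VC q) {c c' : A.C q} (hD : Dd A (q + 1) (A.dC q c) (A.dC q c'))
    (hrc : A.r q c ∈ A.BE q) : A.VE q ∧ Dd A q (A.sg q c') (A.ta q c) := by
  have hVE : A.VE q := by
    intro e he
    obtain ⟨a, ha⟩ := genE_down hV hD.s5 he
    have := Submodule.add_mem _ ha (Submodule.smul_mem _ a hrc)
    rwa [sub_add_cancel] at this
  have hrc' : A.r q c' ∈ A.BE q := by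
    apply hVE
    rw [← A.rd, r_MT hD.t1]
  have s2 : A.dC q (A.sg q c') = 0 := by rw [d_sg, sg_MT hD.t1]
  have t2 : A.dC q (A.ta q c) = 0 := by rw [d_ta, ta_MS hD.s1]
  refine ⟨hVE, ⟨sg_mem _, ta_mem _, s2, t2, ?_, ?_, hV _ s2, hV _ t2, genS_down hV hD.t5,
    genT_down hV hD.s5⟩⟩
  · intro hcon
    obtain ⟨b1, hb1, hb1r, hb1t, hb1s⟩ := lift_BE hrc'
    obtain ⟨b2, hb2, hb2r, hb2s⟩ := lift_BS hcon
    have h1 : c' - b1 - b2 ∈ A.MT q := by
      apply of_k1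
      · rw [map_sub, map_sub, hb1r, hb2r, sub_self, sub_zero]
      · rw [map_sub, map_sub, hb1s, hb2s, sub_zero, sub_self]
    apply hD.t3
    refine ⟨c' - b1 - b2, h1, ?_⟩
    rw [map_sub, map_sub, d_BC hb1, d_BC hb2, sub_zero, sub_zero]
  · intro hcon
    obtain ⟨b1, hb1, hb1r, hb1t, hb1s⟩ := lift_BE hrc
    obtain ⟨b2, hb2, hb2r, hb2s⟩ := lift_BT hcon
    have h1 : c - b1 - b2 ∈ A.MS q := by
      apply of_k2
      · rw [map_sub, map_sub, hb1r, hb2r, sub_self, sub_zero]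
      · rw [map_sub, map_sub, hb1t, hb2s, sub_zero, sub_self]
    apply hD.s3
    refine ⟨c - b1 - b2, h1, ?_⟩
    rw [map_sub, map_sub, d_BC hb1, d_BC hb2, sub_zero, sub_zero]

theorem smul_mem_cancel {M : Type u} [AddCommGroup M] [Module (ZMod 3) M]
    {S : Submodule (ZMod 3) M} {a : ZMod 3} {v : M} (ha : a ≠ 0) (h : a • v ∈ S) : v ∈ S := by
  have : Fact (Nat.Prime 3) := ⟨Nat.prime_three⟩
  have h2 := Submodule.smul_mem S a⁻¹ h
  rwa [smul_smul, inv_mul_cancel₀ ha, one_smul] at h2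

theorem caseB (hV : A.VC q) {c c' : A.C q} (hD : Dd A (q + 1) (A.dC q c) (A.dC q c'))
    (hrc : A.r q c ∉ A.BE q) : A.VS q ∧ A.VT q ∧ A.dE q (A.r q c) = 0 ∧
      ∀ e, A.dE q e = 0 → ∃ a : ZMod 3, e - a • A.r q c ∈ A.BE q := by
  have hv : A.dE q (A.r q c) = 0 := by rw [← A.rd, r_MS hD.s1]
  refine ⟨?_, ?_, hv, fun e he => genE_down hV hD.s5 he⟩
  · intro z hz hd
    obtain ⟨m, hm, rfl⟩ := mem_MS.1 hz
    obtain ⟨a, y, hy, h⟩ := corrT hD.t5 (m := m) (by rw [hm, map_zero]) hd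
    have h2 := r_BC (hV _ h)
    rw [r_corr hy, hm, zero_sub, ← smul_neg] at h2
    have ha : a = 0 := by
      by_contra hne
      have h3 := Submodule.neg_mem _ (smul_mem_cancel hne h2)
      rw [neg_neg] at h3
      obtain ⟨b, hb⟩ := genE_down' hV hD.t5 hv
      have h4 := Submodule.add_mem _ hb (Submodule.smul_mem _ b h3)
      rw [sub_add_cancel] at h4
      exact hrc h4
    have h5 := sg_BC (hV _ h)
    rw [sg_corr hy, ha, zero_smul, sub_zero] at h5
    exact h5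
  · intro z hz hd
    obtain ⟨m, hm, rfl⟩ := mem_MT.1 hz
    obtain ⟨a, y, hy, h⟩ := corrS hD.s5 (m := m) (by rw [hm, map_zero]) hd
    have h2 := r_BC (hV _ h)
    rw [r_corr (MS_le hy), hm, zero_sub, ← smul_neg] at h2
    have ha : a = 0 := by
      by_contra hne
      have h3 := Submodule.neg_mem _ (smul_mem_cancel hne h2)
      rw [neg_neg] at h3
      exact hrc h3
    have h5 := ta_BC (hV _ h)
    rw [ta_corr hy, ha, zero_smul, sub_zero] at h5
    exact h5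

theorem down_all {Q : ℕ} (hV : ∀ q, q < Q → A.VC q) (hS : A.VS Q) (hT : A.VT Q) :
    ∀ q, q < Q → A.VE q := by
  have key : ∀ j q, q + j = Q → A.VS q ∧ A.VT q := by
    intro j
    induction j with
    | zero => intro q hq; rw [add_zero] at hq; subst hq; exact ⟨hS, hT⟩
    | succ j ih =>
      intro q hq
      have h1 := ih (q + 1) (by omega)
      have h2 := down_vanish (hV q (by omega)) h1.1 h1.2
      exact ⟨h2.1, h2.2.1⟩
  intro q hq
  have h1 := key (Q - (q + 1)) (q + 1) (by omega)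
  exact (down_vanish (hV q hq) h1.1 h1.2).2.2

theorem descent (A : SD.{u}) (Q : ℕ) : ∀ (s t : A.C Q), Dd A Q s t → (∀ q, q < Q → A.VC q) →
    (∀ q, Q ≤ q → A.VE q) → ∃ r', r' < Q ∧ (∀ q, q ≠ r' → A.VE q) ∧
      ∃ v : A.E r', A.dE r' v = 0 ∧ v ∉ A.BE r' ∧
        ∀ e, A.dE r' e = 0 → ∃ a : ZMod 3, e - a • v ∈ A.BE r' := by
  induction Q with
  | zero =>
    intro s t hD _ _
    exfalso
    obtain ⟨m, hm, hms⟩ := mem_MS.1 hD.s1
    apply hD.s3
    rw [← hms, A.m0 m hm, map_zero]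
    exact Submodule.zero_mem _
  | succ Q ih =>
    intro s t hD hV hE
    obtain ⟨c, rfl⟩ := hD.s4
    obtain ⟨c', rfl⟩ := hD.t4
    have hVQ := hV Q (by omega)
    by_cases hrc : A.r Q c ∈ A.BE Q
    · obtain ⟨h1, h2⟩ := caseA hVQ hD hrc
      obtain ⟨r', hr', h3⟩ := ih _ _ h2 (fun q hq => hV q (by omega)) (fun q hq => by
        rcases Nat.eq_or_lt_of_le hq with h | h
        · rw [← h]; exact h1
        · exact hE q h)
      exact ⟨r', by omega, h3⟩
    · obtain ⟨h1, h2, h3, h4⟩ := caseB hVQ hD hrc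
      refine ⟨Q, by omega, ?_, A.r Q c, h3, hrc, h4⟩
      intro q hq
      rcases Nat.lt_or_gt_of_ne hq with h | h
      · exact down_all (fun q hq => hV q (by omega)) h1 h2 q h
      · exact hE q h

end SD

open SD

/-- Main algebraic theorem. -/
theorem alg_sphere (A : SD.{u}) (r N : ℕ) (hC : ∀ q, q ≠ r → A.VC q)
    (u : A.C r) (hu : A.dC r u = 0) (hu0 : u ∉ A.BC r)
    (hu1 : ∀ c, A.dC r c = 0 → ∃ a : ZMod 3, c - a • u ∈ A.BC r)
    (hres : ∀ c, A.dC r c = 0 → A.r r c ∈ A.BE r)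
    (hS : ∀ q, N ≤ q → A.VS q) (hT : ∀ q, N ≤ q → A.VT q) :
    ∃ r', r' + 2 ≤ r ∧ (∀ q, q ≠ r' → A.VE q) ∧
      ∃ v : A.E r', A.dE r' v = 0 ∧ v ∉ A.BE r' ∧
        ∀ e, A.dE r' e = 0 → ∃ a : ZMod 3, e - a • v ∈ A.BE r' := by
  -- vanishing above `r`
  have habove : ∀ j q, r < q → N ≤ q + j → A.VS q ∧ A.VT q := by
    intro j
    induction j with
    | zero => intro q _ hq; exact ⟨hS q hq, hT q hq⟩
    | succ j ih =>
      intro q hq hN
      have h1 := ih (q + 1) (by omega) (by omega)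
      have h2 := down_vanish (hC q (by omega)) h1.1 h1.2
      exact ⟨h2.1, h2.2.1⟩
  have habove' : ∀ q, r < q → A.VS q ∧ A.VT q := fun q hq => habove N q hq (by omega)
  have hEabove : ∀ q, r < q → A.VE q := fun q hq =>
    (down_vanish (hC q (by omega)) (habove' (q + 1) (by omega)).1
      (habove' (q + 1) (by omega)).2).2.2
  obtain ⟨hS1, hT1⟩ := habove' (r + 1) (by omega)
  have hS' : GenS A (r + 1) (A.dC r 0) := by rw [map_zero]; exact GenS_zero hS1
  have hT' : GenT A (r + 1) (A.dC r 0) := by rw [map_zero]; exact GenT_zero hT1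
  -- degree r
  have hEr : A.VE r := by
    intro e he
    obtain ⟨a, y, hy, h⟩ := corrS hS' (m := A.x r e) (by rw [A.rx, he]) (by rw [ta_x, map_zero])
    have h2 := hres _ h
    rw [r_corr (MS_le hy), A.rx, map_zero, smul_zero, sub_zero] at h2
    exact h2
  have genT : GenT A r (A.ta r u) := by
    intro z hz hd
    obtain ⟨m, hm, rfl⟩ := mem_MT.1 hz
    obtain ⟨a, y, hy, h⟩ := corrS hS' (m := m) (by rw [hm, map_zero]) hd
    obtain ⟨b, hb⟩ := hu1 _ h
    refine ⟨b, ?_⟩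
    have h3 := ta_BC hb
    rwa [map_sub, map_smul, ta_corr hy, map_zero, smul_zero, sub_zero] at h3
  have genS : GenS A r (A.sg r u) := by
    intro z hz hd
    obtain ⟨m, hm, rfl⟩ := mem_MS.1 hz
    obtain ⟨a, y, hy, h⟩ := corrT hT' (m := m) (by rw [hm, map_zero]) hd
    obtain ⟨b, hb⟩ := hu1 _ h
    refine ⟨b, ?_⟩
    have h3 := sg_BC hb
    rwa [map_sub, map_smul, sg_corr hy, map_zero, smul_zero, sub_zero] at h3
  -- the action on cohomology is trivial
  have hhu : A.h r u - u ∈ A.BC r := by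
    obtain ⟨a, ha⟩ := hu1 (A.h r u) (by rw [← A.hd, hu, map_zero])
    have h1 := h_BC ha
    rw [map_sub, map_smul] at h1
    have h2 := h_BC h1
    rw [map_sub, map_smul, A.h3] at h2
    have h3 := Submodule.add_mem _ (Submodule.add_mem _ h2 (Submodule.smul_mem _ a h1))
      (Submodule.smul_mem _ (a * a) ha)
    have h4 : u - a • A.h r (A.h r u) + a • (A.h r (A.h r u) - a • A.h r u) +
        (a * a) • (A.h r u - a • u) = (1 - a * a * a) • u := by
      simp only [smul_sub, smul_smul, sub_smul, one_smul]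
      abel
    rw [h4] at h3
    have h5 : ∀ a : ZMod 3, a * a * a = a := by decide
    rw [h5 a] at h3
    have h6 : a = 1 := by
      by_contra hne
      exact hu0 (smul_mem_cancel (sub_ne_zero.2 (Ne.symm hne)) h3)
    rw [h6, one_smul] at ha
    exact ha
  have htu : A.ta r u ∈ A.BC r := by
    have := Submodule.neg_mem _ hhu
    rwa [neg_sub] at this
  have hsu : A.sg r u ∈ A.BC r := by
    rw [← ta_ta]
    exact BT_le_BC (ta_BC htu)
  have hsu0 : A.sg r u ∉ A.BS r := by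
    intro hcon
    obtain ⟨b1, hb1, hb1r, hb1t, hb1s⟩ := lift_BE (hres u hu)
    obtain ⟨b2, hb2, hb2r, hb2s⟩ := lift_BS hcon
    have h1 : u - b1 - b2 ∈ A.MT r := by
      apply of_k1
      · rw [map_sub, map_sub, hb1r, hb2r, sub_self, sub_zero]
      · rw [map_sub, map_sub, hb1s, hb2s, sub_zero, sub_self]
    obtain ⟨a, ha⟩ := genT _ h1 (by rw [map_sub, map_sub, hu, d_BC hb1, d_BC hb2]; simp)
    have h2 := Submodule.add_mem _ (BT_le_BC ha) (Submodule.smul_mem _ a htu)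
    rw [sub_add_cancel] at h2
    have h3 := Submodule.add_mem _ (Submodule.add_mem _ h2 hb2) hb1
    rw [sub_add_cancel, sub_add_cancel] at h3
    exact hu0 h3
  have htu0 : A.ta r u ∉ A.BT r := by
    intro hcon
    apply hsu0
    obtain ⟨b, hb, hbr, hbt⟩ := lift_BT hcon
    rw [← ta_ta, ← hbt, ta_ta]
    exact sg_BC hb
  have hD : Dd A r (A.sg r u) (A.ta r u) :=
    ⟨sg_mem _, ta_mem _, by rw [d_sg, hu, map_zero], by rw [d_ta, hu, map_zero], hsu0, htu0, hsu,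
      htu, genS, genT⟩
  -- degree zero is impossible
  rcases Nat.eq_zero_or_pos r with h0 | hpos
  · subst h0
    exfalso
    have h1 : A.r 0 u = 0 := hres u hu
    apply hu0
    rw [A.m0 u h1]
    exact Submodule.zero_mem _
  · obtain ⟨R, rfl⟩ : ∃ R, r = R + 1 := ⟨r - 1, by omega⟩
    obtain ⟨c, hc⟩ := hsu
    obtain ⟨c', hc'⟩ := htu
    have hVR := hC R (by omega)
    have hrc : A.r R c ∈ A.BE R := by
      have h1 : A.dC R (c - A.ta R c') = 0 := by
        rw [map_sub, hc, d_ta, hc', ta_ta, sub_self]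
      have h2 := r_BC (hVR _ h1)
      rwa [map_sub, r_ta, sub_zero] at h2
    rw [← hc, ← hc'] at hD
    obtain ⟨h1, h2⟩ := caseA hVR hD hrc
    obtain ⟨r', hr', h3⟩ := descent A R _ _ h2 (fun q hq => hC q (by omega)) (fun q hq => by
      rcases Nat.eq_or_lt_of_le hq with h | h
      · rw [← h]; exact h1
      · rcases Nat.eq_or_lt_of_le (show R + 1 ≤ q from h) with h' | h'
        · rw [← h']; exact hEr
        · exact hEabove q h')
    exact ⟨r', by omega, h3⟩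

end Pool.Agent.Helper554.Smith
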