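import Pool.Agent.Helper554.Smith.Alg

set_option autoImplicit false

namespace Pool.Agent.Helper554.Smith

universe u

/-- morphism of Smith data. -/
structure SDHom (A B : SD.{u}) where
  f : ∀ q, A.C q →ₗ[ZMod 3] B.C q
  g : ∀ q, A.E q →ₗ[ZMod 3] B.E q
  fd : ∀ q c, f (q + 1) (A.dC q c) = B.dC q (f q c)
  gd : ∀ q c, g (q + 1) (A.dE q c) = B.dE q (g q c)
  fh : ∀ q c, f q (A.h q c) = B.h q (f q c)
  fr : ∀ q c, B.r q (f q c) = g q (A.r q c)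

/-- `f` is zero on `H_σ^q` and `H_τ^q`. -/
def SDHom.ZR {A B : SD.{u}} (f : SDHom A B) (q : ℕ) : Prop :=
  (∀ c ∈ A.MS q, A.dC q c = 0 → f.f q c ∈ B.BS q) ∧ ∀ c ∈ A.MT q, A.dC q c = 0 → f.f q c ∈ B.BT q

theorem alg_three {V : Type*} [AddCommGroup V] [Module (ZMod 3) V] (v : V) : v + v + v = 0 := by
  have h : (3 : ZMod 3) • v = 0 := by
    rw [show (3 : ZMod 3) = 0 from rfl, zero_smul]
  rw [show (3 : ZMod 3) = 1 + 1 + 1 from rfl, add_smul, add_smul, one_smul] at h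
  exact h

theorem alg_sg (A : SD.{u}) (q : ℕ) (c : A.C q) :
    A.sg q c = c + A.h q c + A.h q (A.h q c) := rfl

theorem alg_ta (A : SD.{u}) (q : ℕ) (c : A.C q) : A.ta q c = c - A.h q c := rfl

theorem alg_dsg (A : SD.{u}) (q : ℕ) (c : A.C q) :
    A.sg (q + 1) (A.dC q c) = A.dC q (A.sg q c) := by
  rw [alg_sg, alg_sg, A.hd, A.hd, map_add, map_add]

theorem alg_dta (A : SD.{u}) (q : ℕ) (c : A.C q) :
    A.ta (q + 1) (A.dC q c) = A.dC q (A.ta q c) := by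
  rw [alg_ta, alg_ta, A.hd, map_sub]

theorem alg_rsg (A : SD.{u}) (q : ℕ) (c : A.C q) : A.r q (A.sg q c) = 0 := by
  rw [alg_sg, map_add, map_add, A.rh, A.rh, A.rh]
  exact alg_three _

theorem alg_rta (A : SD.{u}) (q : ℕ) (c : A.C q) : A.r q (A.ta q c) = 0 := by
  rw [alg_ta, map_sub, A.rh, sub_self]

theorem alg_sgta (A : SD.{u}) (q : ℕ) (c : A.C q) : A.sg q (A.ta q c) = 0 := by
  rw [alg_sg, alg_ta, map_sub, map_sub, A.h3]
  abel

theorem alg_tasg (A : SD.{u}) (q : ℕ) (c : A.C q) : A.ta q (A.sg q c) = 0 := by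
  rw [alg_ta, alg_sg, map_add, map_add, A.h3]
  abel

theorem alg_tax (A : SD.{u}) (q : ℕ) (e : A.E q) : A.ta q (A.x q e) = 0 := by
  rw [alg_ta, A.hx, sub_self]

theorem alg_sgx (A : SD.{u}) (q : ℕ) (e : A.E q) : A.sg q (A.x q e) = 0 := by
  rw [alg_sg, A.hx, A.hx]
  exact alg_three _

theorem alg_fsg {A B : SD.{u}} (f : SDHom A B) (q : ℕ) (c : A.C q) :
    f.f q (A.sg q c) = B.sg q (f.f q c) := by
  rw [alg_sg, alg_sg, map_add, map_add, f.fh, f.fh, f.fh]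

theorem alg_fta {A B : SD.{u}} (f : SDHom A B) (q : ℕ) (c : A.C q) :
    f.f q (A.ta q c) = B.ta q (f.f q c) := by
  rw [alg_ta, alg_ta, map_sub, f.fh]

theorem alg_ta_BC (A : SD.{u}) : ∀ (q : ℕ) (c : A.C q), c ∈ A.BC q → A.ta q c ∈ A.BT q
  | 0, c, hc => by
    have : c = 0 := hc
    rw [this, map_zero]
    exact Submodule.zero_mem _
  | q + 1, c, hc => by
    obtain ⟨c', rfl⟩ := hc
    refine ⟨A.ta q (c' - A.x q (A.r q c')), ⟨c' - A.x q (A.r q c'), ?_, rfl⟩, ?_⟩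
    · show A.r q (c' - A.x q (A.r q c')) = 0
      rw [map_sub, A.rx, sub_self]
    · rw [map_sub, alg_tax, sub_zero, alg_dta]

theorem alg_sg_BC (A : SD.{u}) : ∀ (q : ℕ) (c : A.C q), c ∈ A.BC q → A.sg q c ∈ A.BS q
  | 0, c, hc => by
    have : c = 0 := hc
    rw [this, map_zero]
    exact Submodule.zero_mem _
  | q + 1, c, hc => by
    obtain ⟨c', rfl⟩ := hc
    refine ⟨A.sg q (c' - A.x q (A.r q c')), ⟨c' - A.x q (A.r q c'), ?_, rfl⟩, ?_⟩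
    · show A.r q (c' - A.x q (A.r q c')) = 0
      rw [map_sub, A.rx, sub_self]
    · rw [map_sub, alg_sgx, sub_zero, alg_dsg]

theorem alg_r_BC (A : SD.{u}) : ∀ (q : ℕ) (c : A.C q), c ∈ A.BC q → A.r q c ∈ A.BE q
  | 0, c, hc => by
    have : c = 0 := hc
    rw [this, map_zero]
    exact Submodule.zero_mem _
  | q + 1, c, hc => by
    obtain ⟨c', rfl⟩ := hc
    exact ⟨A.r q c', (A.rd q c').symm⟩

/-- The zero chain step. -/
theorem alg_step {A B D : SD.{u}} (f : SDHom A B) (g : SDHom B D) (gf : SDHom A D)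
    (hgf : ∀ q c, gf.f q c = g.f q (f.f q c)) (hgf' : ∀ q c, gf.g q c = g.g q (f.g q c)) (q : ℕ)
    (hg : ∀ c, B.dC q c = 0 → g.f q c ∈ D.BC q) (hf : f.ZR (q + 1)) :
    gf.ZR q ∧ ∀ e, A.dE q e = 0 → gf.g q e ∈ D.BE q := by
  refine ⟨⟨?_, ?_⟩, ?_⟩
  · rintro z ⟨m, hm, rfl⟩ hz
    have hm : A.r q m = 0 := hm
    have h1 : A.r (q + 1) (A.dC q m) = 0 := by rw [A.rd, hm, map_zero]
    have h2 : A.sg (q + 1) (A.dC q m) = 0 := by rw [alg_dsg]; exact hz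
    obtain ⟨b, hb, hb'⟩ := A.k1 (q + 1) (A.dC q m) h1 h2
    obtain ⟨s, ⟨m2, hm2, rfl⟩, hs⟩ := hf.2 (A.dC q m) ⟨b, hb, hb'.symm⟩ (A.dd q m)
    have h3 : B.dC q (f.f q m - B.ta q m2) = 0 := by
      rw [map_sub, hs, f.fd, sub_self]
    have h4 := alg_sg_BC D q _ (hg _ h3)
    rw [← alg_fsg, map_sub, alg_sgta, sub_zero, ← alg_fsg, ← hgf] at h4
    exact h4
  · rintro z ⟨m, hm, rfl⟩ hz
    have hm : A.r q m = 0 := hm
    have h1 : A.r (q + 1) (A.dC q m) = 0 := by rw [A.rd, hm, map_zero]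
    have h2 : A.ta (q + 1) (A.dC q m) = 0 := by rw [alg_dta]; exact hz
    have h2' : A.h (q + 1) (A.dC q m) = A.dC q m := by
      rw [alg_ta] at h2
      exact (sub_eq_zero.mp h2).symm
    obtain ⟨b, hb, hb'⟩ := A.k2 (q + 1) (A.dC q m) h1 h2'
    obtain ⟨s, ⟨m2, hm2, rfl⟩, hs⟩ := hf.1 (A.dC q m) ⟨b, hb, hb'.symm⟩ (A.dd q m)
    have h3 : B.dC q (f.f q m - B.sg q m2) = 0 := by
      rw [map_sub, hs, f.fd, sub_self]
    have h4 := alg_ta_BC D q _ (hg _ h3)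
    rw [← alg_fta, map_sub, alg_tasg, sub_zero, ← alg_fta, ← hgf] at h4
    exact h4
  · intro e he
    have h1 : A.r (q + 1) (A.dC q (A.x q e)) = 0 := by rw [A.rd, A.rx, he]
    have h2' : A.h (q + 1) (A.dC q (A.x q e)) = A.dC q (A.x q e) := by
      rw [A.hd, A.hx]
    obtain ⟨b, hb, hb'⟩ := A.k2 (q + 1) (A.dC q (A.x q e)) h1 h2'
    obtain ⟨s, ⟨m2, hm2, rfl⟩, hs⟩ := hf.1 (A.dC q (A.x q e)) ⟨b, hb, hb'.symm⟩ (A.dd q _)
    have h3 : B.dC q (f.f q (A.x q e) - B.sg q m2) = 0 := by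
      rw [map_sub, hs, f.fd, sub_self]
    have h4 := alg_r_BC D q _ (hg _ h3)
    rw [g.fr, map_sub, alg_rsg, sub_zero, f.fr, A.rx, ← hgf'] at h4
    exact h4

end Pool.Agent.Helper554.Smith
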