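import Pool.Agent.Helper554.Smith.Homot

set_option autoImplicit false

namespace Pool.Agent.Helper554.Smith.Esc

open Set Filter Topology

section
variable {Ω : Type*} [MetricSpace Ω] [CompactSpace Ω]

theorem compl_ball_nhds {n : ℕ} (R : ℝ) :
    {z : OnePoint (Fin n → ℝ) | z = OnePoint.infty ∨ ∃ x : Fin n → ℝ, z = x ∧ R < ‖x‖} ∈
      𝓝 (OnePoint.infty : OnePoint (Fin n → ℝ)) := by
  have h1 : IsOpen ((((fun x : Fin n → ℝ => (x : OnePoint (Fin n → ℝ))) '' Metric.closedBall 0 R)ᶜ)) :=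
    OnePoint.isOpen_compl_image_coe.2 ⟨Metric.isClosed_closedBall, isCompact_closedBall _ _⟩
  refine mem_of_superset (h1.mem_nhds ?_) ?_
  · rintro ⟨x, _, hx⟩
    exact OnePoint.coe_ne_infty x hx
  · intro z hz
    induction z using OnePoint.rec with
    | infty => exact Or.inl rfl
    | coe x =>
      refine Or.inr ⟨x, rfl, ?_⟩
      by_contra hcon
      exact hz ⟨x, by simpa using not_lt.1 hcon, rfl⟩

theorem nhds_infty_ball {n : ℕ} {U : Set (OnePoint (Fin n → ℝ))}
    (hU : U ∈ 𝓝 (OnePoint.infty : OnePoint (Fin n → ℝ))) :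
    OnePoint.infty ∈ U ∧ ∃ R : ℝ, ∀ x : Fin n → ℝ, R < ‖x‖ → (x : OnePoint (Fin n → ℝ)) ∈ U := by
  refine ⟨mem_of_mem_nhds hU, ?_⟩
  rw [OnePoint.nhds_infty_eq, mem_sup, mem_map, coclosedCompact_eq_cocompact] at hU
  have h1 := hU.1
  rw [Metric.cobounded_eq_cocompact.symm] at h1
  obtain ⟨R, hR⟩ := (Metric.hasBasis_cobounded_compl_closedBall (0 : Fin n → ℝ)).mem_iff.1 h1
  refine ⟨R, fun x hx => hR.2 ?_⟩
  simpa using hx

theorem acyclic_of_escape (n : ℕ) (e : OnePoint (Fin n → ℝ) ≃ₜ Ω) (Z : Set (Fin n → ℝ))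
    (hZ : IsClosed Z) (φ : ℝ → (Fin n → ℝ) → (Fin n → ℝ))
    (hφ : ContinuousOn (fun z : ℝ × (Fin n → ℝ) => φ z.1 z.2) (Ico 0 1 ×ˢ Z))
    (hmap : ∀ t ∈ Ico (0 : ℝ) 1, ∀ x ∈ Z, φ t x ∈ Z) (h0 : ∀ x ∈ Z, φ 0 x = x)
    (hesc : ∀ R : ℝ, ∃ t0 < 1, ∃ R' : ℝ, ∀ t ∈ Ico (0 : ℝ) 1, ∀ x ∈ Z, ‖φ t x‖ ≤ R →
      t ≤ t0 ∧ ‖x‖ ≤ R') (q : ℕ) :
    HV (insert (e OnePoint.infty) ((fun x : Fin n → ℝ => e (x : OnePoint (Fin n → ℝ))) '' Z)) q := by
  classical
  set X : Set Ω := insert (e OnePoint.infty)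
    ((fun x : Fin n → ℝ => e (x : OnePoint (Fin n → ℝ))) '' Z) with hXdef
  let G : ℝ → OnePoint (Fin n → ℝ) → OnePoint (Fin n → ℝ) := fun t z =>
    if t < 1 then OnePoint.map (φ t) z else OnePoint.infty
  have Ginf : ∀ t, G t OnePoint.infty = OnePoint.infty := by
    intro t
    simp only [G]
    split_ifs
    · rfl
    · rfl
  have Gcoe : ∀ t < 1, ∀ x : Fin n → ℝ, G t (x : OnePoint (Fin n → ℝ)) = (φ t x : OnePoint (Fin n → ℝ)) := by
    intro t ht x
    simp only [G, if_pos ht]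
    rfl
  have G1 : ∀ t, ¬ t < 1 → ∀ z, G t z = OnePoint.infty := by
    intro t ht z
    simp only [G, if_neg ht]
  let X' : Set (OnePoint (Fin n → ℝ)) := insert OnePoint.infty
    ((fun x : Fin n → ℝ => (x : OnePoint (Fin n → ℝ))) '' Z)
  have hXX' : ∀ y, y ∈ X ↔ e.symm y ∈ X' := by
    intro y
    obtain ⟨z, rfl⟩ := e.surjective y
    rw [Homeomorph.symm_apply_apply]
    simp only [hXdef, X', mem_insert_iff, mem_image, EmbeddingLike.apply_eq_iff_eq]
  have hX'cl : IsClosed X' := by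
    have h1 : IsOpen ((fun x : Fin n → ℝ => (x : OnePoint (Fin n → ℝ))) '' Zᶜ) :=
      OnePoint.isOpenEmbedding_coe.isOpenMap _ hZ.isOpen_compl
    have h2 : X' = ((fun x : Fin n → ℝ => (x : OnePoint (Fin n → ℝ))) '' Zᶜ)ᶜ := by
      ext z
      induction z using OnePoint.rec with
      | infty => simp [X']
      | coe x => simp [X']
    rw [h2]
    exact h1.isClosed_compl
  have hXcl : IsClosed X := by
    have : X = e.symm ⁻¹' X' := by ext y; exact hXX' y
    rw [this]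
    exact hX'cl.preimage e.symm.continuous
  -- continuity of G
  have hGc : ContinuousOn (fun z : ℝ × OnePoint (Fin n → ℝ) => G z.1 z.2) (Icc 0 1 ×ˢ X') := by
    rintro ⟨t, z⟩ ⟨ht, hz⟩
    simp only at ht hz
    by_cases hcase : t < 1 ∧ z ≠ OnePoint.infty
    · -- regular point
      obtain ⟨ht1, hzi⟩ := hcase
      obtain ⟨x, rfl⟩ : ∃ x : Fin n → ℝ, z = (x : OnePoint (Fin n → ℝ)) := by
        induction z using OnePoint.rec with
        | infty => exact absurd rfl hzi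
        | coe x => exact ⟨x, rfl⟩
      have hxZ : x ∈ Z := by
        rcases hz with hz | ⟨x', hx', hxx⟩
        · exact absurd hz hzi
        · have := OnePoint.coe_injective hxx
          exact this ▸ hx'
      have h1 := hφ (t, x) ⟨⟨ht.1, ht1⟩, hxZ⟩
      rw [ContinuousWithinAt] at h1 ⊢
      simp only
      rw [Gcoe t ht1 x]
      have h2 : Tendsto (fun z : ℝ × (Fin n → ℝ) => ((φ z.1 z.2 : Fin n → ℝ) : OnePoint (Fin n → ℝ)))
          (𝓝[Ico 0 1 ×ˢ Z] (t, x)) (𝓝 (φ t x : OnePoint (Fin n → ℝ))) :=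
        (OnePoint.continuous_coe.tendsto _).comp h1
      -- transfer through the open embedding id × coe
      have hemb : IsOpenEmbedding (fun z : ℝ × (Fin n → ℝ) => (z.1, (z.2 : OnePoint (Fin n → ℝ)))) :=
        IsOpenEmbedding.id.prodMap OnePoint.isOpenEmbedding_coe
      have h3 : 𝓝[Icc 0 1 ×ˢ X'] ((t, (x : OnePoint (Fin n → ℝ)))) ≤
          map (fun z : ℝ × (Fin n → ℝ) => (z.1, (z.2 : OnePoint (Fin n → ℝ)))) (𝓝[Ico 0 1 ×ˢ Z] (t, x)) := by
        intro S hS
        rw [mem_map, mem_nhdsWithin] at hS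
        obtain ⟨u, huo, hxu, hu⟩ := hS
        rw [mem_nhdsWithin]
        refine ⟨(fun z : ℝ × (Fin n → ℝ) => (z.1, (z.2 : OnePoint (Fin n → ℝ)))) ''
          (u ∩ (Iio 1 ×ˢ univ)), hemb.isOpenMap _ (huo.inter (isOpen_Iio.prod isOpen_univ)),
          ⟨(t, x), ⟨hxu, ht1, trivial⟩, rfl⟩, ?_⟩
        rintro ⟨s, y⟩ ⟨⟨⟨s', x'⟩, ⟨hm1, hm2⟩, heq⟩, hs, hy⟩
        simp only [Prod.mk.injEq] at heq
        obtain ⟨rfl, rfl⟩ := heq
        have hx'Z : x' ∈ Z := by
          rcases hy with hy | ⟨x'', hx'', hxx⟩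
          · exact absurd hy (OnePoint.coe_ne_infty _)
          · have := OnePoint.coe_injective hxx
            exact this ▸ hx''
        exact hu ⟨hm1, ⟨hs.1, hm2.1⟩, hx'Z⟩
      refine Tendsto.mono_left ?_ h3
      rw [tendsto_map'_iff]
      refine h2.congr' ?_
      filter_upwards [self_mem_nhdsWithin] with z hz
      exact (Gcoe z.1 hz.1.2 z.2).symm
    · -- value at infinity
      have hval : G t z = OnePoint.infty := by
        by_cases ht1 : t < 1
        · have : z = OnePoint.infty := by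
            by_contra hcon
            exact hcase ⟨ht1, hcon⟩
          rw [this, Ginf]
        · exact G1 t ht1 z
      rw [ContinuousWithinAt]
      simp only
      rw [hval]
      intro U hU
      obtain ⟨hinfU, R, hR⟩ := nhds_infty_ball hU
      obtain ⟨t0, ht0, R', hesc'⟩ := hesc R
      -- sufficient condition
      have hsuff : ∀ s y, s ∈ Icc (0 : ℝ) 1 → y ∈ X' →
          (t0 < s ∨ (y = OnePoint.infty ∨ ∃ x : Fin n → ℝ, y = x ∧ R' < ‖x‖)) → G s y ∈ U := by
        intro s y hs hy hor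
        by_cases hs1 : s < 1
        · induction y using OnePoint.rec with
          | infty => rw [Ginf]; exact hinfU
          | coe x =>
            rw [Gcoe s hs1]
            apply hR
            have hx'Z : x ∈ Z := by
              rcases hy with hy | ⟨x'', hx'', hxx⟩
              · exact absurd hy (OnePoint.coe_ne_infty _)
              · have := OnePoint.coe_injective hxx
                exact this ▸ hx''
            by_contra hcon
            obtain ⟨ha, hb⟩ := hesc' s ⟨hs.1, hs1⟩ x hx'Z (not_lt.1 hcon)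
            rcases hor with hor | hor | ⟨x', hx', hor⟩
            · linarith
            · exact OnePoint.coe_ne_infty _ hor
            · have := OnePoint.coe_injective hx'
              rw [← this] at hor
              linarith
        · rw [G1 s hs1]; exact hinfU
      rw [mem_map, mem_nhdsWithin_iff_exists_mem_nhds_inter]
      by_cases ht1 : t < 1
      · have hzi : z = OnePoint.infty := by
          by_contra hcon
          exact hcase ⟨ht1, hcon⟩
        refine ⟨univ ×ˢ {z : OnePoint (Fin n → ℝ) | z = OnePoint.infty ∨ ∃ x : Fin n → ℝ, z = x ∧ R' < ‖x‖},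
          prod_mem_nhds univ_mem (by rw [hzi]; exact compl_ball_nhds R'), ?_⟩
        rintro ⟨s, y⟩ ⟨⟨-, hy⟩, hs, hyX⟩
        exact hsuff s y hs hyX (Or.inr hy)
      · refine ⟨Ioi t0 ×ˢ univ, prod_mem_nhds (Ioi_mem_nhds (lt_of_lt_of_le ht0 (not_lt.1 ht1)))
          univ_mem, ?_⟩
        rintro ⟨s, y⟩ ⟨⟨hs0, -⟩, hs, hyX⟩
        exact hsuff s y hs hyX (Or.inl hs0)
  have hGmap : ∀ t ∈ Icc (0 : ℝ) 1, ∀ z ∈ X', G t z ∈ X' := by
    intro t ht z hz
    by_cases ht1 : t < 1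
    · rcases hz with hz | ⟨x, hx, rfl⟩
      · rw [hz, Ginf]; exact Or.inl rfl
      · rw [Gcoe t ht1]
        exact Or.inr ⟨_, hmap t ⟨ht.1, ht1⟩ x hx, rfl⟩
    · rw [G1 t ht1]; exact Or.inl rfl
  refine Homot.acyclic_of_contract X hXcl (e OnePoint.infty) (fun t y => e (G t (e.symm y))) ?_ ?_ ?_ ?_
    (Or.inl rfl) q
  · apply e.continuous.comp_continuousOn
    have h1 : ContinuousOn (fun z : ℝ × Ω => (z.1, e.symm z.2)) (Icc 0 1 ×ˢ X) :=
      (continuous_fst.prodMk (e.symm.continuous.comp continuous_snd)).continuousOn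
    refine hGc.comp h1 ?_
    rintro ⟨t, y⟩ ⟨ht, hy⟩
    exact ⟨ht, (hXX' y).1 hy⟩
  · intro t ht y hy
    rw [hXX', Homeomorph.symm_apply_apply]
    exact hGmap t ht _ ((hXX' y).1 hy)
  · intro y hy
    have := (hXX' y).1 hy
    rcases this with hz | ⟨x, hx, hxx⟩
    · rw [hz, Ginf, ← hz, Homeomorph.apply_symm_apply]
    · simp only at hxx
      rw [← hxx, Gcoe 0 one_pos, h0 x hx, hxx, Homeomorph.apply_symm_apply]
  · intro y _
    rw [G1 1 (lt_irrefl _)]

end

end Pool.Agent.Helper554.Smith.Esc
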