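import Pool.Agent.Helper554.Smith.Defs

set_option autoImplicit false

namespace Pool.Agent.Helper554.Smith.MV

open Set


section
variable {Ω : Type*} [MetricSpace Ω] [CompactSpace Ω]

omit [MetricSpace Ω] [CompactSpace Ω] in
/-- the prism operator vanishes if the cochain does on all lists of points of `V`. -/
theorem pr_eq_zero {Ω' : Type*} (f g : Ω → Ω') (V : Set Ω') (l : List Ω) :
    ∀ (F : List Ω' → ZMod 3),
      (∀ l' : List Ω', l'.length = l.length + 1 → (∀ p ∈ l', p ∈ V) → F l' = 0) →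
      (∀ x ∈ l, f x ∈ V ∧ g x ∈ V) → pr f g F l = 0 := by
  induction l with
  | nil => intro F _ _; rfl
  | cons x l ih =>
    intro F hF hV
    rw [pr_cons, ih (fun l' => F (f x :: l')), sub_zero]
    · apply hF
      · simp
      · intro p hp
        rcases List.mem_cons.1 hp with rfl | hp
        · exact (hV x (by simp)).1
        rcases List.mem_cons.1 hp with rfl | hp
        · exact (hV x (by simp)).2
        obtain ⟨y, hy, rfl⟩ := List.mem_map.1 hp
        exact (hV y (List.mem_cons_of_mem _ hy)).2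
    · intro l' hl' hV'
      apply hF
      · simp [hl']
      · intro p hp
        rcases List.mem_cons.1 hp with rfl | hp
        · exact (hV x (by simp)).1
        · exact hV' p hp
    · intro y hy
      exact hV y (List.mem_cons_of_mem _ hy)

/-- separation lemma. -/
theorem sep (A B : Set Ω) (hA : IsClosed A) (hB : IsClosed B) (η : ℝ) (hη : 0 < η) :
    ∃ δ > 0, ∀ x ∈ A, ∀ y ∈ B, dist x y < δ → ∃ z ∈ A ∩ B, dist x z < η := by
  set K : Set Ω := A ∩ ⋂ z ∈ A ∩ B, {x | η ≤ dist x z} with hK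
  have hKc : IsClosed K := by
    apply hA.inter
    refine isClosed_biInter fun z _ => ?_
    exact isClosed_le continuous_const (continuous_id.dist continuous_const)
  have hdisj : Disjoint K B := by
    rw [Set.disjoint_left]
    rintro x ⟨hxA, hx⟩ hxB
    rw [Set.mem_iInter₂] at hx
    have := hx x ⟨hxA, hxB⟩
    simp only [Set.mem_ofPred_eq, dist_self] at this
    linarith
  obtain ⟨δ, hδ, hd⟩ := hdisj.exists_thickenings hKc.isCompact hB
  refine ⟨δ, hδ, fun x hx y hy hxy => ?_⟩
  by_contra hcon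
  push Not at hcon
  have hxK : x ∈ K := ⟨hx, by
    rw [Set.mem_iInter₂]
    intro z hz
    exact hcon z hz⟩
  have t1 : y ∈ Metric.thickening δ K := by
    rw [Metric.mem_thickening_iff]
    exact ⟨x, hxK, by rw [dist_comm]; exact hxy⟩
  have t2 : y ∈ Metric.thickening δ B := by
    rw [Metric.mem_thickening_iff]
    exact ⟨y, hy, by rw [dist_self]; exact hδ⟩
  exact Set.disjoint_left.1 hd t1 t2

/-- L3: Mayer-Vietoris, injectivity part. -/
theorem mv_glue (A B : Set Ω) (hA : IsClosed A) (hB : IsClosed B) (q : ℕ)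
    (c a b : List Ω → ZMod 3) (hc : Coc (A ∪ B) (q + 1) c) (ha : Nl A (q + 1) (c - d a))
    (hb : Nl B (q + 1) (c - d b)) (hab : Cob (A ∩ B) q (a - b)) : Cob (A ∪ B) (q + 1) c := by
  classical
  obtain ⟨e, he⟩ := hab
  set b' : List Ω → ZMod 3 := b + d e with hb'
  have hdb' : d b' = d b := by rw [hb', d_add, d_d, add_zero]
  rw [← hdb'] at hb
  have he' : Nl (A ∩ B) q (a - b') := by
    have : a - b' = a - b - d e := by rw [hb']; abel
    rw [this]; exact he
  obtain ⟨e1, he1, h1⟩ := ha
  obtain ⟨e2, he2, h2⟩ := hb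
  obtain ⟨e3, he3, h3⟩ := he'
  obtain ⟨e4, he4, h4⟩ := hc
  obtain ⟨ε, hε, hε1, hε2, hε3, hε4⟩ : ∃ ε > 0, ε ≤ e1 ∧ ε ≤ e2 ∧ ε ≤ e3 ∧ ε ≤ e4 :=
    ⟨min (min e1 e2) (min e3 e4), lt_min (lt_min he1 he2) (lt_min he3 he4),
      (min_le_left _ _).trans (min_le_left _ _), (min_le_left _ _).trans (min_le_right _ _),
      (min_le_right _ _).trans (min_le_left _ _), (min_le_right _ _).trans (min_le_right _ _)⟩
  have hη : 0 < ε / 8 := by positivity
  obtain ⟨δ0, hδ0, hsep⟩ := sep A B hA hB (ε / 8) hη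
  set δ := min δ0 (ε / 8) with hδdef
  have hδ : 0 < δ := lt_min hδ0 hη
  have hδ1 : δ ≤ δ0 := min_le_left _ _
  have hδ2 : δ ≤ ε / 8 := min_le_right _ _
  -- the map φ
  let φ : Ω → Ω := fun x => if h : ∃ z ∈ A ∩ B, dist x z < ε / 4 then h.choose else x
  have φpos : ∀ x, (∃ z ∈ A ∩ B, dist x z < ε / 4) → φ x ∈ A ∩ B := by
    intro x h
    simp only [φ, dif_pos h]
    exact h.choose_spec.1
  have φneg : ∀ x, (¬ ∃ z ∈ A ∩ B, dist x z < ε / 4) → φ x = x := by
    intro x h
    simp only [φ, dif_neg h]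
  have φdist : ∀ x, dist x (φ x) < ε / 4 := by
    intro x
    by_cases h : ∃ z ∈ A ∩ B, dist x z < ε / 4
    · simp only [φ, dif_pos h]
      exact h.choose_spec.2
    · rw [φneg x h, dist_self]; positivity
  have φA : ∀ x ∈ A, φ x ∈ A := by
    intro x hx
    by_cases h : ∃ z ∈ A ∩ B, dist x z < ε / 4
    · exact (φpos x h).1
    · rw [φneg x h]; exact hx
  have φB : ∀ x ∈ B, φ x ∈ B := by
    intro x hx
    by_cases h : ∃ z ∈ A ∩ B, dist x z < ε / 4
    · exact (φpos x h).2
    · rw [φneg x h]; exact hx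
  have φAB : ∀ l : List Ω, Sm (A ∪ B) δ l → (∀ p ∈ l, φ p ∈ A) ∨ (∀ p ∈ l, φ p ∈ B) := by
    intro l hl
    by_cases hlA : ∀ p ∈ l, p ∈ A
    · exact Or.inl fun p hp => φA p (hlA p hp)
    by_cases hlB : ∀ p ∈ l, p ∈ B
    · exact Or.inr fun p hp => φB p (hlB p hp)
    push Not at hlA hlB
    obtain ⟨y, hy, hyA⟩ := hlA
    obtain ⟨x, hx, hxB⟩ := hlB
    have hyB : y ∈ B := (hl.1 y hy).resolve_left hyA
    have hxA : x ∈ A := (hl.1 x hx).resolve_right hxB
    obtain ⟨z, hz, hxz⟩ := hsep x hxA y hyB ((hl.2 x hx y hy).trans_le hδ1)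
    left
    intro p hp
    refine (φpos p ⟨z, hz, ?_⟩).1
    have := hl.2 p hp x hx
    have := dist_triangle p x z
    linarith
  -- the glued cochain
  let w : List Ω → ZMod 3 := fun l' => if (∀ x ∈ l', x ∈ A) then a l' else b' l'
  have wA : ∀ l' : List Ω, l'.length = q + 1 → Sm A ε l' → d w l' = c l' := by
    intro l' hl' hs
    have e1' : d w l' = d a l' := by
      apply d_congr
      intro l'' _ hsub
      exact if_pos fun x hx => hs.1 x (hsub hx)
    rw [e1']
    have := h1 l' hl' (hs.mono le_rfl hε1)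
    rw [Pi.sub_apply, sub_eq_zero] at this
    exact this.symm
  have wB : ∀ l' : List Ω, l'.length = q + 1 → Sm B ε l' → d w l' = c l' := by
    intro l' hl' hs
    have e1' : d w l' = d b' l' := by
      apply d_congr
      intro l'' hlen hsub
      by_cases hA' : ∀ x ∈ l'', x ∈ A
      · have e2' : w l'' = a l'' := if_pos hA'
        rw [e2']
        have := h3 l'' (by omega) ⟨fun x hx => ⟨hA' x hx, hs.1 x (hsub hx)⟩,
          fun x hx y hy => (hs.2 x (hsub hx) y (hsub hy)).trans_le hε3⟩
        rw [Pi.sub_apply, sub_eq_zero] at this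
        exact this
      · exact if_neg hA'
    rw [e1']
    have := h2 l' hl' (hs.mono le_rfl hε2)
    rw [Pi.sub_apply, sub_eq_zero] at this
    exact this.symm
  refine ⟨pb φ w - pr id φ c, δ, hδ, fun l hl hs => ?_⟩
  -- distances
  have hdist1 : ∀ x ∈ l, ∀ y ∈ l, dist (φ x) (φ y) < ε := by
    intro x hx y hy
    have a1 := φdist x
    have a2 := φdist y
    have a3 := hs.2 x hx y hy
    have a4 := dist_triangle4 (φ x) x y (φ y)
    rw [dist_comm (φ x) x] at a4
    linarith
  have hmap : c (l.map φ) = d w (l.map φ) := by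
    rcases φAB l hs with h | h
    · refine (wA _ (by simpa using hl) ⟨?_, ?_⟩).symm
      · intro p hp
        obtain ⟨x, hx, rfl⟩ := List.mem_map.1 hp
        exact h x hx
      · intro p hp p' hp'
        obtain ⟨x, hx, rfl⟩ := List.mem_map.1 hp
        obtain ⟨y, hy, rfl⟩ := List.mem_map.1 hp'
        exact hdist1 x hx y hy
    · refine (wB _ (by simpa using hl) ⟨?_, ?_⟩).symm
      · intro p hp
        obtain ⟨x, hx, rfl⟩ := List.mem_map.1 hp
        exact h x hx
      · intro p hp p' hp'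
        obtain ⟨x, hx, rfl⟩ := List.mem_map.1 hp
        obtain ⟨y, hy, rfl⟩ := List.mem_map.1 hp'
        exact hdist1 x hx y hy
  have hpr : pr id φ (d c) l = 0 := by
    apply pr_eq_zero id φ {p | ∃ x ∈ l, p = x ∨ p = φ x} l
    · intro l' hl' hV
      refine h4 l' (by omega) ⟨?_, ?_⟩
      · intro p hp
        obtain ⟨x, hx, h | h⟩ := hV p hp
        · rw [h]; exact hs.1 x hx
        · rw [h]
          rcases hs.1 x hx with hxA | hxB
          · exact Or.inl (φA x hxA)
          · exact Or.inr (φB x hxB)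
      · intro p hp p' hp'
        obtain ⟨x, hx, h⟩ := hV p hp
        obtain ⟨y, hy, h'⟩ := hV p' hp'
        have d1 : dist p x < ε / 4 := by
          rcases h with h | h
          · rw [h, dist_self]; positivity
          · rw [h, dist_comm]; exact φdist x
        have d2 : dist y p' < ε / 4 := by
          rcases h' with h | h
          · rw [h, dist_self]; positivity
          · rw [h]; exact φdist y
        have d3 := hs.2 x hx y hy
        have d4 := dist_triangle4 p x y p'
        linarith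
    · intro x hx
      exact ⟨⟨x, hx, Or.inl rfl⟩, ⟨x, hx, Or.inr rfl⟩⟩
  have hprism := congrFun (prism (id : Ω → Ω) φ c) l
  simp only [Pi.add_apply, Pi.sub_apply, pb, List.map_id] at hprism
  rw [hpr, add_zero] at hprism
  rw [Pi.sub_apply, d_sub, Pi.sub_apply, d_pb]
  have e5 : pb φ (d w) l = d w (l.map φ) := rfl
  rw [e5, ← hmap, hprism]
  ring

end

end Pool.Agent.Helper554.Smith.MV
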