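import Pool.Agent.Helper554.Smith.Defs
import Pool.Agent.Helper554.Smith.Susp
import Pool.Agent.Helper554.Smith.Homot
import Pool.Agent.Helper554.Smith.Esc

set_option autoImplicit false

namespace Pool.Agent.Helper554.Smith

open Set





section
variable {Ω : Type*} [MetricSpace Ω] [CompactSpace Ω]

theorem escClosed (n : ℕ) (e : OnePoint (Fin n → ℝ) ≃ₜ Ω) (Z : Set (Fin n → ℝ))
    (hZ : IsClosed Z) :
    IsClosed (insert (e OnePoint.infty)
      ((fun x : Fin n → ℝ => e (x : OnePoint (Fin n → ℝ))) '' Z)) := by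
  have h1 : IsOpen ((fun x : Fin n → ℝ => (x : OnePoint (Fin n → ℝ))) '' Zᶜ) :=
    OnePoint.isOpenEmbedding_coe.isOpenMap _ hZ.isOpen_compl
  have h2 : insert (e OnePoint.infty)
      ((fun x : Fin n → ℝ => e (x : OnePoint (Fin n → ℝ))) '' Z)
      = (e '' ((fun x : Fin n → ℝ => (x : OnePoint (Fin n → ℝ))) '' Zᶜ))ᶜ := by
    ext y
    obtain ⟨p, rfl⟩ := e.surjective y
    induction p using OnePoint.rec with
    | infty =>
      simp
    | coe x =>
      simp [OnePoint.coe_ne_infty]
  rw [h2]
  exact (e.isOpenMap _ h1).isClosed_compl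

theorem singleton_hv (p : Ω) (q : ℕ) : HV ({p} : Set Ω) q := by
  refine Homot.acyclic_of_contract {p} isClosed_singleton p (fun _ x => x) ?_ ?_ ?_ ?_ rfl q
  · exact continuous_snd.continuousOn
  · intro t _ x hx; exact hx
  · intro x _; rfl
  · intro x hx; exact hx

theorem stepHV (A B : Set Ω) (hA : IsClosed A) (hB : IsClosed B) (hAa : ∀ q, HV A q)
    (hBa : ∀ q, HV B q) (hne : (A ∪ B).Nonempty) (i : ℕ) (h0 : ∀ q, q ≠ i → HV (A ∩ B) q)
    (h : H1 (A ∩ B) i) : (∀ q, q ≠ i + 1 → HV (A ∪ B) q) ∧ H1 (A ∪ B) (i + 1) := by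
  refine ⟨?_, susp A B hA hB hAa hBa i h⟩
  intro q hq c hc
  cases q with
  | zero =>
    obtain ⟨x, hx⟩ := hne
    obtain ⟨ε, hε, hc⟩ := hc
    have h1 := hc [x] rfl ⟨by simpa using hx, by simpa using hε⟩
    have h2 : c [] = 0 := by simpa [d_cons] using h1
    exact (nl_zero_iff.2 h2).cob
  | succ q =>
    have hqi : q ≠ i := by omega
    exact mv A B hA hB q (h0 q hqi) c hc (hAa _ c (Coc.mono hc subset_union_left))
      (hBa _ c (Coc.mono hc subset_union_right))

theorem empty_h1 : H1 (∅ : Set Ω) 0 := by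
  refine ⟨fun _ => 1, ?_, ?_, ?_⟩
  · refine ⟨1, one_pos, ?_⟩
    intro l hl hs
    obtain ⟨x, l', rfl⟩ := List.exists_cons_of_length_pos (by omega : 0 < l.length)
    exact absurd (hs.1 x (by simp)) (by simp)
  · rintro ⟨b, hb⟩
    rw [nl_zero_iff] at hb
    simp at hb
  · intro c _
    refine ⟨c [], 0, ?_⟩
    rw [nl_zero_iff]
    simp

theorem empty_hv (q : ℕ) (hq : q ≠ 0) : HV (∅ : Set Ω) q := by
  intro c _
  refine Nl.cob ⟨1, one_pos, ?_⟩
  intro l hl hs
  obtain ⟨x, l', rfl⟩ := List.exists_cons_of_length_pos (by omega : 0 < l.length)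
  exact absurd (hs.1 x (by simp)) (by simp)

theorem half_hv (n : ℕ) (e : OnePoint (Fin n → ℝ) ≃ₜ Ω) (i : ℕ) (hi : i < n) (s : ℝ)
    (hs : s * s = 1) (q : ℕ) :
    HV (insert (e OnePoint.infty) ((fun x : Fin n → ℝ => e (x : OnePoint (Fin n → ℝ))) ''
      {x | (∀ j : Fin n, i + 1 ≤ (j : ℕ) → x j = 0) ∧ 0 ≤ s * x ⟨i, hi⟩})) q := by
  set k : Fin n := ⟨i, hi⟩ with hk
  have habs : |s| = 1 := by
    have h1 : |s| * |s| = 1 := by rw [← abs_mul, hs, abs_one]
    nlinarith [abs_nonneg s]
  have hle : ∀ y : ℝ, s * y ≤ |y| := by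
    intro y
    calc s * y ≤ |s * y| := le_abs_self _
      _ = |y| := by rw [abs_mul, habs, one_mul]
  have habs' : ∀ y : ℝ, 0 ≤ s * y → |y| = s * y := by
    intro y hy
    calc |y| = |s * y| := by rw [abs_mul, habs, one_mul]
      _ = s * y := abs_of_nonneg hy
  refine Esc.acyclic_of_escape n e _ ?_ (fun t x => x + (s * (t / (1 - t))) • (Pi.single k (1 : ℝ) : Fin n → ℝ))
    ?_ ?_ ?_ ?_ q
  · have h1 : {x : Fin n → ℝ | (∀ j : Fin n, i + 1 ≤ (j : ℕ) → x j = 0) ∧ 0 ≤ s * x k}
        = (⋂ j : Fin n, {x | i + 1 ≤ (j : ℕ) → x j = 0}) ∩ {x | 0 ≤ s * x k} := by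
      ext x; simp
    rw [h1]
    refine IsClosed.inter (isClosed_iInter fun j => ?_) ?_
    · by_cases hj : i + 1 ≤ (j : ℕ)
      · have : {x : Fin n → ℝ | i + 1 ≤ (j : ℕ) → x j = 0} = {x | x j = 0} := by
          ext x; simp [hj]
        rw [this]
        exact isClosed_eq (continuous_apply j) continuous_const
      · have : {x : Fin n → ℝ | i + 1 ≤ (j : ℕ) → x j = 0} = univ := by
          ext x; simp [hj]
        rw [this]
        exact isClosed_univ
    · exact isClosed_le continuous_const (continuous_const.mul (continuous_apply k))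
  · have h1 : ContinuousOn (fun z : ℝ × (Fin n → ℝ) => z.1 / (1 - z.1))
        (Ico 0 1 ×ˢ {x : Fin n → ℝ | (∀ j : Fin n, i + 1 ≤ (j : ℕ) → x j = 0) ∧ 0 ≤ s * x k}) := by
      refine ContinuousOn.div continuous_fst.continuousOn
        (continuous_const.sub continuous_fst).continuousOn ?_
      rintro ⟨t, x⟩ ⟨ht, _⟩
      have : t < 1 := ht.2
      simp only
      linarith
    exact ContinuousOn.add continuous_snd.continuousOn
      ((continuousOn_const.mul h1).smul continuousOn_const)
  · intro t ht x hx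
    have ht1 : 0 < 1 - t := by linarith [ht.2]
    refine ⟨?_, ?_⟩
    · intro j hj
      have hjk : j ≠ k := by
        intro h
        rw [h, hk] at hj
        simp at hj
      simp [hx.1 j hj, Pi.single_apply, hjk]
    · have h2 : s * (x k + s * (t / (1 - t))) = s * x k + t / (1 - t) := by
        linear_combination (t / (1 - t)) * hs
      have h3 : 0 ≤ t / (1 - t) := div_nonneg ht.1 ht1.le
      have h4 := hx.2
      simp only [Pi.add_apply, Pi.smul_apply, Pi.single_eq_same, smul_eq_mul, mul_one]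
      rw [h2]
      linarith
  · intro x _
    simp
  · intro R
    have hR0 : 0 ≤ max R 0 := le_max_right _ _
    refine ⟨max R 0 / (1 + max R 0), ?_, R, ?_⟩
    · rw [div_lt_one (by linarith)]
      linarith
    · intro t ht x hx hn
      have ht1 : 0 < 1 - t := by linarith [ht.2]
      have h3 : 0 ≤ t / (1 - t) := div_nonneg ht.1 ht1.le
      have hkk : (x + (s * (t / (1 - t))) • (Pi.single k (1 : ℝ) : Fin n → ℝ)) k = x k + s * (t / (1 - t)) := by
        simp
      have h2 : s * (x k + s * (t / (1 - t))) = s * x k + t / (1 - t) := by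
        linear_combination (t / (1 - t)) * hs
      have h5 : |x k + s * (t / (1 - t))| ≤ R := by
        have := norm_le_pi_norm (x + (s * (t / (1 - t))) • (Pi.single k (1 : ℝ) : Fin n → ℝ)) k
        rw [hkk, Real.norm_eq_abs] at this
        linarith
      have h6 : s * x k + t / (1 - t) ≤ R := by
        rw [← h2]
        exact (hle _).trans h5
      have h4 : 0 ≤ s * x k := hx.2
      constructor
      · have h7 : t / (1 - t) ≤ max R 0 := by
          have := le_max_left R 0
          linarith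
        rw [div_le_iff₀ ht1] at h7
        rw [le_div_iff₀ (by linarith)]
        nlinarith
      · have hRnn : 0 ≤ R := (abs_nonneg _).trans h5
        rw [pi_norm_le_iff_of_nonneg hRnn]
        intro j
        by_cases hj : j = k
        · rw [hj, Real.norm_eq_abs, habs' _ h4]
          linarith
        · have := norm_le_pi_norm (x + (s * (t / (1 - t))) • (Pi.single k (1 : ℝ) : Fin n → ℝ)) j
          have h8 : (x + (s * (t / (1 - t))) • (Pi.single k (1 : ℝ) : Fin n → ℝ)) j = x j := by
            simp [Pi.single_apply, hj]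
          rw [h8] at this
          linarith

/-- the filtration. -/
def Yf (n : ℕ) (e : OnePoint (Fin n → ℝ) ≃ₜ Ω) : ℕ → Set Ω
  | 0 => ∅
  | i + 1 => insert (e OnePoint.infty) ((fun x : Fin n → ℝ => e (x : OnePoint (Fin n → ℝ))) ''
      {x | ∀ j : Fin n, i ≤ (j : ℕ) → x j = 0})

theorem Yf_spec (n : ℕ) (e : OnePoint (Fin n → ℝ) ≃ₜ Ω) (i : ℕ) (hi : i ≤ n + 1) :
    (∀ q, q ≠ i → HV (Yf n e i) q) ∧ H1 (Yf n e i) i := by
  induction i with
  | zero => exact ⟨fun q hq => empty_hv q hq, empty_h1⟩
  | succ i ih =>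
    obtain ⟨ih1, ih2⟩ := ih (by omega)
    cases i with
    | zero =>
      have hne : e OnePoint.infty ≠ e ((0 : Fin n → ℝ) : OnePoint (Fin n → ℝ)) := by
        intro h
        exact OnePoint.infty_ne_coe _ (e.injective h)
      have hU : Yf n e (0 + 1) = {e OnePoint.infty} ∪ {e ((0 : Fin n → ℝ) : OnePoint (Fin n → ℝ))} := by
        ext y
        simp only [Yf, mem_insert_iff, mem_image, mem_ofPred_eq, mem_union, mem_singleton_iff]
        refine or_congr_right ?_
        constructor
        · rintro ⟨x, hx, rfl⟩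
          have : x = 0 := by
            funext j
            exact hx j (Nat.zero_le _)
          rw [this]
        · rintro rfl
          exact ⟨0, by simp, rfl⟩
      have hI : ({e OnePoint.infty} : Set Ω) ∩ {e ((0 : Fin n → ℝ) : OnePoint (Fin n → ℝ))} = ∅ := by
        rw [Set.eq_empty_iff_forall_notMem]
        rintro y ⟨h1, h2⟩
        rw [mem_singleton_iff] at h1 h2
        exact hne (h1.symm.trans h2)
      rw [hU]
      refine stepHV _ _ isClosed_singleton isClosed_singleton (singleton_hv _) (singleton_hv _)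
        ⟨_, Or.inl rfl⟩ 0 ?_ ?_
      · rw [hI]; exact fun q hq => empty_hv q hq
      · rw [hI]; exact empty_h1
    | succ i =>
      have hin : i < n := by omega
      set A : Set Ω := insert (e OnePoint.infty)
        ((fun x : Fin n → ℝ => e (x : OnePoint (Fin n → ℝ))) ''
          {x | (∀ j : Fin n, i + 1 ≤ (j : ℕ) → x j = 0) ∧ 0 ≤ (1 : ℝ) * x ⟨i, hin⟩}) with hAdef
      set B : Set Ω := insert (e OnePoint.infty)
        ((fun x : Fin n → ℝ => e (x : OnePoint (Fin n → ℝ))) ''
          {x | (∀ j : Fin n, i + 1 ≤ (j : ℕ) → x j = 0) ∧ 0 ≤ (-1 : ℝ) * x ⟨i, hin⟩}) with hBdef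
      have hcl : ∀ s : ℝ, IsClosed {x : Fin n → ℝ |
          (∀ j : Fin n, i + 1 ≤ (j : ℕ) → x j = 0) ∧ 0 ≤ s * x ⟨i, hin⟩} := by
        intro s
        have h1 : {x : Fin n → ℝ | (∀ j : Fin n, i + 1 ≤ (j : ℕ) → x j = 0) ∧ 0 ≤ s * x ⟨i, hin⟩}
            = (⋂ j : Fin n, {x | i + 1 ≤ (j : ℕ) → x j = 0}) ∩ {x | 0 ≤ s * x ⟨i, hin⟩} := by
          ext x; simp
        rw [h1]
        refine IsClosed.inter (isClosed_iInter fun j => ?_) ?_
        · by_cases hj : i + 1 ≤ (j : ℕ)
          · have : {x : Fin n → ℝ | i + 1 ≤ (j : ℕ) → x j = 0} = {x | x j = 0} := by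
              ext x; simp [hj]
            rw [this]
            exact isClosed_eq (continuous_apply j) continuous_const
          · have : {x : Fin n → ℝ | i + 1 ≤ (j : ℕ) → x j = 0} = univ := by
              ext x; simp [hj]
            rw [this]
            exact isClosed_univ
        · exact isClosed_le continuous_const (continuous_const.mul (continuous_apply _))
      have hU : Yf n e (i + 1 + 1) = A ∪ B := by
        ext y
        simp only [Yf, hAdef, hBdef, mem_insert_iff, mem_image, mem_ofPred_eq, mem_union]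
        constructor
        · rintro (h | ⟨x, hx, rfl⟩)
          · exact Or.inl (Or.inl h)
          · rcases le_total 0 (x ⟨i, hin⟩) with h | h
            · exact Or.inl (Or.inr ⟨x, ⟨hx, by linarith⟩, rfl⟩)
            · exact Or.inr (Or.inr ⟨x, ⟨hx, by linarith⟩, rfl⟩)
        · rintro ((h | ⟨x, hx, rfl⟩) | (h | ⟨x, hx, rfl⟩))
          · exact Or.inl h
          · exact Or.inr ⟨x, hx.1, rfl⟩
          · exact Or.inl h
          · exact Or.inr ⟨x, hx.1, rfl⟩
      have hI : A ∩ B = Yf n e (i + 1) := by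
        ext y
        simp only [Yf, hAdef, hBdef, mem_insert_iff, mem_image, mem_ofPred_eq, mem_inter_iff]
        constructor
        · rintro ⟨(h | ⟨x, hx, rfl⟩), h2⟩
          · exact Or.inl h
          · rcases h2 with h2 | ⟨x', hx', h3⟩
            · exact Or.inl h2
            · have hxx : x' = x := OnePoint.coe_injective (e.injective h3)
              subst hxx
              refine Or.inr ⟨x', ?_, rfl⟩
              intro j hj
              rcases Nat.eq_or_lt_of_le hj with h | h
              · have hjk : j = ⟨i, hin⟩ := Fin.ext h.symm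
                rw [hjk]
                have h4 := hx.2
                have h5 := hx'.2
                linarith
              · exact hx.1 j h
        · rintro (h | ⟨x, hx, rfl⟩)
          · exact ⟨Or.inl h, Or.inl h⟩
          · have h6 : x ⟨i, hin⟩ = 0 := hx _ le_rfl
            refine ⟨Or.inr ⟨x, ⟨fun j hj => hx j (by omega), by rw [h6]; simp⟩, rfl⟩,
              Or.inr ⟨x, ⟨fun j hj => hx j (by omega), by rw [h6]; simp⟩, rfl⟩⟩
      rw [hU]
      refine stepHV A B (escClosed n e _ (hcl 1)) (escClosed n e _ (hcl (-1)))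
        (half_hv n e i hin 1 (by norm_num)) (half_hv n e i hin (-1) (by norm_num))
        ⟨e OnePoint.infty, Or.inl (Or.inl rfl)⟩ (i + 1) ?_ ?_
      · rw [hI]; exact ih1
      · rw [hI]; exact ih2

theorem local_hv (n : ℕ) (e : OnePoint (Fin n → ℝ) ≃ₜ Ω) (x0 : Fin n → ℝ) (ρ : ℝ) (hρ : 0 < ρ)
    (q : ℕ) :
    HV (insert (e OnePoint.infty) ((fun x : Fin n → ℝ => e (x : OnePoint (Fin n → ℝ))) ''
      {y | ρ ≤ ‖y - x0‖})) q := by
  have key : ∀ t : ℝ, t < 1 → ∀ y : Fin n → ℝ,
      ‖(x0 + (1 / (1 - t)) • (y - x0)) - x0‖ = ‖y - x0‖ / (1 - t) := by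
    intro t ht y
    have ht1 : 0 < 1 - t := by linarith
    rw [add_sub_cancel_left, norm_smul, Real.norm_eq_abs, abs_of_pos (by positivity)]
    ring
  refine Esc.acyclic_of_escape n e _ ?_ (fun t y => x0 + (1 / (1 - t)) • (y - x0)) ?_ ?_ ?_ ?_ q
  · exact isClosed_le continuous_const (continuous_id.sub continuous_const).norm
  · have h1 : ContinuousOn (fun z : ℝ × (Fin n → ℝ) => 1 / (1 - z.1))
        (Ico 0 1 ×ˢ {y : Fin n → ℝ | ρ ≤ ‖y - x0‖}) := by
      refine ContinuousOn.div continuousOn_const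
        (continuous_const.sub continuous_fst).continuousOn ?_
      rintro ⟨t, x⟩ ⟨ht, _⟩
      have : t < 1 := ht.2
      simp only
      linarith
    exact ContinuousOn.add continuousOn_const
      (h1.smul (continuous_snd.sub continuous_const).continuousOn)
  · intro t ht y hy
    have ht1 : 0 < 1 - t := by linarith [ht.2]
    have hy' : ρ ≤ ‖y - x0‖ := hy
    change ρ ≤ ‖(x0 + (1 / (1 - t)) • (y - x0)) - x0‖
    rw [key t ht.2 y, le_div_iff₀ ht1]
    nlinarith [ht.1]
  · intro y _
    simp
  · intro R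
    set S : ℝ := max (R + ‖x0‖) ρ with hS
    have hS0 : 0 < S := hρ.trans_le (le_max_right _ _)
    refine ⟨1 - ρ / S, by have := div_pos hρ hS0; linarith, S + ‖x0‖, ?_⟩
    intro t ht y hy hn
    have ht1 : 0 < 1 - t := by linarith [ht.2]
    have hy' : ρ ≤ ‖y - x0‖ := hy
    have h1 : ‖y - x0‖ / (1 - t) ≤ S := by
      rw [← key t ht.2 y]
      calc ‖(x0 + (1 / (1 - t)) • (y - x0)) - x0‖
          ≤ ‖x0 + (1 / (1 - t)) • (y - x0)‖ + ‖x0‖ := norm_sub_le _ _
        _ ≤ R + ‖x0‖ := by
          have : ‖x0 + (1 / (1 - t)) • (y - x0)‖ ≤ R := hn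
          linarith
        _ ≤ S := le_max_left _ _
    rw [div_le_iff₀ ht1] at h1
    constructor
    · have h2 : ρ / S ≤ 1 - t := by
        rw [div_le_iff₀ hS0]
        linarith
      linarith
    · have h3 : ‖y‖ ≤ ‖y - x0‖ + ‖x0‖ := by
        calc ‖y‖ = ‖(y - x0) + x0‖ := by simp
          _ ≤ _ := norm_add_le _ _
      have h4 : ‖y - x0‖ ≤ S := by nlinarith [ht.1]
      linarith

/-- TARGET: the one-point compactification of `ℝⁿ` is a sphere. -/
theorem base (n : ℕ) (e : OnePoint (Fin n → ℝ) ≃ₜ Ω) : SL (e OnePoint.infty) univ (n + 1) := by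
  have hY : Yf n e (n + 1) = univ := by
    rw [Set.eq_univ_iff_forall]
    intro y
    obtain ⟨p, rfl⟩ := e.surjective y
    induction p using OnePoint.rec with
    | infty => exact Or.inl rfl
    | coe x =>
      refine Or.inr ⟨x, ?_, rfl⟩
      intro j hj
      exact absurd j.2 (by omega)
  obtain ⟨h1, h2⟩ := Yf_spec n e (n + 1) le_rfl
  rw [hY] at h1 h2
  refine ⟨isClosed_univ, h1, h2, ?_⟩
  intro x _ hx W hW hxW
  obtain ⟨p, rfl⟩ := e.surjective x
  induction p using OnePoint.rec with
  | infty => exact absurd rfl hx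
  | coe x0 =>
    have hcont : Continuous (fun x : Fin n → ℝ => e (x : OnePoint (Fin n → ℝ))) :=
      e.continuous.comp OnePoint.continuous_coe
    have hopen : IsOpenMap (fun x : Fin n → ℝ => e (x : OnePoint (Fin n → ℝ))) :=
      e.isOpenMap.comp OnePoint.isOpenEmbedding_coe.isOpenMap
    have h3 : IsOpen ((fun x : Fin n → ℝ => e (x : OnePoint (Fin n → ℝ))) ⁻¹' W) :=
      hW.preimage hcont
    obtain ⟨ρ, hρ, hball⟩ := Metric.isOpen_iff.1 h3 x0 hxW
    refine ⟨(fun x : Fin n → ℝ => e (x : OnePoint (Fin n → ℝ))) '' Metric.ball x0 ρ,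
      hopen _ Metric.isOpen_ball, ⟨x0, Metric.mem_ball_self hρ, rfl⟩, ?_, ?_⟩
    · rintro _ ⟨y, hy, rfl⟩
      exact hball hy
    · intro q c hc
      have h4 : (univ : Set Ω) \ ((fun x : Fin n → ℝ => e (x : OnePoint (Fin n → ℝ))) ''
          Metric.ball x0 ρ) = insert (e OnePoint.infty)
            ((fun x : Fin n → ℝ => e (x : OnePoint (Fin n → ℝ))) '' {y | ρ ≤ ‖y - x0‖}) := by
        ext y
        obtain ⟨p, rfl⟩ := e.surjective y
        induction p using OnePoint.rec with
        | infty => simp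
        | coe z =>
          constructor
          · rintro ⟨_, h5⟩
            refine Or.inr ⟨z, ?_, rfl⟩
            by_contra h6
            refine h5 ⟨z, ?_, rfl⟩
            rw [mem_ball_iff_norm]
            exact not_le.1 h6
          · rintro (h5 | ⟨z', hz', h5⟩)
            · exact absurd (e.injective h5) (OnePoint.coe_ne_infty z)
            · have hzz : z' = z := OnePoint.coe_injective (e.injective h5)
              subst hzz
              refine ⟨trivial, ?_⟩
              rintro ⟨z'', hz'', h6⟩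
              have hzz : z'' = z' := OnePoint.coe_injective (e.injective h6)
              subst hzz
              rw [mem_ball_iff_norm] at hz''
              exact absurd hz' (not_le.2 hz'')
      rw [h4] at hc
      refine (local_hv n e x0 ρ hρ q c hc).mono ?_
      rw [← h4]
      intro y hy
      refine ⟨trivial, ?_⟩
      rintro ⟨z, hz, rfl⟩
      exact hy.2 (hball hz)

end

end Pool.Agent.Helper554.Smith
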