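import Mathlib

/-!
Alexander-Spanier cochains on lists, with coefficients in `ZMod 3`.
A cochain is a function `c : List Ω → ZMod 3`; the degree `q` part is its restriction to
lists of length `q` (so this is the augmented complex, and length `q` is reduced degree `q-1`).
-/

set_option autoImplicit false

namespace Pool.Agent.Helper554.Smith

open Set

/-- value of the coboundary of `c` on a list. -/
def dv {Ω : Type*} : List Ω → (List Ω → ZMod 3) → ZMod 3
  | [], _ => 0
  | x :: l, c => c l - dv l (fun l' => c (x :: l'))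

/-- The coboundary. -/
def d {Ω : Type*} (c : List Ω → ZMod 3) : List Ω → ZMod 3 := fun l => dv l c

/-- A list of points of `X` all at pairwise distance `< ε`. -/
def Sm {Ω : Type*} [MetricSpace Ω] (X : Set Ω) (ε : ℝ) (l : List Ω) : Prop :=
  (∀ x ∈ l, x ∈ X) ∧ ∀ x ∈ l, ∀ y ∈ l, dist x y < ε

/-- `c` vanishes on all sufficiently small lists of length `q` in `X`. -/
def Nl {Ω : Type*} [MetricSpace Ω] (X : Set Ω) (q : ℕ) (c : List Ω → ZMod 3) : Prop :=
  ∃ ε > 0, ∀ l : List Ω, l.length = q → Sm X ε l → c l = 0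

/-- `c` is a cocycle of length `q` on `X`. -/
def Coc {Ω : Type*} [MetricSpace Ω] (X : Set Ω) (q : ℕ) (c : List Ω → ZMod 3) : Prop :=
  Nl X (q + 1) (d c)

/-- `c` is a coboundary of length `q` on `X`. -/
def Cob {Ω : Type*} [MetricSpace Ω] (X : Set Ω) (q : ℕ) (c : List Ω → ZMod 3) : Prop :=
  ∃ b : List Ω → ZMod 3, Nl X q (c - d b)

section basic

variable {Ω : Type*}

@[simp] theorem d_nil (c : List Ω → ZMod 3) : d c [] = 0 := rfl

theorem d_cons (c : List Ω → ZMod 3) (x : Ω) (l : List Ω) :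
    d c (x :: l) = c l - d (fun l' => c (x :: l')) l := rfl

theorem d_add (b c : List Ω → ZMod 3) : d (b + c) = d b + d c := by
  funext l
  induction l generalizing b c with
  | nil => simp
  | cons x l ih =>
    have h1 : (fun l' => (b + c) (x :: l')) = (fun l' => b (x :: l')) + (fun l' => c (x :: l')) := rfl
    rw [d_cons, h1, ih]
    simp only [d_cons, Pi.add_apply]
    ring

theorem d_smul (a : ZMod 3) (c : List Ω → ZMod 3) : d (a • c) = a • d c := by
  funext l
  induction l generalizing c with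
  | nil => simp
  | cons x l ih =>
    have h1 : (fun l' => (a • c) (x :: l')) = a • (fun l' => c (x :: l')) := rfl
    rw [d_cons, h1, ih]
    simp only [d_cons, Pi.smul_apply, smul_eq_mul]
    ring

theorem d_neg (c : List Ω → ZMod 3) : d (-c) = - d c := by
  have := d_smul (-1) c
  simpa using this

theorem d_sub (b c : List Ω → ZMod 3) : d (b - c) = d b - d c := by
  rw [sub_eq_add_neg, d_add, d_neg, ← sub_eq_add_neg]

@[simp] theorem d_zero : d (0 : List Ω → ZMod 3) = 0 := by
  have := d_smul 0 (0 : List Ω → ZMod 3)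
  simpa using this

theorem d_d (c : List Ω → ZMod 3) : d (d c) = 0 := by
  funext l
  induction l generalizing c with
  | nil => simp
  | cons x l ih =>
    have h1 : (fun l' => d c (x :: l')) = c - d (fun l' => c (x :: l')) := by
      funext l'
      simp [d_cons]
    rw [d_cons, h1, d_sub]
    simp only [Pi.sub_apply, ih]
    simp

/-- pullback along a map of points. -/
def pb {Ω' : Type*} (f : Ω → Ω') (c : List Ω' → ZMod 3) : List Ω → ZMod 3 := fun l => c (l.map f)

theorem d_pb {Ω' : Type*} (f : Ω → Ω') (c : List Ω' → ZMod 3) : d (pb f c) = pb f (d c) := by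
  funext l
  induction l generalizing c with
  | nil => simp [pb]
  | cons x l ih =>
    have h1 : (fun l' => pb f c (x :: l')) = pb f (fun l' => c (f x :: l')) := rfl
    rw [d_cons, h1, ih]
    simp [pb, d_cons]

/-- prism operator. -/
def prv {Ω' : Type*} (f g : Ω → Ω') : List Ω → (List Ω' → ZMod 3) → ZMod 3
  | [], _ => 0
  | x :: l, c => c (f x :: g x :: l.map g) - prv f g l (fun l' => c (f x :: l'))

def pr {Ω' : Type*} (f g : Ω → Ω') (c : List Ω' → ZMod 3) : List Ω → ZMod 3 := fun l => prv f g l c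

@[simp] theorem pr_nil {Ω' : Type*} (f g : Ω → Ω') (c : List Ω' → ZMod 3) : pr f g c [] = 0 := rfl

theorem pr_cons {Ω' : Type*} (f g : Ω → Ω') (c : List Ω' → ZMod 3) (x : Ω) (l : List Ω) :
    pr f g c (x :: l) = c (f x :: g x :: l.map g) - pr f g (fun l' => c (f x :: l')) l := rfl

theorem pr_sub {Ω' : Type*} (f g : Ω → Ω') (b c : List Ω' → ZMod 3) :
    pr f g (b - c) = pr f g b - pr f g c := by
  funext l
  induction l generalizing b c with
  | nil => simp
  | cons x l ih =>
    have h1 : (fun l' => (b - c) (f x :: l')) = (fun l' => b (f x :: l')) - (fun l' => c (f x :: l')) := rfl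
    rw [pr_cons, h1, ih]
    simp only [pr_cons, Pi.sub_apply]
    ring

/-- the prism identity. -/
theorem prism {Ω' : Type*} (f g : Ω → Ω') (c : List Ω' → ZMod 3) :
    d (pr f g c) + pr f g (d c) = pb g c - pb f c := by
  funext l
  induction l generalizing c with
  | nil => simp [pb]
  | cons x l ih =>
    simp only [Pi.add_apply, Pi.sub_apply] at ih ⊢
    have h1 : (fun l' => pr f g c (x :: l')) =
        pb g (fun l' => c (f x :: g x :: l')) - pr f g (fun l' => c (f x :: l')) := by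
      funext l'
      simp [pr_cons, pb]
    have h2 : (fun l' => d c (f x :: l')) = c - d (fun l' => c (f x :: l')) := by
      funext l'
      simp [d_cons]
    rw [d_cons, h1, d_sub, pr_cons, h2, pr_sub, d_pb]
    have h3 := ih (fun l' => c (f x :: l'))
    simp only [Pi.sub_apply, pb, List.map_cons, d_cons] at h3 ⊢
    linear_combination h3

end basic

section small

variable {Ω : Type*} [MetricSpace Ω] {X Y : Set Ω} {ε η : ℝ} {l : List Ω} {q : ℕ}

theorem Sm.mono (h : Sm X ε l) (hXY : X ⊆ Y) (hε : ε ≤ η) : Sm Y η l :=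
  ⟨fun x hx => hXY (h.1 x hx), fun x hx y hy => (h.2 x hx y hy).trans_le hε⟩

theorem Sm.tail {x : Ω} (h : Sm X ε (x :: l)) : Sm X ε l :=
  ⟨fun y hy => h.1 y (List.mem_cons_of_mem _ hy),
    fun y hy z hz => h.2 y (List.mem_cons_of_mem _ hy) z (List.mem_cons_of_mem _ hz)⟩

theorem Sm.sub {l' : List Ω} (h : Sm X ε l) (hl : l' ⊆ l) : Sm X ε l' :=
  ⟨fun x hx => h.1 x (hl hx), fun x hx y hy => h.2 x (hl hx) y (hl hy)⟩

@[simp] theorem sm_nil : Sm X ε ([] : List Ω) := ⟨by simp, by simp⟩

omit [MetricSpace Ω] in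
/-- the coboundary on a list only depends on the sublists of length one less. -/
theorem d_congr {b c : List Ω → ZMod 3} (l : List Ω)
    (h : ∀ l', l'.length + 1 = l.length → l' ⊆ l → b l' = c l') : d b l = d c l := by
  induction l generalizing b c with
  | nil => simp
  | cons x l ih =>
    rw [d_cons, d_cons, h l (by simp) (List.subset_cons_self _ _)]
    congr 1
    apply ih
    intro l' hl' hs
    apply h
    · simpa using hl'
    · intro y hy
      rcases List.mem_cons.1 hy with rfl | hy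
      · simp
      · exact List.mem_cons_of_mem _ (hs hy)

omit [MetricSpace Ω] in
theorem d_eq_zero {c : List Ω → ZMod 3} (l : List Ω)
    (h : ∀ l', l'.length + 1 = l.length → l' ⊆ l → c l' = 0) : d c l = 0 := by
  have := d_congr (b := c) (c := 0) l (by simpa using h)
  simpa using this

theorem Nl.mono {c : List Ω → ZMod 3} (h : Nl X q c) (hXY : Y ⊆ X) : Nl Y q c := by
  obtain ⟨ε, hε, h⟩ := h
  exact ⟨ε, hε, fun l hl hs => h l hl (hs.mono hXY le_rfl)⟩

theorem Nl.zero : Nl X q (0 : List Ω → ZMod 3) := ⟨1, one_pos, fun _ _ _ => rfl⟩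

theorem Nl.add {b c : List Ω → ZMod 3} (hb : Nl X q b) (hc : Nl X q c) : Nl X q (b + c) := by
  obtain ⟨ε, hε, hb⟩ := hb
  obtain ⟨η, hη, hc⟩ := hc
  refine ⟨min ε η, lt_min hε hη, fun l hl hs => ?_⟩
  rw [Pi.add_apply, hb l hl (hs.mono le_rfl (min_le_left _ _)),
    hc l hl (hs.mono le_rfl (min_le_right _ _)), add_zero]

theorem Nl.smul {c : List Ω → ZMod 3} (a : ZMod 3) (hc : Nl X q c) : Nl X q (a • c) := by
  obtain ⟨ε, hε, hc⟩ := hc
  exact ⟨ε, hε, fun l hl hs => by rw [Pi.smul_apply, hc l hl hs, smul_zero]⟩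

theorem Nl.neg {c : List Ω → ZMod 3} (hc : Nl X q c) : Nl X q (-c) := by
  simpa using hc.smul (-1)

theorem Nl.sub {b c : List Ω → ZMod 3} (hb : Nl X q b) (hc : Nl X q c) : Nl X q (b - c) := by
  rw [sub_eq_add_neg]; exact hb.add hc.neg

theorem Nl.d {c : List Ω → ZMod 3} (hc : Nl X q c) : Nl X (q + 1) (d c) := by
  obtain ⟨ε, hε, hc⟩ := hc
  refine ⟨ε, hε, fun l hl hs => d_eq_zero l fun l' hl' hsub => hc l' (by omega) (hs.sub hsub)⟩

theorem nl_zero_iff {c : List Ω → ZMod 3} : Nl X 0 c ↔ c [] = 0 := by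
  constructor
  · rintro ⟨ε, _, h⟩
    exact h [] rfl sm_nil
  · intro h
    refine ⟨1, one_pos, fun l hl _ => ?_⟩
    rw [List.length_eq_zero_iff.1 hl, h]

theorem Coc.mono {c : List Ω → ZMod 3} (h : Coc X q c) (hXY : Y ⊆ X) : Coc Y q c := Nl.mono h hXY

theorem Cob.mono {c : List Ω → ZMod 3} (h : Cob X q c) (hXY : Y ⊆ X) : Cob Y q c := by
  obtain ⟨b, hb⟩ := h
  exact ⟨b, hb.mono hXY⟩

theorem Cob.add {b c : List Ω → ZMod 3} (hb : Cob X q b) (hc : Cob X q c) : Cob X q (b + c) := by
  obtain ⟨b', hb⟩ := hb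
  obtain ⟨c', hc⟩ := hc
  refine ⟨b' + c', ?_⟩
  rw [d_add]
  have : b + c - (Smith.d b' + Smith.d c') = (b - Smith.d b') + (c - Smith.d c') := by abel
  rw [this]
  exact hb.add hc

theorem Cob.smul {c : List Ω → ZMod 3} (a : ZMod 3) (hc : Cob X q c) : Cob X q (a • c) := by
  obtain ⟨c', hc⟩ := hc
  refine ⟨a • c', ?_⟩
  rw [d_smul, ← smul_sub]
  exact hc.smul a

theorem Cob.neg {c : List Ω → ZMod 3} (hc : Cob X q c) : Cob X q (-c) := by
  simpa using hc.smul (-1)

theorem Cob.sub {b c : List Ω → ZMod 3} (hb : Cob X q b) (hc : Cob X q c) : Cob X q (b - c) := by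
  rw [sub_eq_add_neg]; exact hb.add hc.neg

theorem Nl.cob {c : List Ω → ZMod 3} (hc : Nl X q c) : Cob X q c := ⟨0, by simpa using hc⟩

theorem Cob.coc {c : List Ω → ZMod 3} (hc : Cob X q c) : Coc X q c := by
  obtain ⟨b, hb⟩ := hc
  have := hb.d
  rw [d_sub, d_d, sub_zero] at this
  exact this

theorem cob_d (b : List Ω → ZMod 3) : Cob X q (d b) := ⟨b, by simpa using Nl.zero⟩

theorem Coc.add {b c : List Ω → ZMod 3} (hb : Coc X q b) (hc : Coc X q c) : Coc X q (b + c) := by
  unfold Coc; rw [d_add]; exact Nl.add hb hc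

theorem Coc.smul {c : List Ω → ZMod 3} (a : ZMod 3) (hc : Coc X q c) : Coc X q (a • c) := by
  unfold Coc; rw [d_smul]; exact Nl.smul a hc

theorem Coc.sub {b c : List Ω → ZMod 3} (hb : Coc X q b) (hc : Coc X q c) : Coc X q (b - c) := by
  unfold Coc; rw [d_sub]; exact Nl.sub hb hc

end small


/-- The cohomology of `X` vanishes in length `q`. -/
def HV {Ω : Type*} [MetricSpace Ω] (X : Set Ω) (q : ℕ) : Prop := ∀ c, Coc X q c → Cob X q c

/-- The cohomology of `X` in length `q` is one-dimensional. -/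
def H1 {Ω : Type*} [MetricSpace Ω] (X : Set Ω) (q : ℕ) : Prop :=
  ∃ u, Coc X q u ∧ ¬ Cob X q u ∧ ∀ c, Coc X q c → ∃ a : ZMod 3, Cob X q (c - a • u)

/-- `X` looks like a sphere (length index `r`, i.e. dimension `r - 1`), with base point `w`. -/
def SL {Ω : Type*} [MetricSpace Ω] (w : Ω) (X : Set Ω) (r : ℕ) : Prop :=
  IsClosed X ∧ (∀ q, q ≠ r → HV X q) ∧ H1 X r ∧
    ∀ x ∈ X, x ≠ w → ∀ W : Set Ω, IsOpen W → x ∈ W → ∃ W' : Set Ω, IsOpen W' ∧ x ∈ W' ∧ W' ⊆ W ∧
      ∀ q c, Coc (X \ W') q c → Cob (X \ W) q c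

end Pool.Agent.Helper554.Smith
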