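import Pool.Agent.Helper554.Smith.Defs

set_option autoImplicit false

namespace Pool.Agent.Helper554.Smith.Taut

open Set


/-- the prism operator vanishes when the cochain vanishes on all lists of the points involved. -/
theorem pr_eq_zero {Ω : Type*} {Ω' : Type*} (f g : Ω → Ω') (V : Set Ω') (n : ℕ)
    (F : List Ω' → ZMod 3) (hF : ∀ l' : List Ω', l'.length = n + 1 → (∀ x ∈ l', x ∈ V) → F l' = 0)
    (l : List Ω) (hl : l.length = n) (hV : ∀ x ∈ l, f x ∈ V ∧ g x ∈ V) : pr f g F l = 0 := by
  induction l generalizing n F with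
  | nil => simp
  | cons x l ih =>
    have hx := hV x List.mem_cons_self
    have hl' : l.length + 1 = n := by simpa using hl
    rw [pr_cons]
    have h1 : F (f x :: g x :: l.map g) = 0 := by
      apply hF
      · simp only [List.length_cons, List.length_map]
        omega
      · intro z hz
        rcases List.mem_cons.1 hz with rfl | hz
        · exact hx.1
        rcases List.mem_cons.1 hz with rfl | hz
        · exact hx.2
        obtain ⟨y, hy, rfl⟩ := List.mem_map.1 hz
        exact (hV y (List.mem_cons_of_mem _ hy)).2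
    have h2 : pr f g (fun l' => F (f x :: l')) l = 0 := by
      apply ih l.length
      · intro l' hl'' hz
        apply hF
        · simp only [List.length_cons]
          omega
        · intro z hz'
          rcases List.mem_cons.1 hz' with rfl | hz'
          · exact hx.1
          · exact hz z hz'
      · rfl
      · intro y hy
        exact hV y (List.mem_cons_of_mem _ hy)
    rw [h1, h2, sub_zero]

section
variable {Ω : Type*} [MetricSpace Ω] [CompactSpace Ω]

/-- L2: tautness. -/
theorem taut (X A : Set Ω) (hA : IsClosed A) (hAX : A ⊆ X) (q : ℕ) (c : List Ω → ZMod 3)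
    (hc : Coc X q c) (hcA : Cob A q c) :
    ∃ O : Set Ω, IsOpen O ∧ A ⊆ O ∧ Cob (X ∩ O) q c := by
  classical
  obtain ⟨ε0, hε0, hc0⟩ := hc
  obtain ⟨b, ε1, hε1, hb⟩ := hcA
  set ε : ℝ := min ε0 ε1 with hε
  have hεpos : 0 < ε := lt_min hε0 hε1
  set η : ℝ := ε / 4 with hη
  have hηpos : 0 < η := by positivity
  refine ⟨Metric.thickening η A, Metric.isOpen_thickening, Metric.self_subset_thickening hηpos A, ?_⟩
  let φ : Ω → Ω := fun x => if h : ∃ a ∈ A, dist x a < η then h.choose else x
  have hφ : ∀ x ∈ Metric.thickening η A, φ x ∈ A ∧ dist x (φ x) < η := by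
    intro x hx
    rw [Metric.mem_thickening_iff] at hx
    have : φ x = hx.choose := dif_pos hx
    rw [this]
    exact hx.choose_spec
  refine ⟨pb φ b - pr id φ c, η, hηpos, ?_⟩
  intro l hl hs
  have hO : ∀ x ∈ l, φ x ∈ A ∧ dist x (φ x) < η := fun x hx => hφ x (hs.1 x hx).2
  set V : Set Ω := {z | ∃ x ∈ l, z ∈ X ∧ dist x z < η} with hV
  have hVd : ∀ z ∈ V, ∀ w ∈ V, dist z w < ε := by
    rintro z ⟨x, hx, -, hxz⟩ w ⟨y, hy, -, hyw⟩
    have h1 := hs.2 x hx y hy
    have h2 := dist_triangle4 z x y w
    rw [dist_comm z x] at h2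
    linarith
  have hidV : ∀ x ∈ l, (id x : Ω) ∈ V ∧ φ x ∈ V := by
    intro x hx
    refine ⟨⟨x, hx, (hs.1 x hx).1, ?_⟩, ⟨x, hx, hAX (hO x hx).1, (hO x hx).2⟩⟩
    simpa using hηpos
  have hpr : pr id φ (Smith.d c) l = 0 := by
    apply pr_eq_zero id φ V q (Smith.d c) _ l hl hidV
    intro l' hl' hz
    apply hc0 l' hl'
    refine ⟨fun x hx => ?_, fun x hx y hy => (hVd x (hz x hx) y (hz y hy)).trans_le (min_le_left _ _)⟩
    obtain ⟨_, _, h, _⟩ := hz x hx
    exact h
  have hA2 : (c - Smith.d b) (l.map φ) = 0 := by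
    apply hb
    · rw [List.length_map, hl]
    · constructor
      · intro z hz
        obtain ⟨y, hy, rfl⟩ := List.mem_map.1 hz
        exact (hO y hy).1
      · intro z hz w hw
        obtain ⟨y, hy, rfl⟩ := List.mem_map.1 hz
        obtain ⟨y', hy', rfl⟩ := List.mem_map.1 hw
        exact (hVd _ (hidV y hy).2 _ (hidV y' hy').2).trans_le (min_le_right _ _)
  have hpm := congrFun (prism id φ c) l
  simp only [Pi.add_apply, Pi.sub_apply] at hpm
  rw [hpr, add_zero] at hpm
  have hid : pb id c l = c l := by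
    rw [pb, List.map_id]
  rw [hid] at hpm
  rw [d_sub, d_pb]
  simp only [Pi.sub_apply] at hA2 ⊢
  rw [hpm]
  show c l - (pb φ (Smith.d b) l - (pb φ c l - c l)) = 0
  have e1 : pb φ (Smith.d b) l = Smith.d b (l.map φ) := rfl
  have e2 : pb φ c l = c (l.map φ) := rfl
  rw [e1, e2]
  linear_combination hA2


end

end Pool.Agent.Helper554.Smith.Taut
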