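import Pool.Agent.Helper554.Smith.Defs
import Pool.Agent.Helper554.Smith.Taut
import Pool.Agent.Helper554.Smith.Susp

set_option autoImplicit false

namespace Pool.Agent.Helper554.Smith

open Set


section
variable {Ω : Type*} [MetricSpace Ω] [CompactSpace Ω]




/-- a set with at most one point has no cohomology in positive length. -/
theorem hv_subsingleton (X : Set Ω) (hX : ∀ x ∈ X, ∀ y ∈ X, x = y) (q : ℕ) (hq : 1 ≤ q) :
    HV X q := by
  intro c hc
  rcases X.eq_empty_or_nonempty with rfl | ⟨p, hp⟩
  · refine Nl.cob ⟨1, one_pos, fun l hl hs => ?_⟩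
    cases l with
    | nil => simp at hl; omega
    | cons x l => exact absurd (hs.1 x (by simp)) (by simp)
  · obtain ⟨ε, hε, h⟩ := hc
    refine ⟨fun l => c (p :: l), ε, hε, fun l hl hs => ?_⟩
    have h1 : Sm X ε (p :: l) := by
      constructor
      · intro x hx
        rcases List.mem_cons.1 hx with rfl | hx
        · exact hp
        · exact hs.1 x hx
      · intro x hx y hy
        have hx' : x ∈ X := by
          rcases List.mem_cons.1 hx with rfl | hx
          · exact hp
          · exact hs.1 x hx
        have hy' : y ∈ X := by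
          rcases List.mem_cons.1 hy with rfl | hy
          · exact hp
          · exact hs.1 y hy
        rw [hX x hx' y hy', dist_self]
        exact hε
    have h2 := h (p :: l) (by simp [hl]) h1
    rw [d_cons] at h2
    simpa using h2

/-- TARGET: finite dimensionality. -/
theorem fd (N : ℕ) (f : Fin N → Ω → ℝ) (hf : ∀ i, Continuous (f i)) (X : Set Ω) (hX : IsClosed X)
    (hinj : ∀ x ∈ X, ∀ y ∈ X, (∀ i, f i x = f i y) → x = y) (q : ℕ)
    (hq : N + 2 ≤ q) : HV X q := by
  induction N generalizing X q with
  | zero =>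
    exact hv_subsingleton X (fun x hx y hy => hinj x hx y hy (fun i => i.elim0)) q (by omega)
  | succ N ih =>
    intro c hc
    set g : Ω → ℝ := f (Fin.last N) with hg
    have hgc : Continuous g := hf _
    -- slices
    have hslice : ∀ t : ℝ, ∀ r : ℕ, N + 2 ≤ r → HV (X ∩ g ⁻¹' {t}) r := by
      intro t r hr
      refine ih (fun i => f (Fin.castSucc i)) (fun i => hf _) (X ∩ g ⁻¹' {t})
        (hX.inter (isClosed_singleton.preimage hgc)) ?_ r hr
      intro x hx y hy hxy
      refine hinj x hx.1 y hy.1 fun i => ?_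
      refine Fin.lastCases ?_ (fun j => hxy j) i
      have hx2 : g x = t := hx.2
      have hy2 : g y = t := hy.2
      rw [← hg, hx2, hy2]
    obtain ⟨q', rfl⟩ : ∃ q', q = q' + 1 := ⟨q - 1, by omega⟩
    let P : ℝ → ℝ → Prop := fun a b => Cob (X ∩ g ⁻¹' Icc a b) (q' + 1) c
    have P_trans : ∀ a b e : ℝ, a ≤ b → b ≤ e → P a b → P b e → P a e := by
      intro a b e hab hbe h1 h2
      have hU : (X ∩ g ⁻¹' Icc a b) ∪ (X ∩ g ⁻¹' Icc b e) = X ∩ g ⁻¹' Icc a e := by
        rw [← inter_union_distrib_left, ← preimage_union, Icc_union_Icc_eq_Icc hab hbe]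
      have hI : (X ∩ g ⁻¹' Icc a b) ∩ (X ∩ g ⁻¹' Icc b e) = X ∩ g ⁻¹' {b} := by
        rw [← inter_inter_distrib_left, ← preimage_inter, Icc_inter_Icc_eq_singleton hab hbe]
      have := mv (X ∩ g ⁻¹' Icc a b) (X ∩ g ⁻¹' Icc b e)
        (hX.inter (isClosed_Icc.preimage hgc)) (hX.inter (isClosed_Icc.preimage hgc)) q'
        (by rw [hI]; exact hslice b q' (by omega)) c
        (by rw [hU]; exact hc.mono inter_subset_left) h1 h2
      rw [hU] at this
      exact this
    have P_mono : ∀ a b a' b' : ℝ, a ≤ a' → b' ≤ b → P a b → P a' b' := by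
      intro a b a' b' ha hb h
      exact Cob.mono h (inter_subset_inter_right _ (preimage_mono (Icc_subset_Icc ha hb)))
    have P_loc : ∀ t : ℝ, ∃ ε > 0, P (t - ε) (t + ε) := by
      intro t
      have hA : Cob (X ∩ g ⁻¹' {t}) (q' + 1) c :=
        hslice t (q' + 1) (by omega) c (hc.mono inter_subset_left)
      obtain ⟨O, hO, hAO, hcO⟩ := Taut.taut X (X ∩ g ⁻¹' {t})
        (hX.inter (isClosed_singleton.preimage hgc)) inter_subset_left (q' + 1) c hc hA
      have hK : IsCompact (X \ O) := (hX.sdiff hO).isCompact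
      rcases (X \ O).eq_empty_or_nonempty with he | hne
      · refine ⟨1, one_pos, ?_⟩
        refine Cob.mono hcO ?_
        intro x hx
        refine ⟨hx.1, ?_⟩
        by_contra hxO
        have : x ∈ X \ O := ⟨hx.1, hxO⟩
        rw [he] at this
        exact this
      · obtain ⟨x0, hx0, hmin⟩ := hK.exists_isMinOn hne
          (f := fun x => |g x - t|) (by fun_prop)
        have hpos : 0 < |g x0 - t| := by
          rw [abs_pos, sub_ne_zero]
          intro h
          exact hx0.2 (hAO ⟨hx0.1, h⟩)
        refine ⟨|g x0 - t| / 2, by positivity, ?_⟩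
        refine Cob.mono hcO ?_
        intro x hx
        refine ⟨hx.1, ?_⟩
        by_contra hxO
        have h1 : |g x0 - t| ≤ |g x - t| := hmin (a := x) ⟨hx.1, hxO⟩
        have h2 : |g x - t| ≤ |g x0 - t| / 2 := by
          rw [abs_le]
          have := hx.2
          rw [mem_preimage, mem_Icc] at this
          constructor <;> linarith [this.1, this.2]
        linarith
    -- bounds for g
    have hcomp : IsCompact (range g) := isCompact_range hgc
    obtain ⟨R, hR⟩ := hcomp.isBounded.subset_closedBall 0
    set lo : ℝ := -|R| with hlo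
    set hi : ℝ := |R| with hhi
    have hlohi : lo ≤ hi := by
      rw [hlo, hhi]; linarith [abs_nonneg R]
    have hXall : X ∩ g ⁻¹' Icc lo hi = X := by
      rw [inter_eq_left]
      intro x _
      have h1 := hR (mem_range_self x)
      rw [Metric.mem_closedBall, dist_zero_right, Real.norm_eq_abs] at h1
      have h2 : |g x| ≤ |R| := h1.trans (le_abs_self R)
      rw [mem_preimage, mem_Icc]
      exact abs_le.1 h2
    choose e he1 he2 using P_loc
    obtain ⟨t, ht0, htm, ⟨m, hm⟩, ht⟩ := exists_monotone_Icc_subset_open_cover_Icc (ι := ℝ)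
      hlohi (c := fun s => {x : Icc lo hi | (x : ℝ) ∈ Ioo (s - e s) (s + e s)})
      (fun s => isOpen_Ioo.preimage continuous_subtype_val)
      (fun x _ => by
        rw [mem_iUnion]
        refine ⟨(x : ℝ), ?_⟩
        have := he1 (x : ℝ)
        simp only [mem_setOf_eq, mem_Ioo]
        constructor <;> linarith)
    have hstep : ∀ n, P (t n) (t (n + 1)) := by
      intro n
      obtain ⟨s, hs⟩ := ht n
      have hle : t n ≤ t (n + 1) := htm (Nat.le_succ n)
      have h1 := hs (left_mem_Icc.2 hle)
      have h2 := hs (right_mem_Icc.2 hle)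
      simp only [mem_setOf_eq, mem_Ioo] at h1 h2
      exact P_mono _ _ _ _ h1.1.le h2.2.le (he2 s)
    have hall : ∀ n, P lo (t n) := by
      intro n
      induction n with
      | zero =>
        rw [ht0]
        exact P_mono _ _ _ _ (by linarith [he1 lo]) (by linarith [he1 lo]) (he2 lo)
      | succ n ihn =>
        exact P_trans _ _ _ (t n).2.1 (htm (Nat.le_succ n)) ihn (hstep n)
    have hfin := hall m
    rw [hm m le_rfl] at hfin
    have : Cob (X ∩ g ⁻¹' Icc lo hi) (q' + 1) c := hfin
    rwa [hXall] at this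

end

end Pool.Agent.Helper554.Smith
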