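import Pool.Agent.Helper554.Smith.Defs

set_option autoImplicit false

namespace Pool.Agent.Helper554.Smith

open Set





section
variable {Ω : Type*} [MetricSpace Ω] [CompactSpace Ω]

/-- TARGET 1: a sphere-like set containing the base point has positive index. -/
theorem SL.pos {w : Ω} {X : Set Ω} {r : ℕ} (h : SL w X r) (hw : w ∈ X) : 1 ≤ r := by
  rcases Nat.eq_zero_or_pos r with hr | hr
  · exfalso
    subst hr
    obtain ⟨_, _, ⟨u, hu, hnu, _⟩, _⟩ := h
    apply hnu
    apply Nl.cob
    rw [nl_zero_iff]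
    obtain ⟨ε, hε, hc⟩ := hu
    have h1 := hc [w] rfl ⟨by simpa using hw, by simpa using hε⟩
    simpa [d_cons] using h1
  · exact hr

/-- TARGET 2. -/
theorem SL.two {w : Ω} {X : Set Ω} {r : ℕ} (h : SL w X r) (hw : w ∈ X) (x y : Ω) (hx : x ∈ X)
    (hy : y ∈ X) (hxw : x ≠ w) (hyw : y ≠ w) (hxy : x ≠ y) : 2 ≤ r := by
  have hr1 : 1 ≤ r := h.pos hw
  rcases Nat.lt_or_ge r 2 with hr | hr
  · exfalso
    have hr' : r = 1 := by omega
    subst hr'
    obtain ⟨_, _, ⟨u, hu, hnu, _⟩, hloc⟩ := h
    have key : ∀ p ∈ X, p ≠ w → ∀ a ∈ X, ∀ b ∈ X, a ≠ p → b ≠ p → u [a] = u [b] := by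
      intro p hp hpw a ha b hb hap hbp
      have hopen : IsOpen ({a, b}ᶜ : Set Ω) :=
        (Set.toFinite ({a, b} : Set Ω)).isClosed.isOpen_compl
      have hmem : p ∈ ({a, b}ᶜ : Set Ω) := by
        simp [hap.symm, hbp.symm]
      obtain ⟨W', _, _, _, hW'⟩ := hloc p hp hpw _ hopen hmem
      obtain ⟨v, ε, hε, hv⟩ := hW' 1 u (hu.mono Set.diff_subset)
      have h1 : ∀ c ∈ X, (c = a ∨ c = b) → u [c] = v [] := by
        intro c hc hcab
        have h2 := hv [c] rfl ⟨by
          intro z hz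
          rw [List.mem_singleton] at hz
          subst hz
          refine ⟨hc, ?_⟩
          rw [Set.mem_compl_iff, not_not]
          rcases hcab with rfl | rfl
          · simp
          · simp, by simpa using hε⟩
        have h3 : u [c] - d v [c] = 0 := h2
        rw [d_cons, d_nil, sub_zero] at h3
        exact sub_eq_zero.1 h3
      rw [h1 a ha (Or.inl rfl), h1 b hb (Or.inr rfl)]
    apply hnu
    refine ⟨fun _ => u [w], 1, one_pos, ?_⟩
    intro l hl hs
    obtain ⟨a, rfl⟩ := List.length_eq_one_iff.1 hl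
    have ha : a ∈ X := hs.1 a (by simp)
    have h4 : u [a] = u [w] := by
      by_cases hax : a = x
      · subst hax
        exact key y hy hyw a ha w hw hxy hyw.symm
      · exact key x hx hxw a ha w hw hax hxw.symm
    rw [Pi.sub_apply, d_cons, d_nil, sub_zero, h4, sub_self]
  · exact hr

end

end Pool.Agent.Helper554.Smith
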