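import Pool.Agent.Helper554.Smith.Step
import Pool.Agent.Helper554.Smith.Base
import Pool.Agent.Helper554.Smith.Fd
import Pool.Agent.Helper554.Smith.SLpos

set_option autoImplicit false

namespace Pool.Agent.Helper554.Smith

open Set

/-- **Smith theory bound.** A continuous map `S` of `ℝⁿ` with `S^(3^k) = id` that has, for every
`j < k`, a point of exact period `3^(j+1)`, forces `2k ≤ n`, and `2k + 1 ≤ n` if it has two distinct
fixed points. -/
theorem smith_bound (n k : ℕ) (S : (Fin n → ℝ) → (Fin n → ℝ)) (hS : Continuous S)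
    (hk : ∀ x, S^[3 ^ k] x = x)
    (hper : ∀ j < k, ∃ x, S^[3 ^ (j + 1)] x = x ∧ S^[3 ^ j] x ≠ x) :
    2 * k ≤ n ∧ ((∃ x y, x ≠ y ∧ S x = x ∧ S y = y) → 2 * k + 1 ≤ n) := by
  classical
  -- S is a homeomorphism
  have hpos : 0 < 3 ^ k := by positivity
  obtain ⟨M, hM⟩ : ∃ M, 3 ^ k = M + 1 := ⟨3 ^ k - 1, by omega⟩
  let S' : (Fin n → ℝ) ≃ₜ (Fin n → ℝ) :=
    { toFun := S
      invFun := S^[M]
      left_inv := fun x => by
        have := hk x
        rw [hM, Function.iterate_succ_apply] at this
        exact this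
      right_inv := fun x => by
        have := hk x
        rw [hM, Function.iterate_succ_apply'] at this
        exact this
      continuous_toFun := hS
      continuous_invFun := hS.iterate M }
  let e : OnePoint (Fin n → ℝ) ≃ₜ Metric.sphere (0 : EuclideanSpace ℝ (Fin (n + 1))) 1 :=
    onePointEquivSphereOfFinrankEq (by simp)
  let w : Metric.sphere (0 : EuclideanSpace ℝ (Fin (n + 1))) 1 := e OnePoint.infty
  let Q : OnePoint (Fin n → ℝ) ≃ₜ OnePoint (Fin n → ℝ) := S'.onePointCongr
  let h : Metric.sphere (0 : EuclideanSpace ℝ (Fin (n + 1))) 1 →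
    Metric.sphere (0 : EuclideanSpace ℝ (Fin (n + 1))) 1 := fun y => e (Q (e.symm y))
  have hcont : Continuous h := e.continuous.comp (Q.continuous.comp e.symm.continuous)
  have hhw : h w = w := by
    simp only [h, w, Homeomorph.symm_apply_apply]
    rfl
  have hhx : ∀ x : Fin n → ℝ, h (e (x : OnePoint (Fin n → ℝ))) = e (S x : OnePoint (Fin n → ℝ)) := by
    intro x
    simp only [h, Homeomorph.symm_apply_apply]
    rfl
  have hitw : ∀ j, h^[j] w = w := fun j => Function.iterate_fixed hhw j
  have hitx : ∀ j (x : Fin n → ℝ),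
      h^[j] (e (x : OnePoint (Fin n → ℝ))) = e (S^[j] x : OnePoint (Fin n → ℝ)) := by
    intro j
    induction j with
    | zero => intro x; rfl
    | succ j ih =>
      intro x
      rw [Function.iterate_succ_apply, hhx, ih, Function.iterate_succ_apply]
  have heinj : ∀ x y : Fin n → ℝ, e (x : OnePoint (Fin n → ℝ)) = e (y : OnePoint (Fin n → ℝ)) →
      x = y := fun x y hxy => OnePoint.coe_injective (e.injective hxy)
  have hcases : ∀ y, y = w ∨ ∃ x : Fin n → ℝ, y = e (x : OnePoint (Fin n → ℝ)) := by
    intro y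
    obtain ⟨z, rfl⟩ := e.surjective y
    induction z using OnePoint.rec with
    | infty => exact Or.inl rfl
    | coe x => exact Or.inr ⟨x, rfl⟩
  have hall : ∀ y, h^[3 ^ k] y = y := by
    intro y
    rcases hcases y with rfl | ⟨x, rfl⟩
    · exact hitw _
    · rw [hitx, hk]
  -- finite dimensionality
  have hN : ∀ Y : Set (Metric.sphere (0 : EuclideanSpace ℝ (Fin (n + 1))) 1), IsClosed Y →
      ∀ q, n + 1 + 2 ≤ q → HV Y q := by
    intro Y hY q hq
    refine fd (Ω := Metric.sphere (0 : EuclideanSpace ℝ (Fin (n + 1))) 1) (n + 1)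
      (fun i y => y.1 i) ?_ Y hY ?_ q hq
    · intro i
      fun_prop
    · intro x _ y _ hxy
      apply Subtype.ext
      ext i
      exact hxy i
  -- the chain
  have chain : ∀ i, i ≤ k → ∃ r, r + 2 * i ≤ n + 1 ∧ SL w {y | h^[3 ^ (k - i)] y = y} r := by
    intro i
    induction i with
    | zero =>
      intro _
      refine ⟨n + 1, by omega, ?_⟩
      have : {y | h^[3 ^ (k - 0)] y = y} = univ := by
        ext y
        simpa using hall y
      rw [this]
      exact base n e
    | succ i ih =>
      intro hi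
      obtain ⟨r, hr, hSL⟩ := ih (by omega)
      obtain ⟨j, hj⟩ : ∃ j, k - i = j + 1 := ⟨k - i - 1, by omega⟩
      have hj' : k - (i + 1) = j := by omega
      rw [hj] at hSL
      rw [hj']
      have h3 : ∀ y, h^[3 ^ j] (h^[3 ^ j] (h^[3 ^ j] y)) = h^[3 ^ (j + 1)] y := by
        intro y
        rw [← Function.iterate_add_apply, ← Function.iterate_add_apply,
          show 3 ^ j + 3 ^ j + 3 ^ j = 3 ^ (j + 1) by ring]
      obtain ⟨r', hr', hSL'⟩ := smith_step w {y | h^[3 ^ (j + 1)] y = y} r (n + 1 + 2) hN hSL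
        (h^[3 ^ j]) (hcont.iterate _)
        (by
          intro y hy
          change h^[3 ^ (j + 1)] (h^[3 ^ j] y) = h^[3 ^ j] y
          rw [← Function.iterate_add_apply, Nat.add_comm (3 ^ (j + 1)) (3 ^ j),
            Function.iterate_add_apply]
          exact congrArg _ hy)
        (by
          intro y hy
          rw [h3]
          exact hy)
        (hitw _)
        (by
          obtain ⟨x, hx1, hx2⟩ := hper j (by omega)
          refine ⟨e (x : OnePoint (Fin n → ℝ)), ?_, ?_⟩
          · change h^[3 ^ (j + 1)] _ = _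
            rw [hitx, hx1]
          · rw [hitx]
            intro hh
            exact hx2 (heinj _ _ hh))
      refine ⟨r', by omega, ?_⟩
      have : {y | y ∈ {y | h^[3 ^ (j + 1)] y = y} ∧ h^[3 ^ j] y = y} = {y | h^[3 ^ j] y = y} := by
        ext y
        refine ⟨fun hy => hy.2, fun hy => ⟨?_, hy⟩⟩
        change h^[3 ^ (j + 1)] y = y
        have hy' : h^[3 ^ j] y = y := hy
        rw [← h3, hy', hy', hy']
      rw [← this]
      exact hSL'
  obtain ⟨r, hr, hSL⟩ := chain k le_rfl
  have hr1 := hSL.pos (by change h^[3 ^ (k - k)] w = w; exact hitw _)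
  refine ⟨by omega, ?_⟩
  rintro ⟨x, y, hxy, hx, hy⟩
  have hr2 := hSL.two (by change h^[3 ^ (k - k)] w = w; exact hitw _)
    (e (x : OnePoint (Fin n → ℝ))) (e (y : OnePoint (Fin n → ℝ)))
    (by change h^[3 ^ (k - k)] _ = _; rw [hitx, Function.iterate_fixed hx])
    (by change h^[3 ^ (k - k)] _ = _; rw [hitx, Function.iterate_fixed hy])
    (fun hh => OnePoint.coe_ne_infty x (e.injective hh))
    (fun hh => OnePoint.coe_ne_infty y (e.injective hh))
    (fun hh => hxy (heinj _ _ hh))
  omega

end Pool.Agent.Helper554.Smith
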