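import Pool.Agent.Helper554.Smith.Defs
import Pool.Agent.Helper554.Smith.Alg2

set_option autoImplicit false

namespace Pool.Agent.Helper554.Smith

open Set

universe u

/-- the fixed set. -/
def Fx {Ω : Type*} (X : Set Ω) (h : Ω → Ω) : Set Ω := {x ∈ X | h x = x}

section
variable {Ω : Type u} [MetricSpace Ω] [CompactSpace Ω] {X : Set Ω} {h : Ω → Ω}

theorem z3 (t : ZMod 3) : t = 0 ∨ t = 1 ∨ t = 2 := by revert t; decide
theorem z3a : (0 : ZMod 3) + 1 = 1 := by decide
theorem z3b : (1 : ZMod 3) + 1 = 2 := by decide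
theorem z3c : (2 : ZMod 3) + 1 = 0 := by decide
theorem z3d : (1 : ZMod 3) ≠ 0 := by decide
theorem z3e : (2 : ZMod 3) ≠ 0 := by decide
theorem z3f : (2 : ZMod 3) ≠ 1 := by decide
theorem z3g : (0 : ZMod 3) ≠ 1 := by decide

theorem exists_lam (hm : ∀ x ∈ X, h x ∈ X) (h3 : ∀ x ∈ X, h (h (h x)) = x) :
    ∃ lam : Ω → ZMod 3, ∀ x ∈ X, h x ≠ x → lam (h x) = lam x + 1 := by
  classical
  let S : Ω → Set Ω := fun x => {x, h x, h (h x)}
  have hSne : ∀ x, (S x).Nonempty := fun x => ⟨x, by simp [S]⟩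
  let g : Set Ω → Ω → Ω := fun s x => if hs : s.Nonempty then hs.some else x
  -- representative, depends only on the orbit
  let rep : Ω → Ω := fun x => if hs : (S x).Nonempty then hs.some else x
  have hrep : ∀ x, rep x ∈ S x := by
    intro x
    simp only [rep, dif_pos (hSne x)]
    exact (hSne x).some_mem
  have hrep' : ∀ x ∈ X, rep (h x) = rep x := by
    intro x hx
    have hS : S (h x) = S x := by
      simp only [S, h3 x hx]
      ext y
      simp only [mem_insert_iff, mem_singleton_iff]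
      tauto
    simp only [rep]
    simp only [hS]
    rw [dif_pos (hSne x), dif_pos (hSne x)]
  refine ⟨fun x => if rep x = x then 0 else if x = h (rep x) then 1 else 2, ?_⟩
  intro x hx hne
  have h2 : h (h x) ≠ x := by
    intro hh
    apply hne
    have := h3 x hx
    rw [hh] at this
    exact this
  have h4 : h x ≠ h (h x) := by
    intro hh
    have e1 := h3 x hx
    have e2 := h3 (h x) (hm x hx)
    -- h (h x) = h x → h (h (h x)) = h (h x)
    have e3 : h (h (h x)) = h x := by rw [← hh, ← hh]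
    rw [e1] at e3
    exact hne e3.symm
  have hr := hrep x
  simp only [S, mem_insert_iff, mem_singleton_iff] at hr
  simp only [hrep' x hx]
  rcases hr with hr | hr | hr
  · rw [hr]
    rw [if_neg (Ne.symm hne), if_pos rfl, if_pos rfl]
    simp
  · rw [hr]
    rw [if_pos rfl, if_neg hne, if_neg (Ne.symm h2)]
    rfl
  · rw [hr, h3 x hx]
    rw [if_neg (Ne.symm h4), if_neg hne, if_neg h2, if_pos rfl]
    rfl

/-- the label of a list: the label of its first non-fixed element. -/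
noncomputable def lamL (h : Ω → Ω) (lam : Ω → ZMod 3) : List Ω → ZMod 3
  | [] => 0
  | x :: l => by
    classical exact if h x = x then lamL h lam l else lam x

omit [MetricSpace Ω] [CompactSpace Ω] in
theorem hh_iff (h3 : ∀ x ∈ X, h (h (h x)) = x) {x : Ω} (hx : x ∈ X) : h (h x) = h x ↔ h x = x := by
  constructor
  · intro hh
    have e1 := h3 x hx
    rw [hh, hh] at e1
    exact e1
  · intro hh
    rw [hh, hh]

omit [MetricSpace Ω] [CompactSpace Ω] in
theorem lamL_map {lam : Ω → ZMod 3} (h3 : ∀ x ∈ X, h (h (h x)) = x)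
    (hlam : ∀ x ∈ X, h x ≠ x → lam (h x) = lam x + 1) (l : List Ω) (hl : ∀ x ∈ l, x ∈ X)
    (hnf : ¬ ∀ x ∈ l, h x = x) : lamL h lam (l.map h) = lamL h lam l + 1 := by
  classical
  induction l with
  | nil => simp at hnf
  | cons x l ih =>
    have hx : x ∈ X := hl x (by simp)
    simp only [List.map_cons, lamL]
    by_cases hxf : h x = x
    · rw [if_pos ((hh_iff h3 hx).2 hxf), if_pos hxf]
      apply ih (fun y hy => hl y (List.mem_cons_of_mem _ hy))
      intro hall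
      apply hnf
      intro y hy
      rcases List.mem_cons.1 hy with rfl | hy
      · exact hxf
      · exact hall y hy
    · rw [if_neg (fun hc => hxf ((hh_iff h3 hx).1 hc)), if_neg hxf]
      exact hlam x hx hxf

omit [MetricSpace Ω] [CompactSpace Ω] in
theorem map_mem (hm : ∀ x ∈ X, h x ∈ X) {l : List Ω} (hl : ∀ x ∈ l, x ∈ X) :
    ∀ x ∈ l.map h, x ∈ X := by
  intro x hx
  obtain ⟨y, hy, rfl⟩ := List.mem_map.1 hx
  exact hm y (hl y hy)

omit [MetricSpace Ω] [CompactSpace Ω] in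
theorem map3 (h3 : ∀ x ∈ X, h (h (h x)) = x) {l : List Ω} (hl : ∀ x ∈ l, x ∈ X) :
    ((l.map h).map h).map h = l := by
  rw [List.map_map, List.map_map]
  conv_rhs => rw [← List.map_id l]
  apply List.map_congr_left
  intro x hx
  exact h3 x (hl x hx)

omit [MetricSpace Ω] [CompactSpace Ω] in
theorem map_fix_iff (h3 : ∀ x ∈ X, h (h (h x)) = x) {l : List Ω} (hl : ∀ x ∈ l, x ∈ X) :
    (∀ x ∈ l.map h, h x = x) ↔ ∀ x ∈ l, h x = x := by
  constructor
  · intro H x hx
    exact (hh_iff h3 (hl x hx)).1 (H _ (List.mem_map.2 ⟨x, hx, rfl⟩))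
  · intro H x hx
    obtain ⟨y, hy, rfl⟩ := List.mem_map.1 hx
    exact (hh_iff h3 (hl y hy)).2 (H y hy)

omit [MetricSpace Ω] [CompactSpace Ω] in
theorem map_fix {l : List Ω} (hl : ∀ x ∈ l, h x = x) : l.map h = l := by
  conv_rhs => rw [← List.map_id l]
  exact List.map_congr_left fun x hx => hl x hx

/-- small lists go to small lists. -/
theorem sm_map (hc : Continuous h) (hm : ∀ x ∈ X, h x ∈ X) {ε : ℝ} (hε : 0 < ε) :
    ∃ δ > 0, ∀ l, Sm X δ l → Sm X ε (l.map h) := by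
  have huc : UniformContinuous h := CompactSpace.uniformContinuous_of_continuous hc
  obtain ⟨δ, hδ, H⟩ := Metric.uniformContinuous_iff.1 huc ε hε
  refine ⟨δ, hδ, fun l hl => ⟨map_mem hm hl.1, ?_⟩⟩
  intro x hx y hy
  obtain ⟨x', hx', rfl⟩ := List.mem_map.1 hx
  obtain ⟨y', hy', rfl⟩ := List.mem_map.1 hy
  exact H (hl.2 x' hx' y' hy')

theorem sm_map3 (hc : Continuous h) (hm : ∀ x ∈ X, h x ∈ X) {ε : ℝ} (hε : 0 < ε) :
    ∃ δ > 0, δ ≤ ε ∧ ∀ l, Sm X δ l → Sm X ε l ∧ Sm X ε (l.map h) ∧ Sm X ε ((l.map h).map h) := by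
  obtain ⟨δ, hδ, H⟩ := sm_map (X := X) hc hm hε
  obtain ⟨δ', hδ', H'⟩ := sm_map (X := X) hc hm hδ
  refine ⟨min ε (min δ δ'), lt_min hε (lt_min hδ hδ'), min_le_left _ _, fun l hl => ⟨?_, ?_, ?_⟩⟩
  · exact hl.mono le_rfl (min_le_left _ _)
  · exact H l (hl.mono le_rfl ((min_le_right _ _).trans (min_le_left _ _)))
  · exact H _ (H' l (hl.mono le_rfl ((min_le_right _ _).trans (min_le_right _ _))))

theorem Nl.pb {q : ℕ} {c : List Ω → ZMod 3} (hc : Continuous h) (hm : ∀ x ∈ X, h x ∈ X)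
    (hn : Nl X q c) : Nl X q (pb h c) := by
  obtain ⟨ε, hε, hn⟩ := hn
  obtain ⟨δ, hδ, H⟩ := sm_map (X := X) hc hm hε
  exact ⟨δ, hδ, fun l hl hs => hn _ (by simpa using hl) (H l hs)⟩

omit [CompactSpace Ω] in
theorem Nl.pbF {q : ℕ} {c : List Ω → ZMod 3} (hn : Nl (Fx X h) q c) : Nl (Fx X h) q (Smith.pb h c) := by
  obtain ⟨ε, hε, hn⟩ := hn
  refine ⟨ε, hε, fun l hl hs => ?_⟩
  rw [Smith.pb, map_fix fun x hx => (hs.1 x hx).2]
  exact hn l hl hs

theorem germ_k1 (_hc : Continuous h) (hm : ∀ x ∈ X, h x ∈ X) (h3 : ∀ x ∈ X, h (h (h x)) = x)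
    (q : ℕ) (c : List Ω → ZMod 3) (hF : Nl (Fx X h) q c)
    (hs : Nl X q (c + pb h c + pb h (pb h c))) :
    ∃ b, Nl (Fx X h) q b ∧ Nl X q (c - (b - pb h b)) := by
  classical
  obtain ⟨lam, hlam⟩ := exists_lam hm h3
  let b : List Ω → ZMod 3 := fun l => if (∀ x ∈ l, h x = x) then 0 else
    if lamL h lam l = 0 then 0 else if lamL h lam l = 1 then - c ((l.map h).map h) else c l
  refine ⟨b, ⟨1, one_pos, fun l _ hl => ?_⟩, ?_⟩
  · simp only [b]
    rw [if_pos fun x hx => (hl.1 x hx).2]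
  · obtain ⟨e1, he1, h1⟩ := hF
    obtain ⟨e2, he2, h2⟩ := hs
    refine ⟨min e1 e2, lt_min he1 he2, fun l hlen hl => ?_⟩
    have hlX := hl.1
    have hs2 := h2 l hlen (hl.mono le_rfl (min_le_right _ _))
    simp only [Pi.add_apply, Pi.sub_apply, pb] at hs2 ⊢
    by_cases hf : ∀ x ∈ l, h x = x
    · have hl1 : c l = 0 := by
        apply h1 l hlen
        exact ⟨fun x hx => ⟨hlX x hx, hf x hx⟩, fun x hx y hy =>
          (hl.2 x hx y hy).trans_le (min_le_left _ _)⟩
      rw [map_fix hf, hl1]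
      simp
    · have hf' : ¬ ∀ x ∈ l.map h, h x = x := fun hh => hf ((map_fix_iff h3 hlX).1 hh)
      have hlm := lamL_map h3 hlam l hlX hf
      simp only [b]
      rw [if_neg hf, if_neg hf', hlm, map3 h3 hlX]
      rcases z3 (lamL h lam l) with t | t | t
      · rw [t, z3a, if_pos rfl, if_neg z3d, if_pos rfl]
        simp
      · rw [t, z3b, if_neg z3d, if_pos rfl, if_neg z3e, if_neg z3f]
        linear_combination hs2
      · rw [t, z3c, if_neg z3e, if_neg z3f, if_pos rfl]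
        simp

theorem germ_k2 (hc : Continuous h) (hm : ∀ x ∈ X, h x ∈ X) (h3 : ∀ x ∈ X, h (h (h x)) = x)
    (q : ℕ) (c : List Ω → ZMod 3) (hF : Nl (Fx X h) q c) (hs : Nl X q (pb h c - c)) :
    ∃ b, Nl (Fx X h) q b ∧ Nl X q (c - (b + pb h b + pb h (pb h b))) := by
  classical
  obtain ⟨lam, hlam⟩ := exists_lam hm h3
  let b : List Ω → ZMod 3 := fun l => if (∀ x ∈ l, h x = x) then 0 else
    if lamL h lam l = 0 then c l else 0
  refine ⟨b, ⟨1, one_pos, fun l _ hl => ?_⟩, ?_⟩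
  · simp only [b]
    rw [if_pos fun x hx => (hl.1 x hx).2]
  · obtain ⟨e1, he1, h1⟩ := hF
    obtain ⟨e2, he2, h2⟩ := hs
    obtain ⟨δ, hδ, hδ', H⟩ := sm_map3 (X := X) hc hm he2
    refine ⟨min e1 δ, lt_min he1 hδ, fun l hlen hl => ?_⟩
    have hlX := hl.1
    obtain ⟨s0, s1, s2⟩ := H l (hl.mono le_rfl (min_le_right _ _))
    have hs0 := h2 l hlen s0
    have hs1 := h2 (l.map h) (by simpa using hlen) s1
    have hs2 := h2 ((l.map h).map h) (by simpa using hlen) s2
    simp only [Pi.add_apply, Pi.sub_apply, pb] at hs0 hs1 hs2 ⊢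
    by_cases hf : ∀ x ∈ l, h x = x
    · have hl1 : c l = 0 := by
        apply h1 l hlen
        exact ⟨fun x hx => ⟨hlX x hx, hf x hx⟩, fun x hx y hy =>
          (hl.2 x hx y hy).trans_le (min_le_left _ _)⟩
      rw [map_fix hf, map_fix hf]
      simp only [b]
      rw [if_pos hf, hl1]
      simp
    · have hlX1 := map_mem hm hlX
      have hlX2 := map_mem hm hlX1
      have hf' : ¬ ∀ x ∈ l.map h, h x = x := fun hh => hf ((map_fix_iff h3 hlX).1 hh)
      have hf'' : ¬ ∀ x ∈ (l.map h).map h, h x = x := fun hh => hf' ((map_fix_iff h3 hlX1).1 hh)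
      have hlm := lamL_map h3 hlam l hlX hf
      have hlm' := lamL_map h3 hlam (l.map h) hlX1 hf'
      simp only [b]
      rw [if_neg hf, if_neg hf', if_neg hf'', hlm', hlm]
      rcases z3 (lamL h lam l) with t | t | t
      · rw [t, z3a, z3b, if_pos rfl, if_neg z3d, if_neg z3e]
        simp
      · rw [t, z3b, z3c, if_neg z3d, if_neg z3e, if_pos rfl]
        linear_combination - hs0 - hs1
      · rw [t, z3c, z3a, if_neg z3e, if_pos rfl, if_neg z3d]
        linear_combination - hs0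

/-- extension by zero from the fixed set. -/
noncomputable def ext (F : Set Ω) (c : List Ω → ZMod 3) : List Ω → ZMod 3 := fun l => by
  classical exact if (∀ x ∈ l, x ∈ F) then c l else 0

omit [CompactSpace Ω] in
theorem Nl.ext {q : ℕ} {F : Set Ω} {c : List Ω → ZMod 3} (hn : Nl F q c) : Nl X q (ext F c) := by
  classical
  obtain ⟨ε, hε, hn⟩ := hn
  refine ⟨ε, hε, fun l hl hs => ?_⟩
  unfold Smith.ext
  split_ifs with hF
  · exact hn l hl ⟨hF, hs.2⟩
  · rfl

/-- The submodule of null cochains. -/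
def NS {Ω : Type u} [MetricSpace Ω] (X : Set Ω) (q : ℕ) : Submodule (ZMod 3) (List Ω → ZMod 3) where
  carrier := {c | Nl X q c}
  add_mem' := Nl.add
  zero_mem' := Nl.zero
  smul_mem' := fun a _ hc => Nl.smul a hc

omit [CompactSpace Ω] in
theorem mem_NS {q : ℕ} {c : List Ω → ZMod 3} : c ∈ NS X q ↔ Nl X q c := Iff.rfl

def dL {Ω : Type u} : (List Ω → ZMod 3) →ₗ[ZMod 3] (List Ω → ZMod 3) where
  toFun := d
  map_add' := d_add
  map_smul' := d_smul

def pbL {Ω : Type u} (h : Ω → Ω) : (List Ω → ZMod 3) →ₗ[ZMod 3] (List Ω → ZMod 3) where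
  toFun := pb h
  map_add' := fun _ _ => rfl
  map_smul' := fun _ _ => rfl

noncomputable def extL {Ω : Type u} (F : Set Ω) :
    (List Ω → ZMod 3) →ₗ[ZMod 3] (List Ω → ZMod 3) where
  toFun := ext F
  map_add' := fun a b => by
    classical
    funext l
    simp only [ext, Pi.add_apply]
    split_ifs <;> simp
  map_smul' := fun a b => by
    classical
    funext l
    simp only [ext, Pi.smul_apply, RingHom.id_apply]
    split_ifs <;> simp

omit [CompactSpace Ω] in
theorem mk_eq_iff {q : ℕ} {a b : List Ω → ZMod 3} :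
    (NS X q).mkQ a = (NS X q).mkQ b ↔ Nl X q (a - b) := by
  rw [Submodule.mkQ_apply, Submodule.mkQ_apply, Submodule.Quotient.eq]
  rfl

omit [CompactSpace Ω] in
theorem mk_eq_zero {q : ℕ} {a : List Ω → ZMod 3} : (NS X q).mkQ a = 0 ↔ Nl X q a := by
  rw [Submodule.mkQ_apply, Submodule.Quotient.mk_eq_zero]
  rfl

/-- The Smith data of a closed set with a period-3 homeomorphism. -/
noncomputable def sd (X : Set Ω) (h : Ω → Ω) (hc : Continuous h) (hm : ∀ x ∈ X, h x ∈ X)
    (h3 : ∀ x ∈ X, h (h (h x)) = x) : SD.{u} where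
  C q := (List Ω → ZMod 3) ⧸ NS X q
  E q := (List Ω → ZMod 3) ⧸ NS (Fx X h) q
  dC q := (NS X q).mapQ (NS X (q + 1)) dL (fun _ hc => Nl.d hc)
  dE q := (NS (Fx X h) q).mapQ (NS (Fx X h) (q + 1)) dL (fun _ hc => Nl.d hc)
  h q := (NS X q).mapQ (NS X q) (pbL h) (fun _ hn => Nl.pb hc hm hn)
  r q := (NS X q).mapQ (NS (Fx X h) q) LinearMap.id (fun _ hn => Nl.mono hn fun _ hx => hx.1)
  x q := (NS (Fx X h) q).mapQ (NS X q) (extL (Fx X h)) (fun _ hn => Nl.ext hn)
  dd q c := by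
    obtain ⟨c, rfl⟩ := Submodule.mkQ_surjective _ c
    change (NS X (q + 1 + 1)).mkQ (d (d c)) = 0
    rw [d_d]
    exact map_zero _
  ddE q c := by
    obtain ⟨c, rfl⟩ := Submodule.mkQ_surjective _ c
    change (NS (Fx X h) (q + 1 + 1)).mkQ (d (d c)) = 0
    rw [d_d]
    exact map_zero _
  hd q c := by
    obtain ⟨c, rfl⟩ := Submodule.mkQ_surjective _ c
    change (NS X (q + 1)).mkQ (pb h (d c)) = (NS X (q + 1)).mkQ (d (pb h c))
    rw [d_pb]
  h3 q c := by
    obtain ⟨c, rfl⟩ := Submodule.mkQ_surjective _ c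
    change (NS X q).mkQ (pb h (pb h (pb h c))) = (NS X q).mkQ c
    rw [mk_eq_iff]
    refine ⟨1, one_pos, fun l _ hl => ?_⟩
    simp only [Pi.sub_apply, pb]
    rw [map3 h3 hl.1, sub_self]
  rd q c := by
    obtain ⟨c, rfl⟩ := Submodule.mkQ_surjective _ c
    rfl
  rh q c := by
    obtain ⟨c, rfl⟩ := Submodule.mkQ_surjective _ c
    change (NS (Fx X h) q).mkQ (pb h c) = (NS (Fx X h) q).mkQ c
    rw [mk_eq_iff]
    refine ⟨1, one_pos, fun l _ hl => ?_⟩
    simp only [Pi.sub_apply, pb]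
    rw [map_fix fun x hx => (hl.1 x hx).2, sub_self]
  rx q c := by
    classical
    obtain ⟨c, rfl⟩ := Submodule.mkQ_surjective _ c
    change (NS (Fx X h) q).mkQ (ext (Fx X h) c) = (NS (Fx X h) q).mkQ c
    rw [mk_eq_iff]
    refine ⟨1, one_pos, fun l _ hl => ?_⟩
    simp only [Pi.sub_apply, ext]
    rw [if_pos hl.1, sub_self]
  hx q c := by
    classical
    obtain ⟨c, rfl⟩ := Submodule.mkQ_surjective _ c
    change (NS X q).mkQ (pb h (ext (Fx X h) c)) = (NS X q).mkQ (ext (Fx X h) c)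
    rw [mk_eq_iff]
    refine ⟨1, one_pos, fun l _ hl => ?_⟩
    simp only [Pi.sub_apply, pb, ext]
    have hiff : (∀ x ∈ l.map h, x ∈ Fx X h) ↔ ∀ x ∈ l, x ∈ Fx X h := by
      constructor
      · intro H x hx
        exact ⟨hl.1 x hx, (hh_iff h3 (hl.1 x hx)).1 (H _ (List.mem_map.2 ⟨x, hx, rfl⟩)).2⟩
      · intro H
        rw [map_fix fun x hx => (H x hx).2]
        exact H
    by_cases hF : ∀ x ∈ l, x ∈ Fx X h
    · rw [if_pos (hiff.2 hF), if_pos hF, map_fix fun x hx => (hF x hx).2, sub_self]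
    · rw [if_neg (fun hh => hF (hiff.1 hh)), if_neg hF, sub_self]
  k1 q c hr hs := by
    obtain ⟨c, rfl⟩ := Submodule.mkQ_surjective _ c
    change (NS (Fx X h) q).mkQ c = 0 at hr
    change (NS X q).mkQ (c + pb h c + pb h (pb h c)) = 0 at hs
    rw [mk_eq_zero] at hr hs
    obtain ⟨b, hb1, hb2⟩ := germ_k1 hc hm h3 q c hr hs
    refine ⟨(NS X q).mkQ b, ?_, ?_⟩
    · change (NS (Fx X h) q).mkQ b = 0
      rwa [mk_eq_zero]
    · change (NS X q).mkQ c = (NS X q).mkQ (b - pb h b)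
      rwa [mk_eq_iff]
  k2 q c hr hs := by
    obtain ⟨c, rfl⟩ := Submodule.mkQ_surjective _ c
    change (NS (Fx X h) q).mkQ c = 0 at hr
    change (NS X q).mkQ (pb h c) = (NS X q).mkQ c at hs
    rw [mk_eq_zero] at hr
    rw [mk_eq_iff] at hs
    obtain ⟨b, hb1, hb2⟩ := germ_k2 hc hm h3 q c hr hs
    refine ⟨(NS X q).mkQ b, ?_, ?_⟩
    · change (NS (Fx X h) q).mkQ b = 0
      rwa [mk_eq_zero]
    · change (NS X q).mkQ c = (NS X q).mkQ (b + pb h b + pb h (pb h b))
      rwa [mk_eq_iff]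
  m0 c hr := by
    obtain ⟨c, rfl⟩ := Submodule.mkQ_surjective _ c
    change (NS (Fx X h) 0).mkQ c = 0 at hr
    change (NS X 0).mkQ c = 0
    rw [mk_eq_zero, nl_zero_iff] at hr ⊢
    exact hr

end

end Pool.Agent.Helper554.Smith
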