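import Pool.Agent.Helper554.Smith.Final

set_option autoImplicit false

namespace Pool.Agent.Helper554.Smith

open Set

/-- the rotation factor `exp(2πi/3^(i+1))`. -/
noncomputable def zeta (i : ℕ) : ℂ := Complex.exp (2 * Real.pi * Complex.I / ((3 ^ (i + 1) : ℕ) : ℂ))

theorem zeta_prim (i : ℕ) : IsPrimitiveRoot (zeta i) (3 ^ (i + 1)) :=
  Complex.isPrimitiveRoot_exp _ (by positivity)

theorem zeta_pow_eq_one {i j : ℕ} (h : i + 1 ≤ j) : zeta i ^ 3 ^ j = 1 := by
  rw [(zeta_prim i).pow_eq_one_iff_dvd]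
  exact pow_dvd_pow 3 h

theorem zeta_pow_ne_one (i : ℕ) : zeta i ^ 3 ^ i ≠ 1 := by
  rw [Ne, (zeta_prim i).pow_eq_one_iff_dvd]
  intro h
  have := Nat.le_of_dvd (by positivity) h
  have h2 : 3 ^ i < 3 ^ (i + 1) := Nat.pow_lt_pow_right (by norm_num) (by omega)
  omega

/-- the model map on `ℂ^k × ℝ^e`. -/
noncomputable def TV (k e : ℕ) (v : (Fin k → ℂ) × (Fin e → ℝ)) : (Fin k → ℂ) × (Fin e → ℝ) :=
  (fun i : Fin k => zeta i * v.1 i, v.2)

theorem TV_iter (k e : ℕ) (j : ℕ) (v : (Fin k → ℂ) × (Fin e → ℝ)) :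
    (TV k e)^[j] v = (fun i : Fin k => zeta i ^ j * v.1 i, v.2) := by
  induction j with
  | zero => simp
  | succ j ih =>
    rw [Function.iterate_succ_apply', ih]
    simp only [TV]
    congr 1
    funext i
    rw [pow_succ]
    ring

theorem TV_cont (k e : ℕ) : Continuous (TV k e) := by
  unfold TV
  fun_prop

/-- There is a continuous `T` on `ℝ^m`, of order `3^k`, with points of all periods `3^(j+1)`. -/
theorem exists_T (m k e : ℕ) (hm : m = 2 * k + e) :
    ∃ T : (Fin m → ℝ) → (Fin m → ℝ), Continuous T ∧ (∀ x, T^[3 ^ k] x = x) ∧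
      (∀ j < k, ∃ x, T^[3 ^ (j + 1)] x = x ∧ T^[3 ^ j] x ≠ x) ∧
      (1 ≤ e → ∃ x y, x ≠ y ∧ T x = x ∧ T y = y) := by
  classical
  have hfin : Module.finrank ℝ ((Fin k → ℂ) × (Fin e → ℝ)) = Module.finrank ℝ (Fin m → ℝ) := by
    rw [Module.finrank_prod, Module.finrank_pi_fintype, Module.finrank_pi, Module.finrank_pi]
    simp [Complex.finrank_real_complex, hm]
    ring
  let E : ((Fin k → ℂ) × (Fin e → ℝ)) ≃L[ℝ] (Fin m → ℝ) := ContinuousLinearEquiv.ofFinrankEq hfin
  let T : (Fin m → ℝ) → (Fin m → ℝ) := fun x => E (TV k e (E.symm x))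
  have hit : ∀ j v, T^[j] (E v) = E ((TV k e)^[j] v) := by
    intro j
    induction j with
    | zero => intro v; rfl
    | succ j ih =>
      intro v
      rw [Function.iterate_succ_apply, Function.iterate_succ_apply]
      have : T (E v) = E (TV k e v) := by simp [T]
      rw [this, ih]
  refine ⟨T, E.continuous.comp ((TV_cont k e).comp E.symm.continuous), ?_, ?_, ?_⟩
  · intro x
    obtain ⟨v, rfl⟩ := E.surjective x
    rw [hit, TV_iter]
    congr 1
    ext i
    · simp only
      rw [zeta_pow_eq_one (by omega), one_mul]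
    · rfl
  · intro j hj
    refine ⟨E (Pi.single ⟨j, hj⟩ 1, 0), ?_, ?_⟩
    · rw [hit, TV_iter]
      congr 1
      ext i
      · simp only
        by_cases hi : i = ⟨j, hj⟩
        · subst hi
          rw [zeta_pow_eq_one le_rfl, one_mul]
        · rw [Pi.single_eq_of_ne hi, mul_zero]
      · rfl
    · rw [hit, TV_iter]
      intro hh
      have := E.injective hh
      have h1 := congrFun (congrArg Prod.fst this) ⟨j, hj⟩
      simp only [Pi.single_eq_same, mul_one] at h1
      exact zeta_pow_ne_one j h1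
  · intro he
    refine ⟨E (0, 0), E (0, fun _ => 1), ?_, ?_, ?_⟩
    · intro hh
      have := E.injective hh
      have h1 := congrFun (congrArg Prod.snd this) ⟨0, he⟩
      simp at h1
    · have := hit 1 (0, 0)
      rw [TV_iter] at this
      simp only [Function.iterate_one] at this
      rw [this]
      congr 1
      ext i <;> simp
    · have := hit 1 (0, fun _ => 1)
      rw [TV_iter] at this
      simp only [Function.iterate_one] at this
      rw [this]
      congr 1
      ext i <;> simp

theorem main (m : ℕ) (_hm : 1 < m) :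
    ∃ T : (Fin m → ℝ) → (Fin m → ℝ),
      Continuous T ∧ Function.Injective T ∧
      ∀ n : ℕ, n < m →
        ∀ U : (Fin m → ℝ) ≃ (Fin n → ℝ), ¬ Continuous (U ∘ T ∘ U.symm) := by
  obtain ⟨T, hT, hk, hper, hfix⟩ := exists_T m (m / 2) (m % 2) (by omega)
  refine ⟨T, hT, ?_, ?_⟩
  · obtain ⟨M, hM⟩ : ∃ M, 3 ^ (m / 2) = M + 1 := ⟨3 ^ (m / 2) - 1, by
      have : 0 < 3 ^ (m / 2) := by positivity
      omega⟩
    intro x y hxy
    have h1 := hk x
    have h2 := hk y
    rw [hM, Function.iterate_succ_apply] at h1 h2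
    rw [← h1, ← h2, hxy]
  · intro n hn U hU
    have hit : ∀ j x, (U ∘ T ∘ U.symm)^[j] (U x) = U (T^[j] x) := by
      intro j
      induction j with
      | zero => intro x; rfl
      | succ j ih =>
        intro x
        rw [Function.iterate_succ_apply, Function.iterate_succ_apply]
        have : (U ∘ T ∘ U.symm) (U x) = U (T x) := by simp
        rw [this, ih]
    have hb := smith_bound n (m / 2) (U ∘ T ∘ U.symm) hU
      (by
        intro y
        obtain ⟨x, rfl⟩ := U.surjective y
        rw [hit, hk])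
      (by
        intro j hj
        obtain ⟨x, h1, h2⟩ := hper j hj
        refine ⟨U x, by rw [hit, h1], ?_⟩
        rw [hit]
        exact fun hh => h2 (U.injective hh))
    rcases Nat.mod_two_eq_zero_or_one m with h0 | h1
    · have := hb.1
      omega
    · obtain ⟨x, y, hxy, hx, hy⟩ := hfix (by omega)
      have := hb.2 ⟨U x, U y, fun hh => hxy (U.injective hh), by simp [hx], by simp [hy]⟩
      omega

end Pool.Agent.Helper554.Smith
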