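import Pool.Agent.Helper554.Smith.Defs

set_option autoImplicit false

namespace Pool.Agent.Helper554.Smith.SFd

open Set


section aux373

set_option linter.unusedSectionVars false

variable {Ω : Type*} [MetricSpace Ω]

/-- germ filter on lists of length `q`. -/
def Gf (Ω : Type*) [MetricSpace Ω] (q : ℕ) : Filter (List Ω) where
  sets := {s | ∃ ε > 0, ∀ l : List Ω, l.length = q → Sm univ ε l → l ∈ s}
  univ_sets := ⟨1, one_pos, fun _ _ _ => trivial⟩
  sets_of_superset := by
    rintro s t ⟨ε, hε, h⟩ hst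
    exact ⟨ε, hε, fun l hl hs => hst (h l hl hs)⟩
  inter_sets := by
    rintro s t ⟨ε, hε, h⟩ ⟨η, hη, k⟩
    exact ⟨min ε η, lt_min hε hη, fun l hl hs =>
      ⟨h l hl (hs.mono subset_rfl (min_le_left _ _)),
        k l hl (hs.mono subset_rfl (min_le_right _ _))⟩⟩

theorem ev_iff {q : ℕ} {p : List Ω → Prop} :
    (∀ᶠ l in Gf Ω q, p l) ↔ ∃ ε > 0, ∀ l : List Ω, l.length = q → Sm univ ε l → p l := Iff.rfl

theorem nl_iff {K : Set Ω} {q : ℕ} {c : List Ω → ZMod 3} :
    Nl K q c ↔ ∀ᶠ l in Gf Ω q, (∀ x ∈ l, x ∈ K) → c l = 0 := by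
  rw [ev_iff]
  constructor
  · rintro ⟨ε, hε, h⟩
    exact ⟨ε, hε, fun l hl hs hK => h l hl ⟨hK, hs.2⟩⟩
  · rintro ⟨ε, hε, h⟩
    exact ⟨ε, hε, fun l hl hs => h l hl ⟨fun x _ => mem_univ x, hs.2⟩ hs.1⟩

theorem nlu_iff {q : ℕ} {c : List Ω → ZMod 3} :
    Nl (univ : Set Ω) q c ↔ ∀ᶠ l in Gf Ω q, c l = 0 := by
  rw [nl_iff]
  simp

theorem ev_len {q : ℕ} : ∀ᶠ l in Gf Ω q, l.length = q := ev_iff.2 ⟨1, one_pos, fun _ h _ => h⟩

theorem ev_face {q : ℕ} {p : List Ω → Prop} (h : ∀ᶠ l in Gf Ω q, p l) :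
    ∀ᶠ l in Gf Ω (q + 1), ∀ l' : List Ω, l'.length + 1 = l.length → l' ⊆ l → p l' := by
  obtain ⟨ε, hε, h⟩ := ev_iff.1 h
  refine ev_iff.2 ⟨ε, hε, fun l hl hs l' hl' hsub => h l' (by omega) (hs.sub hsub)⟩

theorem ev_map {h : Ω → Ω} (hu : UniformContinuous h) {q : ℕ} {p : List Ω → Prop}
    (hp : ∀ᶠ l in Gf Ω q, p l) : ∀ᶠ l in Gf Ω q, p (l.map h) := by
  obtain ⟨ε, hε, hp⟩ := ev_iff.1 hp
  obtain ⟨δ, hδ, hd⟩ := Metric.uniformContinuous_iff.1 hu ε hε
  refine ev_iff.2 ⟨δ, hδ, fun l hl hs => hp _ (by simpa using hl) ⟨fun _ _ => mem_univ _, ?_⟩⟩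
  intro x hx y hy
  obtain ⟨x', hx', rfl⟩ := List.mem_map.1 hx
  obtain ⟨y', hy', rfl⟩ := List.mem_map.1 hy
  exact hd (hs.2 x' hx' y' hy')

theorem nl_pb {h : Ω → Ω} (hu : UniformContinuous h) {K : Set Ω} (hK : ∀ x ∈ K, h x ∈ K) {q : ℕ}
    {c : List Ω → ZMod 3} (hc : Nl K q c) : Nl K q (pb h c) := by
  rw [nl_iff] at hc ⊢
  filter_upwards [ev_map hu hc] with l hl hlK
  apply hl
  intro x hx
  obtain ⟨x', hx', rfl⟩ := List.mem_map.1 hx
  exact hK _ (hlK x' hx')

omit [MetricSpace Ω] in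
theorem z3_cases (i : ZMod 3) : i = 0 ∨ i = 1 ∨ i = 2 := by
  revert i; decide

/-- norm operator -/
def SS (h : Ω → Ω) (c : List Ω → ZMod 3) : List Ω → ZMod 3 := c + pb h c + pb h (pb h c)

/-- difference operator -/
def TT (h : Ω → Ω) (c : List Ω → ZMod 3) : List Ω → ZMod 3 := c - pb h c

theorem pb_add (h : Ω → Ω) (b c : List Ω → ZMod 3) : pb h (b + c) = pb h b + pb h c := rfl
theorem pb_sub (h : Ω → Ω) (b c : List Ω → ZMod 3) : pb h (b - c) = pb h b - pb h c := rfl

theorem map3 {h : Ω → Ω} (h3 : ∀ x, h (h (h x)) = x) (l : List Ω) :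
    ((l.map h).map h).map h = l := by
  rw [List.map_map, List.map_map]
  conv_rhs => rw [← List.map_id l]
  apply List.map_congr_left
  intro x _
  simp [h3]

theorem pb3 {h : Ω → Ω} (h3 : ∀ x, h (h (h x)) = x) (c : List Ω → ZMod 3) :
    pb h (pb h (pb h c)) = c := by
  funext l
  show c (((l.map h).map h).map h) = c l
  rw [map3 h3]

theorem TS {h : Ω → Ω} (h3 : ∀ x, h (h (h x)) = x) (c : List Ω → ZMod 3) :
    TT h (SS h c) = 0 := by
  unfold TT SS
  rw [pb_add, pb_add, pb3 h3]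
  abel

theorem ST {h : Ω → Ω} (h3 : ∀ x, h (h (h x)) = x) (c : List Ω → ZMod 3) :
    SS h (TT h c) = 0 := by
  unfold TT SS
  rw [pb_sub, pb_sub, pb3 h3]
  abel

theorem d_SS (h : Ω → Ω) (c : List Ω → ZMod 3) : d (SS h c) = SS h (d c) := by
  unfold SS
  rw [d_add, d_add, d_pb, d_pb, d_pb]

theorem d_TT (h : Ω → Ω) (c : List Ω → ZMod 3) : d (TT h c) = TT h (d c) := by
  unfold TT
  rw [d_sub, d_pb]

theorem SS_sub (h : Ω → Ω) (b c : List Ω → ZMod 3) : SS h (b - c) = SS h b - SS h c := by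
  unfold SS
  simp only [pb_sub]
  abel

theorem TT_sub (h : Ω → Ω) (b c : List Ω → ZMod 3) : TT h (b - c) = TT h b - TT h c := by
  unfold TT
  simp only [pb_sub]
  abel

theorem nl_SS {h : Ω → Ω} (hu : UniformContinuous h) {K : Set Ω} (hK : ∀ x ∈ K, h x ∈ K) {q : ℕ}
    {c : List Ω → ZMod 3} (hc : Nl K q c) : Nl K q (SS h c) :=
  (hc.add (nl_pb hu hK hc)).add (nl_pb hu hK (nl_pb hu hK hc))

theorem nl_TT {h : Ω → Ω} (hu : UniformContinuous h) {K : Set Ω} (hK : ∀ x ∈ K, h x ∈ K) {q : ℕ}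
    {c : List Ω → ZMod 3} (hc : Nl K q c) : Nl K q (TT h c) :=
  hc.sub (nl_pb hu hK hc)

theorem map_fix {h : Ω → Ω} {l : List Ω} (hl : ∀ x ∈ l, h x = x) : l.map h = l := by
  conv_rhs => rw [← List.map_id l]
  exact List.map_congr_left hl

theorem TT_fix {h : Ω → Ω} {l : List Ω} (hl : ∀ x ∈ l, h x = x) (c : List Ω → ZMod 3) :
    TT h c l = 0 := by
  show c l - c (l.map h) = 0
  rw [map_fix hl, sub_self]

theorem SS_fix {h : Ω → Ω} {l : List Ω} (hl : ∀ x ∈ l, h x = x) (c : List Ω → ZMod 3) :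
    SS h c l = 0 := by
  show c l + c (l.map h) + c ((l.map h).map h) = 0
  rw [map_fix hl, map_fix hl]
  generalize c l = a
  revert a
  decide

open Classical in
/-- the value of `lam` at the first non-fixed point. -/
noncomputable def idx (h : Ω → Ω) (lam : Ω → ZMod 3) : List Ω → Option (ZMod 3)
  | [] => none
  | x :: l => if h x = x then idx h lam l else some (lam x)

theorem idx_none {h : Ω → Ω} {lam : Ω → ZMod 3} {l : List Ω} :
    idx h lam l = none ↔ ∀ x ∈ l, h x = x := by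
  induction l with
  | nil => simp [idx]
  | cons x l ih =>
    unfold idx
    by_cases hx : h x = x
    · simp [hx, ih]
    · simp [hx]

theorem idx_map {h : Ω → Ω} (h3 : ∀ x, h (h (h x)) = x) {lam : Ω → ZMod 3}
    (hlam : ∀ x, h x ≠ x → lam (h x) = lam x + 1) (l : List Ω) :
    idx h lam (l.map h) = (idx h lam l).map (· + 1) := by
  induction l with
  | nil => simp [idx]
  | cons x l ih =>
    rw [List.map_cons]
    unfold idx
    by_cases hx : h x = x
    · have hx' : h (h x) = h x := by rw [hx, hx]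
      simp [hx, ih]
    · have hx' : h (h x) ≠ h x := by
        intro he
        apply hx
        have := h3 x
        rw [he] at this
        rw [he] at this
        exact this
      simp [hx, hx', hlam x hx]

theorem idx_const {h : Ω → Ω} {lam : Ω → ZMod 3} {l : List Ω} {i : ZMod 3} (hne : l ≠ [])
    (hl : ∀ x ∈ l, h x ≠ x) (hi : ∀ x ∈ l, lam x = i) : idx h lam l = some i := by
  cases l with
  | nil => exact absurd rfl hne
  | cons x l =>
    unfold idx
    rw [if_neg (hl x (by simp)), hi x (by simp)]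

/-- lift. -/
noncomputable def lift (h : Ω → Ω) (lam : Ω → ZMod 3) (B : ZMod 3 → List Ω → ZMod 3) :
    List Ω → ZMod 3 := fun l =>
  match idx h lam l with
  | none => 0
  | some i => B i l

theorem lift_none {h : Ω → Ω} {lam : Ω → ZMod 3} {B : ZMod 3 → List Ω → ZMod 3} {l : List Ω}
    (hl : idx h lam l = none) : lift h lam B l = 0 := by
  unfold lift; rw [hl]

theorem lift_some {h : Ω → Ω} {lam : Ω → ZMod 3} {B : ZMod 3 → List Ω → ZMod 3} {l : List Ω}
    {i : ZMod 3} (hl : idx h lam l = some i) : lift h lam B l = B i l := by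
  unfold lift; rw [hl]

theorem lift_fix {h : Ω → Ω} {lam : Ω → ZMod 3} {B : ZMod 3 → List Ω → ZMod 3} {l : List Ω}
    (hl : ∀ x ∈ l, h x = x) : lift h lam B l = 0 := lift_none (idx_none.2 hl)

theorem nl_lift_fix {h : Ω → Ω} {lam : Ω → ZMod 3} {B : ZMod 3 → List Ω → ZMod 3} {q : ℕ} :
    Nl {x | h x = x} q (lift h lam B) :=
  ⟨1, one_pos, fun _ _ hs => lift_fix hs.1⟩

/-- lift family for the norm -/
def B2 (z : List Ω → ZMod 3) : ZMod 3 → List Ω → ZMod 3 := fun i => if i = 0 then z else 0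

/-- lift family for the difference -/
def B1 (h : Ω → Ω) (z : List Ω → ZMod 3) : ZMod 3 → List Ω → ZMod 3 := fun i =>
  if i = 1 then -(pb h (pb h z)) else if i = 2 then z else 0

theorem K2 {h : Ω → Ω} (hu : UniformContinuous h) (h3 : ∀ x, h (h (h x)) = x) {lam : Ω → ZMod 3}
    (hlam : ∀ x, h x ≠ x → lam (h x) = lam x + 1) {q : ℕ} {z : List Ω → ZMod 3}
    (hF : Nl {x | h x = x} q z) (hT : Nl univ q (TT h z)) :
    Nl univ q (z - SS h (lift h lam (B2 z))) := by
  have hT2 := nl_pb hu (fun x _ => mem_univ _) hT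
  rw [nlu_iff] at hT hT2 ⊢
  rw [nl_iff] at hF
  filter_upwards [hF, hT, hT2] with l h1 h2 h3'
  have e1 : z l = z (l.map h) := sub_eq_zero.1 h2
  have e2 : z (l.map h) = z ((l.map h).map h) := sub_eq_zero.1 h3'
  have hm := idx_map h3 hlam l
  have hm2 := idx_map h3 hlam (l.map h)
  show z l - (lift h lam (B2 z) l + lift h lam (B2 z) (l.map h) +
    lift h lam (B2 z) ((l.map h).map h)) = 0
  cases hi : idx h lam l with
  | none =>
    have hl := idx_none.1 hi
    rw [map_fix hl, map_fix hl, lift_none hi, h1 hl]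
    simp
  | some i =>
    rw [hi] at hm
    rw [hm] at hm2
    simp only [Option.map_some] at hm hm2
    rw [lift_some hi, lift_some hm, lift_some hm2]
    unfold B2
    have hi3 := z3_cases i
    rcases hi3 with rfl | rfl | rfl
    · have a1 : (0 : ZMod 3) + 1 ≠ 0 := by decide
      have a2 : (0 : ZMod 3) + 1 + 1 ≠ 0 := by decide
      rw [if_pos rfl, if_neg a1, if_neg a2]
      simp
    · have a1 : (1 : ZMod 3) ≠ 0 := by decide
      have a2 : (1 : ZMod 3) + 1 ≠ 0 := by decide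
      have a3 : (1 : ZMod 3) + 1 + 1 = 0 := by decide
      rw [if_neg a1, if_neg a2, if_pos a3, ← e2, ← e1]
      simp
    · have a1 : (2 : ZMod 3) ≠ 0 := by decide
      have a2 : (2 : ZMod 3) + 1 = 0 := by decide
      have a3 : (2 : ZMod 3) + 1 + 1 ≠ 0 := by decide
      rw [if_neg a1, if_pos a2, if_neg a3, ← e1]
      simp

theorem K1 {h : Ω → Ω} (h3 : ∀ x, h (h (h x)) = x) {lam : Ω → ZMod 3}
    (hlam : ∀ x, h x ≠ x → lam (h x) = lam x + 1) {q : ℕ} {z : List Ω → ZMod 3}
    (hF : Nl {x | h x = x} q z) (hS : Nl univ q (SS h z)) :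
    Nl univ q (z - TT h (lift h lam (B1 h z))) := by
  rw [nlu_iff] at hS ⊢
  rw [nl_iff] at hF
  filter_upwards [hF, hS] with l h1 h2
  have e1 : z l + z (l.map h) + z ((l.map h).map h) = 0 := h2
  have hm := idx_map h3 hlam l
  show z l - (lift h lam (B1 h z) l - lift h lam (B1 h z) (l.map h)) = 0
  cases hi : idx h lam l with
  | none =>
    have hl := idx_none.1 hi
    rw [map_fix hl, lift_none hi, h1 hl]
    simp
  | some i =>
    rw [hi] at hm
    simp only [Option.map_some] at hm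
    rw [lift_some hi, lift_some hm]
    unfold B1
    have hi3 := z3_cases i
    rcases hi3 with rfl | rfl | rfl
    · have a1 : (0 : ZMod 3) ≠ 1 := by decide
      have a2 : (0 : ZMod 3) ≠ 2 := by decide
      have a3 : (0 : ZMod 3) + 1 = 1 := by decide
      rw [if_neg a1, if_neg a2, if_pos a3]
      show z l - (0 - -(z (((l.map h).map h).map h))) = 0
      rw [map3 h3]
      ring
    · have a2 : (1 : ZMod 3) + 1 ≠ 1 := by decide
      have a3 : (1 : ZMod 3) + 1 = 2 := by decide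
      rw [if_pos rfl, if_neg a2, if_pos a3]
      show z l - (-(z ((l.map h).map h)) - z (l.map h)) = 0
      linear_combination e1
    · have a1 : (2 : ZMod 3) ≠ 1 := by decide
      have a2 : (2 : ZMod 3) + 1 ≠ 1 := by decide
      have a3 : (2 : ZMod 3) + 1 ≠ 2 := by decide
      rw [if_neg a1, if_pos rfl, if_neg a2, if_neg a3]
      show z l - (z l - 0) = 0
      ring

open Classical in
/-- extension of the restriction to the fixed point set -/
noncomputable def ext (h : Ω → Ω) (c : List Ω → ZMod 3) : List Ω → ZMod 3 := fun l =>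
  if ∀ x ∈ l, h x = x then c l else 0

theorem fix_map_iff {h : Ω → Ω} (h3 : ∀ x, h (h (h x)) = x) (l : List Ω) :
    (∀ x ∈ l.map h, h x = x) ↔ ∀ x ∈ l, h x = x := by
  constructor
  · intro H x hx
    have h1 : h (h x) = h x := H _ (List.mem_map_of_mem hx)
    have h2 := h3 x
    rw [h1, h1] at h2
    exact h2
  · intro H x hx
    obtain ⟨y, hy, rfl⟩ := List.mem_map.1 hx
    rw [H y hy, H y hy]

theorem ext_map {h : Ω → Ω} (h3 : ∀ x, h (h (h x)) = x) (c : List Ω → ZMod 3) (l : List Ω) :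
    ext h c (l.map h) = ext h c l := by
  unfold ext
  by_cases hl : ∀ x ∈ l, h x = x
  · rw [if_pos hl, if_pos ((fix_map_iff h3 l).2 hl), map_fix hl]
  · rw [if_neg hl, if_neg (fun H => hl ((fix_map_iff h3 l).1 H))]

theorem TT_ext {h : Ω → Ω} (h3 : ∀ x, h (h (h x)) = x) (c : List Ω → ZMod 3) :
    TT h (ext h c) = 0 := by
  funext l
  show ext h c l - ext h c (l.map h) = 0
  rw [ext_map h3, sub_self]

theorem SS_ext {h : Ω → Ω} (h3 : ∀ x, h (h (h x)) = x) (c : List Ω → ZMod 3) :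
    SS h (ext h c) = 0 := by
  funext l
  show ext h c l + ext h c (l.map h) + ext h c ((l.map h).map h) = 0
  simp only [ext_map h3]
  generalize ext h c l = a
  revert a
  decide

theorem inj_T {h : Ω → Ω} (hu : UniformContinuous h) (h3 : ∀ x, h (h (h x)) = x) {n : ℕ}
    (HVn : HV (univ : Set Ω) n) {z m m2 : List Ω → ZMod 3}
    (hz : Nl univ n (z - TT h m)) (hd : Nl univ (n + 1) (d m - d (SS h m2))) :
    ∃ m', (∀ l : List Ω, (∀ x ∈ l, h x = x) → m' l = 0) ∧ Nl univ n (z - d (TT h m')) := by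
  have hcoc : Coc univ n (m - SS h m2) := by
    unfold Coc
    rw [d_sub]
    exact hd
  obtain ⟨c', hc'⟩ := HVn _ hcoc
  refine ⟨c' - ext h c', ?_, ?_⟩
  · intro l hl
    show c' l - ext h c' l = 0
    unfold ext
    rw [if_pos hl, sub_self]
  · have h1 := nl_TT hu (fun x _ => mem_univ _) hc'
    rw [TT_sub, TT_sub, TS h3, ← d_TT] at h1
    rw [TT_sub, TT_ext h3, sub_zero]
    have := hz.add h1
    have e : z - TT h m + (TT h m - 0 - d (TT h c')) = z - d (TT h c') := by abel
    rwa [e] at this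

theorem inj_S {h : Ω → Ω} (hu : UniformContinuous h) (h3 : ∀ x, h (h (h x)) = x) {n : ℕ}
    (HVn : HV (univ : Set Ω) n) {z m m2 : List Ω → ZMod 3}
    (hz : Nl univ n (z - SS h m)) (hd : Nl univ (n + 1) (d m - d (TT h m2))) :
    ∃ m', (∀ l : List Ω, (∀ x ∈ l, h x = x) → m' l = 0) ∧ Nl univ n (z - d (SS h m')) := by
  have hcoc : Coc univ n (m - TT h m2) := by
    unfold Coc
    rw [d_sub]
    exact hd
  obtain ⟨c', hc'⟩ := HVn _ hcoc
  refine ⟨c' - ext h c', ?_, ?_⟩
  · intro l hl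
    show c' l - ext h c' l = 0
    unfold ext
    rw [if_pos hl, sub_self]
  · have h1 := nl_SS hu (fun x _ => mem_univ _) hc'
    rw [SS_sub, SS_sub, ST h3, ← d_SS] at h1
    rw [SS_sub, SS_ext h3, sub_zero]
    have := hz.add h1
    have e : z - SS h m + (SS h m - 0 - d (SS h c')) = z - d (SS h c') := by abel
    rwa [e] at this

/-- good pieces -/
structure Good (h : Ω → Ω) (K : Set Ω) (lam : Ω → ZMod 3) : Prop where
  inv : ∀ x ∈ K, h x ∈ K
  nf : ∀ x ∈ K, h x ≠ x
  lam_h : ∀ x, h x ≠ x → lam (h x) = lam x + 1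
  loc : ∃ ε > 0, ∀ x ∈ K, ∀ y ∈ K, dist x y < ε → lam x = lam y

theorem d_lift_null {h : Ω → Ω} {K : Set Ω} {lam : Ω → ZMod 3} (hK : Good h K lam) {n : ℕ}
    (hn : 1 ≤ n) {B : ZMod 3 → List Ω → ZMod 3} (hB : ∀ i, Nl univ (n + 1) (d (B i))) :
    Nl K (n + 1) (d (lift h lam B)) := by
  obtain ⟨ε, hε, hloc⟩ := hK.loc
  have hB' : ∀ i, ∀ᶠ l in Gf Ω (n + 1), d (B i) l = 0 := fun i => nlu_iff.1 (hB i)
  have hB'' : ∀ᶠ l in Gf Ω (n + 1), ∀ i, d (B i) l = 0 := Filter.eventually_all.2 hB'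
  rw [nl_iff]
  have hsm : ∀ᶠ l in Gf Ω (n + 1), ∀ x ∈ l, ∀ y ∈ l, dist x y < ε :=
    ev_iff.2 ⟨ε, hε, fun l _ hs => hs.2⟩
  filter_upwards [hB'', hsm, ev_len] with l h1 h2 hlen hlK
  obtain ⟨x0, hx0⟩ : ∃ x, x ∈ l := by
    cases l with
    | nil => simp at hlen
    | cons x l => exact ⟨x, by simp⟩
  rw [← h1 (lam x0)]
  apply d_congr
  intro l' hl' hsub
  apply lift_some
  apply idx_const
  · intro he
    rw [he] at hl'
    simp at hl'
    omega
  · intro x hx
    exact hK.nf x (hlK x (hsub hx))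
  · intro x hx
    exact hloc x (hlK x (hsub hx)) x0 (hlK x0 hx0) (h2 x (hsub hx) x0 hx0)

theorem lift_null {h : Ω → Ω} {K : Set Ω} {lam : Ω → ZMod 3} {n : ℕ}
    {B : ZMod 3 → List Ω → ZMod 3} (hB : ∀ i, Nl K n (B i)) :
    Nl K n (lift h lam B) := by
  have hB' : ∀ i, ∀ᶠ l in Gf Ω n, (∀ x ∈ l, x ∈ K) → B i l = 0 := fun i => nl_iff.1 (hB i)
  have hB'' : ∀ᶠ l in Gf Ω n, ∀ i, (∀ x ∈ l, x ∈ K) → B i l = 0 := Filter.eventually_all.2 hB'
  rw [nl_iff]
  filter_upwards [hB''] with l h1 hlK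
  cases hi : idx h lam l with
  | none => exact lift_none hi
  | some i => rw [lift_some hi]; exact h1 i hlK

theorem B1_nl {h : Ω → Ω} (hu : UniformContinuous h) {K : Set Ω} (hK : ∀ x ∈ K, h x ∈ K) {q : ℕ}
    {z : List Ω → ZMod 3} (hz : Nl K q z) (i : ZMod 3) : Nl K q (B1 h z i) := by
  unfold B1
  split_ifs
  · exact (nl_pb hu hK (nl_pb hu hK hz)).neg
  · exact hz
  · exact Nl.zero

theorem B2_nl {K : Set Ω} {q : ℕ}
    {z : List Ω → ZMod 3} (hz : Nl K q z) (i : ZMod 3) : Nl K q (B2 z i) := by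
  unfold B2
  split_ifs
  · exact hz
  · exact Nl.zero

theorem dB1_nl {h : Ω → Ω} (hu : UniformContinuous h) {q : ℕ}
    {z : List Ω → ZMod 3} (hz : Nl univ q (d z)) (i : ZMod 3) : Nl univ q (d (B1 h z i)) := by
  unfold B1
  split_ifs
  · rw [d_neg, d_pb, d_pb]
    exact (nl_pb hu (fun x _ => mem_univ _) (nl_pb hu (fun x _ => mem_univ _) hz)).neg
  · exact hz
  · rw [d_zero]; exact Nl.zero

theorem dB2_nl {q : ℕ}
    {z : List Ω → ZMod 3} (hz : Nl univ q (d z)) (i : ZMod 3) : Nl univ q (d (B2 z i)) := by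
  unfold B2
  split_ifs
  · exact hz
  · rw [d_zero]; exact Nl.zero

theorem smith_main {h : Ω → Ω} (hu : UniformContinuous h) (h3 : ∀ x, h (h (h x)) = x) {N : ℕ}
    (hN : ∀ q, N ≤ q → HV (univ : Set Ω) q) (Ks : List (Set Ω))
    (hKs : ∀ K ∈ Ks, ∃ lam, Good h K lam) :
    ∀ D : Set (Set Ω), D.Finite → (∀ K ∈ D, ∀ x ∈ K, h x ∈ K) →
    (∃ ε > 0, ∀ l : List Ω, l ≠ [] → Sm univ ε l →
      (∃ K ∈ D, ∀ x ∈ l, x ∈ K) ∨ (∃ K ∈ Ks, ∀ x ∈ l, x ∈ K)) →
    ∀ n, N ≤ n → 1 ≤ n → ∀ m, Nl {x | h x = x} n m →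
    (Coc univ n (SS h m) → (∀ K ∈ D, Nl K n (SS h m)) →
      ∃ m', Nl {x | h x = x} (n - 1) m' ∧ Nl univ n (SS h m - d (SS h m'))) ∧
    (Coc univ n (TT h m) → (∀ K ∈ D, Nl K n (TT h m)) →
      ∃ m', Nl {x | h x = x} (n - 1) m' ∧ Nl univ n (TT h m - d (TT h m'))) := by
  induction Ks with
  | nil =>
    intro D hD _ hcov n hNn hn m hm
    have key : ∀ z : List Ω → ZMod 3, (∀ K ∈ D, Nl K n z) → Nl univ n z := by
      intro z hz
      have h1 : ∀ᶠ l in Gf Ω n, ∀ K ∈ D, (∀ x ∈ l, x ∈ K) → z l = 0 :=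
        (Filter.eventually_all_finite hD).2 fun K hK => nl_iff.1 (hz K hK)
      obtain ⟨ε, hε, hcov⟩ := hcov
      have h2 : ∀ᶠ l in Gf Ω n, Sm univ ε l := ev_iff.2 ⟨ε, hε, fun l _ hs => hs⟩
      rw [nlu_iff]
      filter_upwards [h1, h2, ev_len] with l a1 a2 a3
      have hne : l ≠ [] := by
        rintro rfl
        simp at a3
        omega
      rcases hcov l hne a2 with ⟨K, hK, hl⟩ | ⟨K, hK, hl⟩
      · exact a1 K hK hl
      · simp at hK
    refine ⟨fun hcoc hnull => ⟨0, Nl.zero, ?_⟩, fun hcoc hnull => ⟨0, Nl.zero, ?_⟩⟩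
    · have e : SS h (0 : List Ω → ZMod 3) = 0 := by
        unfold SS pb; funext l; simp
      rw [e, d_zero, sub_zero]
      exact key _ hnull
    · have e : TT h (0 : List Ω → ZMod 3) = 0 := by
        unfold TT pb; funext l; simp
      rw [e, d_zero, sub_zero]
      exact key _ hnull
  | cons K Ks ih =>
    intro D hD hDinv hcov n hNn hn m hm
    obtain ⟨lam, hgood⟩ := hKs K (by simp)
    have ih' := ih (fun K' hK' => hKs K' (by simp [hK'])) (insert K D) (hD.insert K)
      (by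
        intro K' hK' x hx
        rcases mem_insert_iff.1 hK' with rfl | hK'
        · exact hgood.inv x hx
        · exact hDinv K' hK' x hx)
      (by
        obtain ⟨ε, hε, hcov⟩ := hcov
        refine ⟨ε, hε, fun l hne hs => ?_⟩
        rcases hcov l hne hs with ⟨K', hK', hl⟩ | ⟨K', hK', hl⟩
        · exact Or.inl ⟨K', mem_insert_of_mem _ hK', hl⟩
        · rcases List.mem_cons.1 hK' with rfl | hK'
          · exact Or.inl ⟨K', mem_insert _ _, hl⟩
          · exact Or.inr ⟨K', hK', hl⟩)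
      (n + 1) (by omega) (by omega)
    have hFinv : ∀ x ∈ {x | h x = x}, h x ∈ {x | h x = x} := by
      intro x hx
      have hx' : h x = x := hx
      show h (h x) = h x
      rw [hx', hx']
    constructor
    · intro hcoc hnull
      set z := SS h m with hz
      have hzF : Nl {x | h x = x} n z := ⟨1, one_pos, fun l _ hs => SS_fix hs.1 m⟩
      have hTz : Nl univ n (TT h z) := by rw [hz, TS h3]; exact Nl.zero
      set b := lift h lam (B2 z) with hb
      have hzb : Nl univ n (z - SS h b) := K2 hu h3 hgood.lam_h hzF hTz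
      have hbF : Nl {x | h x = x} n b := nl_lift_fix
      -- S (d b) null
      have hSdb : Nl univ (n + 1) (SS h (d b)) := by
        have h1 := hzb.d
        rw [d_sub, d_SS h b] at h1
        have h2 : Nl univ (n + 1) (d z) := hcoc
        have := h2.sub h1
        have e : d z - (d z - SS h (d b)) = SS h (d b) := by abel
        rwa [e] at this
      have hdbF : Nl {x | h x = x} (n + 1) (d b) := hbF.d
      set m1 := lift h lam (B1 h (d b)) with hm1
      have hdb : Nl univ (n + 1) (d b - TT h m1) := K1 h3 hgood.lam_h hdbF hSdb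
      have hm1F : Nl {x | h x = x} (n + 1) m1 := nl_lift_fix
      have hT1 : Coc univ (n + 1) (TT h m1) := by
        have h1 := hdb.d
        rw [d_sub, d_d, zero_sub] at h1
        have := h1.neg
        rw [neg_neg] at this
        exact this
      have hdbK : ∀ K' ∈ insert K D, Nl K' (n + 1) (d b) := by
        intro K' hK'
        rcases mem_insert_iff.1 hK' with rfl | hK'
        · exact d_lift_null hgood hn (fun i => dB2_nl hcoc i)
        · exact (lift_null (fun i => B2_nl (hnull K' hK') i)).d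
      have hT1K : ∀ K' ∈ insert K D, Nl K' (n + 1) (TT h m1) := by
        intro K' hK'
        have := (hdbK K' hK').sub (hdb.mono (subset_univ K'))
        have e : d b - (d b - TT h m1) = TT h m1 := by abel
        rwa [e] at this
      obtain ⟨m2, _, hm2⟩ := (ih' m1 hm1F).2 hT1 hT1K
      have hfin : Nl univ (n + 1) (d b - d (TT h m2)) := by
        have := hdb.add hm2
        have e : d b - TT h m1 + (TT h m1 - d (TT h m2)) = d b - d (TT h m2) := by abel
        rwa [e] at this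
      obtain ⟨m', hm'F, hm'⟩ := inj_S hu h3 (hN n hNn) hzb hfin
      exact ⟨m', ⟨1, one_pos, fun l _ hs => hm'F l hs.1⟩, hm'⟩
    · intro hcoc hnull
      set z := TT h m with hz
      have hzF : Nl {x | h x = x} n z := ⟨1, one_pos, fun l _ hs => TT_fix hs.1 m⟩
      have hSz : Nl univ n (SS h z) := by rw [hz, ST h3]; exact Nl.zero
      set b := lift h lam (B1 h z) with hb
      have hzb : Nl univ n (z - TT h b) := K1 h3 hgood.lam_h hzF hSz
      have hbF : Nl {x | h x = x} n b := nl_lift_fix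
      have hTdb : Nl univ (n + 1) (TT h (d b)) := by
        have h1 := hzb.d
        rw [d_sub, d_TT h b] at h1
        have h2 : Nl univ (n + 1) (d z) := hcoc
        have := h2.sub h1
        have e : d z - (d z - TT h (d b)) = TT h (d b) := by abel
        rwa [e] at this
      have hdbF : Nl {x | h x = x} (n + 1) (d b) := hbF.d
      set m1 := lift h lam (B2 (d b)) with hm1
      have hdb : Nl univ (n + 1) (d b - SS h m1) := K2 hu h3 hgood.lam_h hdbF hTdb
      have hm1F : Nl {x | h x = x} (n + 1) m1 := nl_lift_fix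
      have hT1 : Coc univ (n + 1) (SS h m1) := by
        have h1 := hdb.d
        rw [d_sub, d_d, zero_sub] at h1
        have := h1.neg
        rw [neg_neg] at this
        exact this
      have hdbK : ∀ K' ∈ insert K D, Nl K' (n + 1) (d b) := by
        intro K' hK'
        rcases mem_insert_iff.1 hK' with rfl | hK'
        · exact d_lift_null hgood hn (fun i => dB1_nl hu hcoc i)
        · exact (lift_null (fun i => B1_nl hu (hDinv K' hK') (hnull K' hK') i)).d
      have hT1K : ∀ K' ∈ insert K D, Nl K' (n + 1) (SS h m1) := by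
        intro K' hK'
        have := (hdbK K' hK').sub (hdb.mono (subset_univ K'))
        have e : d b - (d b - SS h m1) = SS h m1 := by abel
        rwa [e] at this
      obtain ⟨m2, _, hm2⟩ := (ih' m1 hm1F).1 hT1 hT1K
      have hfin : Nl univ (n + 1) (d b - d (SS h m2)) := by
        have := hdb.add hm2
        have e : d b - SS h m1 + (SS h m1 - d (SS h m2)) = d b - d (SS h m2) := by abel
        rwa [e] at this
      obtain ⟨m', hm'F, hm'⟩ := inj_T hu h3 (hN n hNn) hzb hfin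
      exact ⟨m', ⟨1, one_pos, fun l _ hs => hm'F l hs.1⟩, hm'⟩

theorem good_nhd {h : Ω → Ω} (hc : Continuous h) (h3 : ∀ x, h (h (h x)) = x) {lam0 : Ω → ZMod 3}
    (hlam0 : ∀ x, h x ≠ x → lam0 (h x) = lam0 x + 1) (x : Ω) (hx : h x ≠ x) :
    ∃ (K : Set Ω) (lam : Ω → ZMod 3), Good h K lam ∧ IsOpen K ∧ x ∈ K := by
  classical
  set p0 := x with hp0
  set p1 := h x with hp1
  set p2 := h (h x) with hp2
  have h01 : p0 ≠ p1 := fun e => hx e.symm
  have h12 : p1 ≠ p2 := by
    intro e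
    have e1 : h x = h (h x) := e
    have e2 : h (h x) = h (h (h x)) := congrArg h e1
    rw [h3] at e2
    exact hx (e1.trans e2)
  have h02 : p0 ≠ p2 := by
    intro e
    have e1 : x = h (h x) := e
    have e2 : h x = h (h (h x)) := congrArg h e1
    rw [h3] at e2
    exact hx e2
  obtain ⟨ρ, hρ, r01, r12, r02⟩ : ∃ ρ > 0, 4 * ρ ≤ dist p0 p1 ∧ 4 * ρ ≤ dist p1 p2 ∧
      4 * ρ ≤ dist p0 p2 := by
    refine ⟨min (dist p0 p1) (min (dist p1 p2) (dist p0 p2)) / 4, ?_, ?_, ?_, ?_⟩
    · have := dist_pos.2 h01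
      have := dist_pos.2 h12
      have := dist_pos.2 h02
      positivity
    · have := min_le_left (dist p0 p1) (min (dist p1 p2) (dist p0 p2))
      linarith
    · have := (min_le_right (dist p0 p1) (min (dist p1 p2) (dist p0 p2))).trans (min_le_left _ _)
      linarith
    · have := (min_le_right (dist p0 p1) (min (dist p1 p2) (dist p0 p2))).trans (min_le_right _ _)
      linarith
  -- exclusivity
  have ex : ∀ {a b w w' : Ω}, 4 * ρ ≤ dist a b → dist w a < ρ → dist w' b < ρ → ¬ dist w w' < ρ := by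
    intro a b w w' hab h1 h2 h3
    have t1 : dist a b ≤ dist a w + dist w w' + dist w' b := dist_triangle4 a w w' b
    rw [dist_comm a w] at t1
    linarith
  have ex0 : ∀ {a b w : Ω}, 4 * ρ ≤ dist a b → dist w a < ρ → ¬ dist w b < ρ := by
    intro a b w hab h1 h2
    exact ex hab h1 h2 (by simpa using hρ)
  have r10 : 4 * ρ ≤ dist p1 p0 := by rw [dist_comm]; exact r01
  have r21 : 4 * ρ ≤ dist p2 p1 := by rw [dist_comm]; exact r12
  have r20 : 4 * ρ ≤ dist p2 p0 := by rw [dist_comm]; exact r02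
  set U : Set Ω := {y | dist y p0 < ρ ∧ dist (h y) p1 < ρ ∧ dist (h (h y)) p2 < ρ} with hU
  have hUo : IsOpen U := by
    apply IsOpen.inter
    · exact isOpen_lt (continuous_id.dist continuous_const) continuous_const
    · apply IsOpen.inter
      · exact isOpen_lt (hc.dist continuous_const) continuous_const
      · exact isOpen_lt ((hc.comp hc).dist continuous_const) continuous_const
  set K : Set Ω := {w | w ∈ U ∨ h w ∈ U ∨ h (h w) ∈ U} with hK
  have hKo : IsOpen K := by
    have e : K = U ∪ (h ⁻¹' U ∪ (h ∘ h) ⁻¹' U) := by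
      ext w; rfl
    rw [e]
    exact hUo.union ((hUo.preimage hc).union (hUo.preimage (hc.comp hc)))
  have hKinv : ∀ w ∈ K, h w ∈ K := by
    rintro w (hw | hw | hw)
    · right; right; rw [h3]; exact hw
    · left; exact hw
    · right; left; exact hw
  have hKinv' : ∀ w, h w ∈ K → w ∈ K := by
    intro w hw
    have := hKinv _ (hKinv _ hw)
    rwa [h3] at this
  -- trichotomy
  have tri : ∀ w ∈ K, (dist w p0 < ρ ∧ dist (h w) p1 < ρ ∧ dist (h (h w)) p2 < ρ) ∨
      (dist w p1 < ρ ∧ dist (h w) p2 < ρ ∧ dist (h (h w)) p0 < ρ) ∨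
      (dist w p2 < ρ ∧ dist (h w) p0 < ρ ∧ dist (h (h w)) p1 < ρ) := by
    rintro w (hw | hw | hw)
    · left; exact hw
    · right; right
      obtain ⟨a, b, c⟩ := hw
      rw [h3] at c
      exact ⟨c, a, b⟩
    · right; left
      obtain ⟨a, b, c⟩ := hw
      rw [h3] at b c
      exact ⟨b, c, a⟩
  set lam : Ω → ZMod 3 := fun w =>
    if w ∈ K then (if dist w p0 < ρ then 0 else if dist w p1 < ρ then 1 else 2) else lam0 w with hlam
  have l0 : ∀ w ∈ K, dist w p0 < ρ → lam w = 0 := by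
    intro w hw h1
    simp only [hlam, if_pos hw, if_pos h1]
  have l1 : ∀ w ∈ K, dist w p1 < ρ → lam w = 1 := by
    intro w hw h1
    simp only [hlam, if_pos hw, if_neg (ex0 r10 h1), if_pos h1]
  have l2 : ∀ w ∈ K, dist w p2 < ρ → lam w = 2 := by
    intro w hw h1
    simp only [hlam, if_pos hw, if_neg (ex0 r20 h1), if_neg (ex0 r21 h1)]
  refine ⟨K, lam, ⟨hKinv, ?_, ?_, ⟨ρ, hρ, ?_⟩⟩, hKo, ?_⟩
  · intro w hw he
    rcases tri w hw with ⟨a, b, c⟩ | ⟨a, b, c⟩ | ⟨a, b, c⟩
    · rw [he] at b; exact ex0 r01 a b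
    · rw [he] at b; exact ex0 r12 a b
    · rw [he] at b; exact ex0 r20 a b
  · intro w hw
    by_cases hwK : w ∈ K
    · have hwK' := hKinv w hwK
      rcases tri w hwK with ⟨a, b, c⟩ | ⟨a, b, c⟩ | ⟨a, b, c⟩
      · rw [l0 w hwK a, l1 _ hwK' b]; decide
      · rw [l1 w hwK a, l2 _ hwK' b]; decide
      · rw [l2 w hwK a, l0 _ hwK' b]; decide
    · have hwK' : h w ∉ K := fun hh => hwK (hKinv' w hh)
      simp only [hlam, if_neg hwK, if_neg hwK']
      exact hlam0 w hw
  · intro w hw w' hw' hd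
    rcases tri w hw with ⟨a, _, _⟩ | ⟨a, _, _⟩ | ⟨a, _, _⟩ <;>
    rcases tri w' hw' with ⟨a', _, _⟩ | ⟨a', _, _⟩ | ⟨a', _, _⟩
    · rw [l0 w hw a, l0 w' hw' a']
    · exact absurd hd (ex r01 a a')
    · exact absurd hd (ex r02 a a')
    · exact absurd hd (ex r10 a a')
    · rw [l1 w hw a, l1 w' hw' a']
    · exact absurd hd (ex r12 a a')
    · exact absurd hd (ex r20 a a')
    · exact absurd hd (ex r21 a a')
    · rw [l2 w hw a, l2 w' hw' a']
  · left
    refine ⟨?_, ?_, ?_⟩
    · show dist x x < ρ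
      rw [dist_self]; exact hρ
    · show dist (h x) (h x) < ρ
      rw [dist_self]; exact hρ
    · show dist (h (h x)) (h (h x)) < ρ
      rw [dist_self]; exact hρ

theorem pieces [CompactSpace Ω] {h : Ω → Ω} (hc : Continuous h) (h3 : ∀ x, h (h (h x)) = x)
    {lam0 : Ω → ZMod 3} (hlam0 : ∀ x, h x ≠ x → lam0 (h x) = lam0 x + 1) {η : ℝ} (hη : 0 < η) :
    ∃ Ks : List (Set Ω), (∀ K ∈ Ks, ∃ lam, Good h K lam) ∧
      ∃ ε > 0, ∀ l : List Ω, l ≠ [] → Sm univ ε l →
        (∃ y, h y = y ∧ ∀ x ∈ l, dist x y < η) ∨ (∃ K ∈ Ks, ∀ x ∈ l, x ∈ K) := by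
  classical
  have key : ∀ x : Ω, ∃ K : Set Ω, IsOpen K ∧ x ∈ K ∧
      ((h x = x ∧ K = Metric.ball x η) ∨ (∃ lam, Good h K lam)) := by
    intro x
    by_cases hx : h x = x
    · exact ⟨Metric.ball x η, Metric.isOpen_ball, Metric.mem_ball_self hη, Or.inl ⟨hx, rfl⟩⟩
    · obtain ⟨K, lam, h1, h2, h3⟩ := good_nhd hc h3 hlam0 x hx
      exact ⟨K, h2, h3, Or.inr ⟨lam, h1⟩⟩
  choose V hVo hVx hV using key
  obtain ⟨t, ht⟩ := isCompact_univ.elim_nhds_subcover V
    (fun x _ => (hVo x).mem_nhds (hVx x))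
  have ht2 : (univ : Set Ω) ⊆ ⋃ i : t, V i := by
    intro x hx
    have := ht.2 hx
    simp only [mem_iUnion] at this ⊢
    obtain ⟨i, hi, hxi⟩ := this
    exact ⟨⟨i, hi⟩, hxi⟩
  obtain ⟨δ, hδ, hL⟩ := lebesgue_number_lemma_of_metric isCompact_univ (fun i : t => hVo i) ht2
  refine ⟨(t.toList.filter (fun x => decide (∃ lam, Good h (V x) lam))).map V, ?_, δ, hδ, ?_⟩
  · intro K hK
    obtain ⟨x, hx, rfl⟩ := List.mem_map.1 hK
    rw [List.mem_filter] at hx
    exact of_decide_eq_true hx.2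
  · intro l hne hs
    obtain ⟨x0, hx0⟩ : ∃ x, x ∈ l := by
      cases l with
      | nil => exact absurd rfl hne
      | cons x l => exact ⟨x, by simp⟩
    obtain ⟨⟨i, hi⟩, hball⟩ := hL x0 (mem_univ _)
    have hin : ∀ x ∈ l, x ∈ V i := fun x hx => hball (hs.2 x hx x0 hx0)
    rcases hV i with ⟨h1, h2⟩ | h1
    · left
      refine ⟨i, h1, fun x hx => ?_⟩
      have := hin x hx
      rw [h2] at this
      exact this
    · right
      refine ⟨V i, ?_, hin⟩
      apply List.mem_map_of_mem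
      rw [List.mem_filter]
      exact ⟨by simpa using hi, decide_eq_true h1⟩

theorem exists_rep {h : Ω → Ω} (h3 : ∀ x, h (h (h x)) = x) :
    ∃ rep : Ω → Ω, (∀ x, rep (h x) = rep x) ∧
      (∀ x, x = rep x ∨ x = h (rep x) ∨ x = h (h (rep x))) := by
  classical
  obtain ⟨inst, _⟩ := exists_wellFoundedLT Ω
  refine ⟨fun x => min x (min (h x) (h (h x))), ?_, ?_⟩
  · intro x
    show min (h x) (min (h (h x)) (h (h (h x)))) = min x (min (h x) (h (h x)))
    rw [h3, ← min_assoc, min_comm (min (h x) (h (h x))) x]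
  · intro x
    show x = min x (min (h x) (h (h x))) ∨ x = h (min x (min (h x) (h (h x)))) ∨
      x = h (h (min x (min (h x) (h (h x)))))
    rcases min_choice x (min (h x) (h (h x))) with e | e
    · left; exact e.symm
    · rcases min_choice (h x) (h (h x)) with e' | e'
      · right; right; rw [e, e', h3]
      · right; left; rw [e, e', h3]

theorem exists_lam {h : Ω → Ω} (h3 : ∀ x, h (h (h x)) = x) {rep : Ω → Ω}
    (hr : ∀ x, rep (h x) = rep x) (hr2 : ∀ x, x = rep x ∨ x = h (rep x) ∨ x = h (h (rep x))) :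
    ∃ lam : Ω → ZMod 3, ∀ x, h x ≠ x → lam (h x) = lam x + 1 := by
  classical
  refine ⟨fun x => if rep x = x then 0 else if rep x = h (h x) then 1 else 2, ?_⟩
  intro x hx
  have h12 : h x ≠ h (h x) := by
    intro e
    have e2 : h (h x) = h (h (h x)) := congrArg h e
    rw [h3] at e2
    exact hx (e.trans e2)
  have h02 : x ≠ h (h x) := by
    intro e
    have e2 : h x = h (h (h x)) := congrArg h e
    rw [h3] at e2
    exact hx e2
  show (if rep (h x) = h x then (0 : ZMod 3) else if rep (h x) = h (h (h x)) then 1 else 2) =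
    (if rep x = x then 0 else if rep x = h (h x) then 1 else 2) + 1
  rw [hr, h3]
  rcases hr2 x with e | e | e
  · rw [← e, if_neg (Ne.symm hx), if_pos rfl, if_pos rfl]; decide
  · have e' : rep x = h (h x) := by
      have := congrArg h (congrArg h e)
      rw [h3] at this
      exact this.symm
    rw [e', if_neg (Ne.symm h12), if_neg (Ne.symm h02), if_neg (Ne.symm h02), if_pos rfl]
    decide
  · have e' : rep x = h x := by
      have := congrArg h e
      rw [h3] at this
      exact this.symm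
    rw [e', if_pos rfl, if_neg hx, if_neg h12]
    decide

theorem pr_zero {Ω' : Type*} (f g : Ω → Ω') : pr f g (0 : List Ω' → ZMod 3) = 0 := by
  have := pr_sub f g (0 : List Ω' → ZMod 3) 0
  simpa using this

theorem pr_add {Ω' : Type*} (f g : Ω → Ω') (b c : List Ω' → ZMod 3) :
    pr f g (b + c) = pr f g b + pr f g c := by
  have := pr_sub f g (b + c) c
  rw [add_sub_cancel_right] at this
  rw [this]
  abel

theorem pr_pb {f g h : Ω → Ω} (hf : ∀ x, h (f x) = f (h x)) (hg : ∀ x, h (g x) = g (h x))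
    (c : List Ω → ZMod 3) : pr f g (pb h c) = pb h (pr f g c) := by
  funext l
  induction l generalizing c with
  | nil => simp [pb]
  | cons x l ih =>
    have h1 : (fun l' => pb h c (f x :: l')) = pb h (fun l' => c (f (h x) :: l')) := by
      funext l'
      simp [pb, hf]
    have h2 : (l.map g).map h = (l.map h).map g := by
      rw [List.map_map, List.map_map]
      apply List.map_congr_left
      intro y _
      exact hg y
    rw [pr_cons, h1, ih]
    show c ((f x :: g x :: l.map g).map h) - pr f g (fun l' => c (f (h x) :: l')) (l.map h) =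
      pr f g c (h x :: l.map h)
    rw [pr_cons]
    simp only [List.map_cons]
    rw [hf, hg, h2]

theorem pr_eq_zero {f g : Ω → Ω} {c : List Ω → ZMod 3} (l : List Ω)
    (hl : ∀ l' : List Ω, l'.length = l.length + 1 → (∀ y ∈ l', ∃ x ∈ l, y = f x ∨ y = g x) →
      c l' = 0) : pr f g c l = 0 := by
  induction l generalizing c with
  | nil => simp
  | cons x l ih =>
    rw [pr_cons, hl _ (by simp), ih, sub_zero]
    · intro l' hl' hmem
      apply hl
      · simp [hl']
      · intro y hy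
        rcases List.mem_cons.1 hy with rfl | hy
        · exact ⟨x, by simp, Or.inl rfl⟩
        · obtain ⟨x', hx', hy'⟩ := hmem y hy
          exact ⟨x', by simp [hx'], hy'⟩
    · intro y hy
      rcases List.mem_cons.1 hy with rfl | hy
      · exact ⟨x, by simp, Or.inl rfl⟩
      · rcases List.mem_cons.1 hy with rfl | hy
        · exact ⟨x, by simp, Or.inr rfl⟩
        · obtain ⟨x', hx', rfl⟩ := List.mem_map.1 hy
          exact ⟨x', by simp [hx'], Or.inr rfl⟩

theorem pb_id (c : List Ω → ZMod 3) : pb (id : Ω → Ω) c = c := by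
  funext l; simp [pb]

/-- the equivariant retraction onto the fixed points near them -/
theorem exists_phi {h : Ω → Ω} (hu : UniformContinuous h) (h3 : ∀ x, h (h (h x)) = x)
    {rep : Ω → Ω} (hr : ∀ x, rep (h x) = rep x)
    (hr2 : ∀ x, x = rep x ∨ x = h (rep x) ∨ x = h (h (rep x))) {δ : ℝ} (hδ : 0 < δ) :
    ∃ (φ : Ω → Ω) (K0 : Set Ω), (∀ x, h (φ x) = φ (h x)) ∧ (∀ x, dist (φ x) x < δ) ∧
      (∀ x ∈ K0, h (φ x) = φ x) ∧ (∀ x ∈ K0, h x ∈ K0) ∧ (∀ x, h x = x → h (φ x) = φ x) ∧
      ∃ η > 0, ∀ x y, h y = y → dist x y < η → x ∈ K0 := by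
  classical
  obtain ⟨η1, hη1, hd1⟩ := Metric.uniformContinuous_iff.1 hu δ hδ
  obtain ⟨η2, hη2, hd2⟩ := Metric.uniformContinuous_iff.1 (hu.comp hu) δ hδ
  set η := min δ (min η1 η2) with hη
  have hηp : 0 < η := lt_min hδ (lt_min hη1 hη2)
  have e0 : ∀ {x y : Ω}, dist x y < η → dist x y < δ := fun hh => hh.trans_le (min_le_left _ _)
  have e1 : ∀ {x y : Ω}, dist x y < η → dist (h x) (h y) < δ := fun hh =>
    hd1 (hh.trans_le ((min_le_right _ _).trans (min_le_left _ _)))
  have e2 : ∀ {x y : Ω}, dist x y < η → dist (h (h x)) (h (h y)) < δ := fun hh =>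
    hd2 (hh.trans_le ((min_le_right _ _).trans (min_le_right _ _)))
  set ψ : Ω → Ω → Ω := fun r x =>
    if hx : ∃ y, h y = y ∧ dist r y < η then hx.choose else x with hψ
  set φ : Ω → Ω := fun x => ψ (rep x) x with hφ
  have hφ1 : ∀ x, (∃ y, h y = y ∧ dist (rep x) y < η) →
      h (φ x) = φ x ∧ dist (rep x) (φ x) < η := by
    intro x hx
    simp only [hφ, hψ, dif_pos hx]
    exact hx.choose_spec
  have hφ2 : ∀ x, ¬ (∃ y, h y = y ∧ dist (rep x) y < η) → φ x = x := by
    intro x hx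
    simp only [hφ, hψ, dif_neg hx]
  have hrf : ∀ x, h x = x → rep x = x := by
    intro x hx
    rcases hr2 x with e | e | e
    · exact e.symm
    · have := congrArg h (congrArg h e)
      rw [h3, hx, hx] at this
      exact this.symm
    · have := congrArg h e
      rw [h3, hx] at this
      exact this.symm
  refine ⟨φ, {x | ∃ y, h y = y ∧ dist (rep x) y < η}, ?_, ?_, ?_, ?_, ?_, ?_⟩
  · intro x
    by_cases hx : ∃ y, h y = y ∧ dist (rep x) y < η
    · rw [(hφ1 x hx).1]
      show ψ (rep x) x = ψ (rep (h x)) (h x)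
      rw [hr]
      simp only [hψ, dif_pos hx]
    · have hx' : ¬ ∃ y, h y = y ∧ dist (rep (h x)) y < η := by rw [hr]; exact hx
      rw [hφ2 x hx, hφ2 _ hx']
  · intro x
    by_cases hx : ∃ y, h y = y ∧ dist (rep x) y < η
    · obtain ⟨a, b⟩ := hφ1 x hx
      rw [dist_comm]
      rcases hr2 x with e | e | e
      · rw [← e] at b
        exact e0 b
      · have := e1 b
        rw [← e, a] at this
        exact this
      · have := e2 b
        rw [← e, a, a] at this
        exact this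
    · rw [hφ2 x hx]
      simpa using hδ
  · intro x hx
    exact (hφ1 x hx).1
  · intro x hx
    show ∃ y, h y = y ∧ dist (rep (h x)) y < η
    rw [hr]
    exact hx
  · intro x hx
    exact (hφ1 x ⟨x, hx, by rw [hrf x hx]; simpa using hηp⟩).1
  · obtain ⟨η3, hη3, hd3⟩ := Metric.uniformContinuous_iff.1 hu η hηp
    obtain ⟨η4, hη4, hd4⟩ := Metric.uniformContinuous_iff.1 (hu.comp hu) η hηp
    refine ⟨min η (min η3 η4), lt_min hηp (lt_min hη3 hη4), ?_⟩
    intro x y hy hxy
    have f0 : dist x y < η := hxy.trans_le (min_le_left _ _)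
    have f1 : dist (h x) (h y) < η := hd3 (hxy.trans_le ((min_le_right _ _).trans (min_le_left _ _)))
    have f2 : dist (h (h x)) (h (h y)) < η :=
      hd4 (hxy.trans_le ((min_le_right _ _).trans (min_le_right _ _)))
    refine ⟨y, hy, ?_⟩
    rcases hr2 x with e | e | e
    · rw [← e]; exact f0
    · have e' : rep x = h (h x) := by
        have := congrArg h (congrArg h e)
        rw [h3] at this
        exact this.symm
      rw [e']
      rw [hy, hy] at f2
      exact f2
    · have e' : rep x = h x := by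
        have := congrArg h e
        rw [h3] at this
        exact this.symm
      rw [e']
      rw [hy] at f1
      exact f1

theorem smith_univ [CompactSpace Ω] {h : Ω → Ω} (hc : Continuous h) (h3 : ∀ x, h (h (h x)) = x)
    {N : ℕ} (hN : ∀ q, N ≤ q → HV (univ : Set Ω) q) (n : ℕ) (hn1 : 1 ≤ n) (hn : N ≤ n)
    (m : List Ω → ZMod 3) (hm : Nl {x | h x = x} n m) :
    (Coc univ n (SS h m) →
      ∃ m', Nl {x | h x = x} (n - 1) m' ∧ Nl univ n (SS h m - d (SS h m'))) ∧
    (Coc univ n (TT h m) →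
      ∃ m', Nl {x | h x = x} (n - 1) m' ∧ Nl univ n (TT h m - d (TT h m'))) := by
  have hu : UniformContinuous h := CompactSpace.uniformContinuous_of_continuous hc
  obtain ⟨rep, hr, hr2⟩ := exists_rep h3
  obtain ⟨lam0, hlam0⟩ := exists_lam h3 hr hr2
  -- common argument
  have key : ∀ (z : List Ω → ZMod 3), Coc univ n z →
      ∃ (φ : Ω → Ω) (K0 : Set Ω), (∀ x, h (φ x) = φ (h x)) ∧
        (∀ x ∈ K0, h (φ x) = φ x) ∧ (∀ x ∈ K0, h x ∈ K0) ∧
        (∃ η > 0, ∀ x y, h y = y → dist x y < η → x ∈ K0) ∧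
        Nl {x | h x = x} n (pb φ m) ∧ Nl {x | h x = x} (n - 1) (pr id φ m) ∧
        Coc univ n (pb φ z) ∧ Nl univ n (z - (pb φ z - d (pr id φ z))) := by
    intro z hz
    obtain ⟨ε1, hε1, hm1⟩ := hm
    obtain ⟨ε2, hε2, hz1⟩ := hz
    set δ := min ε1 ε2 / 3 with hδ
    have hδp : 0 < δ := by
      have := lt_min hε1 hε2
      positivity
    have hδ1 : 3 * δ ≤ ε1 := by
      have := min_le_left ε1 ε2
      rw [hδ]; linarith
    have hδ2 : 3 * δ ≤ ε2 := by
      have := min_le_right ε1 ε2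
      rw [hδ]; linarith
    obtain ⟨φ, K0, c1, c2, c3, c4, c5, c6⟩ := exists_phi hu h3 hr hr2 hδp
    -- distances
    have hdist : ∀ x y x' y' : Ω, dist x y < δ → (x' = x ∨ x' = φ x) → (y' = y ∨ y' = φ y) →
        dist x' y' < 3 * δ := by
      intro x y x' y' hxy hx' hy'
      have a1 : dist x' x < δ := by
        rcases hx' with rfl | rfl
        · rw [dist_self]; exact hδp
        · exact c2 x
      have a2 : dist y y' < δ := by
        rcases hy' with rfl | rfl
        · rw [dist_self]; exact hδp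
        · rw [dist_comm]; exact c2 y
      have := dist_triangle4 x' x y y'
      linarith
    refine ⟨φ, K0, c1, c3, c4, c6, ?_, ?_, ?_, ?_⟩
    · refine ⟨δ, hδp, fun l hl hs => hm1 _ (by simpa using hl) ⟨?_, ?_⟩⟩
      · intro x hx
        obtain ⟨x', hx', rfl⟩ := List.mem_map.1 hx
        exact c5 x' (hs.1 x' hx')
      · intro x hx y hy
        obtain ⟨x', hx', rfl⟩ := List.mem_map.1 hx
        obtain ⟨y', hy', rfl⟩ := List.mem_map.1 hy
        exact (hdist x' y' _ _ (hs.2 x' hx' y' hy') (Or.inr rfl) (Or.inr rfl)).trans_le hδ1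
    · refine ⟨δ, hδp, fun l hl hs => pr_eq_zero l fun l' hl' hmem => hm1 _ (by omega) ⟨?_, ?_⟩⟩
      · intro y hy
        obtain ⟨x, hx, hy⟩ := hmem y hy
        rcases hy with e | e
        · rw [e]; exact hs.1 x hx
        · rw [e]; exact c5 x (hs.1 x hx)
      · intro y hy y' hy'
        obtain ⟨x, hx, hxy⟩ := hmem y hy
        obtain ⟨x', hx', hxy'⟩ := hmem y' hy'
        exact (hdist x x' _ _ (hs.2 x hx x' hx') hxy hxy').trans_le hδ1
    · refine ⟨δ, hδp, fun l hl hs => ?_⟩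
      rw [d_pb]
      apply hz1 _ (by simpa using hl)
      refine ⟨fun _ _ => mem_univ _, ?_⟩
      intro x hx y hy
      obtain ⟨x', hx', rfl⟩ := List.mem_map.1 hx
      obtain ⟨y', hy', rfl⟩ := List.mem_map.1 hy
      exact (hdist x' y' _ _ (hs.2 x' hx' y' hy') (Or.inr rfl) (Or.inr rfl)).trans_le hδ2
    · refine ⟨δ, hδp, fun l hl hs => ?_⟩
      have h1 := prism (id : Ω → Ω) φ z
      rw [pb_id] at h1
      have h2 : z - (pb φ z - d (pr id φ z)) = - pr id φ (d z) := by
        have : pb φ z = z + (d (pr id φ z) + pr id φ (d z)) := by rw [h1]; abel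
        rw [this]; abel
      rw [h2]
      show - (pr id φ (d z) l) = 0
      rw [neg_eq_zero]
      apply pr_eq_zero
      intro l' hl' hmem
      apply hz1 _ (by omega)
      refine ⟨fun _ _ => mem_univ _, ?_⟩
      intro y hy y' hy'
      obtain ⟨x, hx, hxy⟩ := hmem y hy
      obtain ⟨x', hx', hxy'⟩ := hmem y' hy'
      exact (hdist x x' _ _ (hs.2 x hx x' hx') hxy hxy').trans_le hδ2
  have cover : ∀ K0 : Set Ω, (∃ η > 0, ∀ x y, h y = y → dist x y < η → x ∈ K0) →
      ∃ Ks : List (Set Ω), (∀ K ∈ Ks, ∃ lam, Good h K lam) ∧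
      ∃ ε > 0, ∀ l : List Ω, l ≠ [] → Sm univ ε l →
        (∃ K ∈ ({K0} : Set (Set Ω)), ∀ x ∈ l, x ∈ K) ∨ (∃ K ∈ Ks, ∀ x ∈ l, x ∈ K) := by
    rintro K0 ⟨η, hη, hK0⟩
    obtain ⟨Ks, hKs, ε, hε, hcov⟩ := pieces hc h3 hlam0 hη
    refine ⟨Ks, hKs, ε, hε, fun l hne hs => ?_⟩
    rcases hcov l hne hs with ⟨y, hy, hl⟩ | hR
    · exact Or.inl ⟨K0, rfl, fun x hx => hK0 x y hy (hl x hx)⟩
    · exact Or.inr hR
  constructor
  · intro hcoc
    obtain ⟨φ, K0, b1, b2, b3, b4, b5, b6, b7, b8⟩ := key _ hcoc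
    obtain ⟨Ks, hKs, hcov⟩ := cover K0 b4
    have hcomm : pb φ (SS h m) = SS h (pb φ m) := by
      funext l
      have e : ∀ l : List Ω, (l.map φ).map h = (l.map h).map φ := by
        intro l
        rw [List.map_map, List.map_map]
        exact List.map_congr_left fun x _ => b1 x
      show m (l.map φ) + m ((l.map φ).map h) + m (((l.map φ).map h).map h) =
        m (l.map φ) + m ((l.map h).map φ) + m (((l.map h).map h).map φ)
      rw [e, e]
    have hnull : ∀ K ∈ ({K0} : Set (Set Ω)), Nl K n (SS h (pb φ m)) := by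
      intro K hK
      rw [mem_singleton_iff] at hK
      subst hK
      rw [← hcomm]
      refine ⟨1, one_pos, fun l _ hs => ?_⟩
      show SS h m (l.map φ) = 0
      apply SS_fix
      intro x hx
      obtain ⟨x', hx', rfl⟩ := List.mem_map.1 hx
      exact b2 x' (hs.1 x' hx')
    obtain ⟨m', hm', hm''⟩ := (smith_main hu h3 hN Ks hKs {K0} (finite_singleton _)
      (by intro K hK; rw [mem_singleton_iff] at hK; subst hK; exact b3) hcov n hn hn1
      (pb φ m) b5).1 (hcomm ▸ b7) hnull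
    have hprc : pr id φ (SS h m) = SS h (pr id φ m) := by
      unfold SS
      have a := pr_pb (f := id) (g := φ) (h := h) (fun _ => rfl) b1
      rw [pr_add, pr_add, a, a, a]
    refine ⟨m' - pr id φ m, hm'.sub b6, ?_⟩
    rw [SS_sub, d_sub]
    rw [hcomm, hprc] at b8
    have := b8.add hm''
    have e : SS h m - (SS h (pb φ m) - d (SS h (pr id φ m))) + (SS h (pb φ m) - d (SS h m')) =
      SS h m - (d (SS h m') - d (SS h (pr id φ m))) := by abel
    rwa [e] at this
  · intro hcoc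
    obtain ⟨φ, K0, b1, b2, b3, b4, b5, b6, b7, b8⟩ := key _ hcoc
    obtain ⟨Ks, hKs, hcov⟩ := cover K0 b4
    have hcomm : pb φ (TT h m) = TT h (pb φ m) := by
      funext l
      have e : ∀ l : List Ω, (l.map φ).map h = (l.map h).map φ := by
        intro l
        rw [List.map_map, List.map_map]
        exact List.map_congr_left fun x _ => b1 x
      show m (l.map φ) - m ((l.map φ).map h) = m (l.map φ) - m ((l.map h).map φ)
      rw [e]
    have hnull : ∀ K ∈ ({K0} : Set (Set Ω)), Nl K n (TT h (pb φ m)) := by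
      intro K hK
      rw [mem_singleton_iff] at hK
      subst hK
      rw [← hcomm]
      refine ⟨1, one_pos, fun l _ hs => ?_⟩
      show TT h m (l.map φ) = 0
      apply TT_fix
      intro x hx
      obtain ⟨x', hx', rfl⟩ := List.mem_map.1 hx
      exact b2 x' (hs.1 x' hx')
    obtain ⟨m', hm', hm''⟩ := (smith_main hu h3 hN Ks hKs {K0} (finite_singleton _)
      (by intro K hK; rw [mem_singleton_iff] at hK; subst hK; exact b3) hcov n hn hn1
      (pb φ m) b5).2 (hcomm ▸ b7) hnull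
    have hprc : pr id φ (TT h m) = TT h (pr id φ m) := by
      unfold TT
      have a := pr_pb (f := id) (g := φ) (h := h) (fun _ => rfl) b1
      rw [pr_sub, a]
    refine ⟨m' - pr id φ m, hm'.sub b6, ?_⟩
    rw [TT_sub, d_sub]
    rw [hcomm, hprc] at b8
    have := b8.add hm''
    have e : TT h m - (TT h (pb φ m) - d (TT h (pr id φ m))) + (TT h (pb φ m) - d (TT h m')) =
      TT h m - (d (TT h m') - d (TT h (pr id φ m))) := by abel
    rwa [e] at this

open Classical in
/-- extension by zero -/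
noncomputable def exz (X : Set Ω) (b : List X → ZMod 3) : List Ω → ZMod 3 := fun l =>
  if hl : ∀ x ∈ l, x ∈ X then b (l.pmap Subtype.mk hl) else 0

theorem pmap_map (X : Set Ω) (l : List X) (hl : ∀ x ∈ l.map Subtype.val, x ∈ X) :
    (l.map Subtype.val).pmap Subtype.mk hl = l := by
  induction l with
  | nil => rfl
  | cons x l ih =>
    simp only [List.map_cons, List.pmap_cons]
    rw [ih]

theorem map_pmap (X : Set Ω) (l : List Ω) (hl : ∀ x ∈ l, x ∈ X) :
    (l.pmap Subtype.mk hl : List X).map Subtype.val = l := by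
  induction l with
  | nil => rfl
  | cons x l ih =>
    simp only [List.map_cons, List.pmap_cons]
    rw [ih]

theorem pb_exz (X : Set Ω) (b : List X → ZMod 3) : pb (Subtype.val : X → Ω) (exz X b) = b := by
  funext l
  have hl : ∀ x ∈ l.map Subtype.val, x ∈ X := by
    intro x hx
    obtain ⟨y, _, rfl⟩ := List.mem_map.1 hx
    exact y.2
  show exz X b (l.map Subtype.val) = b l
  unfold exz
  rw [dif_pos hl, pmap_map]

theorem nl_val (X : Set Ω) {Y : Set Ω} (hY : Y ⊆ X) (q : ℕ) (c : List Ω → ZMod 3) :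
    Nl Y q c ↔ Nl ((Subtype.val : X → Ω) ⁻¹' Y) q (pb (Subtype.val : X → Ω) c) := by
  constructor
  · rintro ⟨ε, hε, hc⟩
    refine ⟨ε, hε, fun l hl hs => hc _ (by simpa using hl) ⟨?_, ?_⟩⟩
    · intro x hx
      obtain ⟨y, hy, rfl⟩ := List.mem_map.1 hx
      exact hs.1 y hy
    · intro x hx x' hx'
      obtain ⟨y, hy, rfl⟩ := List.mem_map.1 hx
      obtain ⟨y', hy', rfl⟩ := List.mem_map.1 hx'
      exact hs.2 y hy y' hy'
  · rintro ⟨ε, hε, hc⟩
    refine ⟨ε, hε, fun l hl hs => ?_⟩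
    have hlX : ∀ x ∈ l, x ∈ X := fun x hx => hY (hs.1 x hx)
    have := hc (l.pmap Subtype.mk hlX) (by simpa using hl) ⟨?_, ?_⟩
    · have e : pb (Subtype.val : X → Ω) c (l.pmap Subtype.mk hlX) = c l := by
        show c ((l.pmap Subtype.mk hlX : List X).map Subtype.val) = c l
        rw [map_pmap]
      rw [e] at this
      exact this
    · intro x hx
      obtain ⟨a, ha, rfl⟩ := List.mem_pmap.1 hx
      exact hs.1 a ha
    · intro x hx y hy
      obtain ⟨a, ha, rfl⟩ := List.mem_pmap.1 hx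
      obtain ⟨b, hb, rfl⟩ := List.mem_pmap.1 hy
      exact hs.2 a ha b hb

theorem nl_val_univ (X : Set Ω) (q : ℕ) (c : List Ω → ZMod 3) :
    Nl X q c ↔ Nl (univ : Set X) q (pb (Subtype.val : X → Ω) c) := by
  rw [nl_val X subset_rfl q c]
  have : (Subtype.val : X → Ω) ⁻¹' X = univ := by
    ext x; simp
  rw [this]

theorem hv_val (X : Set Ω) {q : ℕ} (hX : HV X q) : HV (univ : Set X) q := by
  intro c hcoc
  have h1 : Coc X q (exz X c) := by
    unfold Coc
    rw [nl_val_univ, ← d_pb, pb_exz]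
    exact hcoc
  obtain ⟨b, hb⟩ := hX _ h1
  refine ⟨pb Subtype.val b, ?_⟩
  rw [nl_val_univ] at hb
  have e : pb (Subtype.val : X → Ω) (exz X c - d b) = c - d (pb Subtype.val b) := by
    rw [d_pb]
    show pb (Subtype.val : X → Ω) (exz X c) - pb Subtype.val (d b) = _
    rw [pb_exz]
  rwa [e] at hb

end aux373

section
variable {Ω : Type*} [MetricSpace Ω] [CompactSpace Ω]

/-- TARGET: equivariant finite dimensionality. -/
theorem smith_fd (X : Set Ω) (hX : IsClosed X) (h : Ω → Ω) (hc : Continuous h)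
    (hm : ∀ x ∈ X, h x ∈ X) (h3 : ∀ x ∈ X, h (h (h x)) = x) (N : ℕ) (hN : ∀ q, N ≤ q → HV X q)
    (q : ℕ) (hq : N ≤ q + 1) (m : List Ω → ZMod 3) (hmF : Nl {x ∈ X | h x = x} (q + 1) m) :
    (Coc X (q + 1) (m + pb h m + pb h (pb h m)) →
      ∃ m', Nl {x ∈ X | h x = x} q m' ∧
        Nl X (q + 1) (m + pb h m + pb h (pb h m) - d (m' + pb h m' + pb h (pb h m')))) ∧
    (Coc X (q + 1) (m - pb h m) →
      ∃ m', Nl {x ∈ X | h x = x} q m' ∧ Nl X (q + 1) (m - pb h m - d (m' - pb h m'))) := by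
  have : CompactSpace X := isCompact_iff_compactSpace.1 hX.isCompact
  set h' : X → X := fun x => ⟨h x, hm x x.2⟩ with hh'
  have hc' : Continuous h' := (hc.comp continuous_subtype_val).subtype_mk _
  have h3' : ∀ x, h' (h' (h' x)) = x := by
    intro x
    apply Subtype.ext
    exact h3 x x.2
  have hN' : ∀ q, N ≤ q → HV (univ : Set X) q := fun q hq => hv_val X (hN q hq)
  set F : Set Ω := {x ∈ X | h x = x} with hF
  have hFX : F ⊆ X := fun x hx => hx.1
  have hFF : (Subtype.val : X → Ω) ⁻¹' F = {x | h' x = x} := by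
    ext x
    constructor
    · intro hx
      exact Subtype.ext hx.2
    · intro hx
      exact ⟨x.2, congrArg Subtype.val (show h' x = x from hx)⟩
  have hpb : ∀ c : List Ω → ZMod 3, pb (Subtype.val : X → Ω) (pb h c) = pb h' (pb Subtype.val c) := by
    intro c
    funext l
    show c ((l.map Subtype.val).map h) = c ((l.map h').map Subtype.val)
    rw [List.map_map, List.map_map]
    rfl
  have hSS : ∀ c : List Ω → ZMod 3, pb (Subtype.val : X → Ω) (c + pb h c + pb h (pb h c)) =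
      SS h' (pb Subtype.val c) := by
    intro c
    show pb (Subtype.val : X → Ω) c + pb Subtype.val (pb h c) + pb Subtype.val (pb h (pb h c)) = _
    rw [hpb, hpb, hpb]
    rfl
  have hTT : ∀ c : List Ω → ZMod 3, pb (Subtype.val : X → Ω) (c - pb h c) =
      TT h' (pb Subtype.val c) := by
    intro c
    show pb (Subtype.val : X → Ω) c - pb Subtype.val (pb h c) = _
    rw [hpb]
    rfl
  have hm' : Nl {x | h' x = x} (q + 1) (pb (Subtype.val : X → Ω) m) := by
    rw [← hFF]
    exact (nl_val X hFX (q + 1) m).1 hmF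
  obtain ⟨r1, r2⟩ := smith_univ hc' h3' hN' (q + 1) (by omega) hq _ hm'
  constructor
  · intro hcoc
    have hcoc' : Coc univ (q + 1) (SS h' (pb (Subtype.val : X → Ω) m)) := by
      unfold Coc at hcoc ⊢
      rw [← hSS, d_pb]
      exact (nl_val_univ X _ _).1 hcoc
    obtain ⟨m', g1, g2⟩ := r1 hcoc'
    refine ⟨exz X m', ?_, ?_⟩
    · rw [nl_val X hFX, hFF, pb_exz]
      exact g1
    · rw [nl_val_univ]
      have e : pb (Subtype.val : X → Ω) (m + pb h m + pb h (pb h m) -
          d (exz X m' + pb h (exz X m') + pb h (pb h (exz X m')))) =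
          SS h' (pb Subtype.val m) - d (SS h' m') := by
        show pb (Subtype.val : X → Ω) (m + pb h m + pb h (pb h m)) -
          pb (Subtype.val : X → Ω) (d (exz X m' + pb h (exz X m') + pb h (pb h (exz X m')))) = _
        rw [← d_pb, hSS, hSS, pb_exz]
      rw [e]
      exact g2
  · intro hcoc
    have hcoc' : Coc univ (q + 1) (TT h' (pb (Subtype.val : X → Ω) m)) := by
      unfold Coc at hcoc ⊢
      rw [← hTT, d_pb]
      exact (nl_val_univ X _ _).1 hcoc
    obtain ⟨m', g1, g2⟩ := r2 hcoc'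
    refine ⟨exz X m', ?_, ?_⟩
    · rw [nl_val X hFX, hFF, pb_exz]
      exact g1
    · rw [nl_val_univ]
      have e : pb (Subtype.val : X → Ω) (m - pb h m -
          d (exz X m' - pb h (exz X m'))) =
          TT h' (pb Subtype.val m) - d (TT h' m') := by
        show pb (Subtype.val : X → Ω) (m - pb h m) -
          pb (Subtype.val : X → Ω) (d (exz X m' - pb h (exz X m'))) = _
        rw [← d_pb, hTT, hTT, pb_exz]
      rw [e]
      exact g2


end

end Pool.Agent.Helper554.Smith.SFd
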