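import Pool.Agent.Helper554.Smith.Defs
import Pool.Agent.Helper554.Smith.SFd

set_option autoImplicit false

namespace Pool.Agent.Helper554.Smith

open Set

section
variable {Ω : Type*} [MetricSpace Ω] [CompactSpace Ω]

/-- TARGET: equivariant finite dimensionality. -/
theorem smith_fd (X : Set Ω) (hX : IsClosed X) (h : Ω → Ω) (hc : Continuous h)
    (hm : ∀ x ∈ X, h x ∈ X) (h3 : ∀ x ∈ X, h (h (h x)) = x) (N : ℕ) (hN : ∀ q, N ≤ q → HV X q)
    (q : ℕ) (hq : N ≤ q + 1) (m : List Ω → ZMod 3) (hmF : Nl {x ∈ X | h x = x} (q + 1) m) :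
    (Coc X (q + 1) (m + pb h m + pb h (pb h m)) →
      ∃ m', Nl {x ∈ X | h x = x} q m' ∧
        Nl X (q + 1) (m + pb h m + pb h (pb h m) - d (m' + pb h m' + pb h (pb h m')))) ∧
    (Coc X (q + 1) (m - pb h m) →
      ∃ m', Nl {x ∈ X | h x = x} q m' ∧ Nl X (q + 1) (m - pb h m - d (m' - pb h m'))) := by
  exact SFd.smith_fd X hX h hc hm h3 N hN q hq m hmF

end

end Pool.Agent.Helper554.Smith
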