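import Pool.Agent.Helper554.Smith.Inst
import Pool.Agent.Helper554.Smith.SmithFd

set_option autoImplicit false

namespace Pool.Agent.Helper554.Smith

open Set

universe u

section
variable {Ω : Type u} [MetricSpace Ω] [CompactSpace Ω] {X Y : Set Ω} {h : Ω → Ω}

omit [CompactSpace Ω] in
theorem cob_zero_iff {c : List Ω → ZMod 3} : Cob X 0 c ↔ Nl X 0 c := by
  constructor
  · rintro ⟨b, hb⟩
    rw [nl_zero_iff] at hb ⊢
    simpa using hb
  · exact Nl.cob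

omit [CompactSpace Ω] in
theorem nl_sub_comm {q : ℕ} {a b : List Ω → ZMod 3} : Nl X q (a - b) ↔ Nl X q (b - a) := by
  constructor
  · intro hh
    have := hh.neg
    rwa [neg_sub] at this
  · intro hh
    have := hh.neg
    rwa [neg_sub] at this

section trans

variable (hc : Continuous h) (hm : ∀ x ∈ X, h x ∈ X) (h3 : ∀ x ∈ X, h (h (h x)) = x)

theorem sd_dC {q : ℕ} {c : List Ω → ZMod 3} :
    (sd X h hc hm h3).dC q ((NS X q).mkQ c) = 0 ↔ Coc X q c := by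
  change (NS X (q + 1)).mkQ (d c) = 0 ↔ _
  rw [mk_eq_zero]
  rfl

theorem sd_dE {q : ℕ} {c : List Ω → ZMod 3} :
    (sd X h hc hm h3).dE q ((NS (Fx X h) q).mkQ c) = 0 ↔ Coc (Fx X h) q c := by
  change (NS (Fx X h) (q + 1)).mkQ (d c) = 0 ↔ _
  rw [mk_eq_zero]
  rfl

theorem sd_BC {q : ℕ} {c : List Ω → ZMod 3} :
    (NS X q).mkQ c ∈ (sd X h hc hm h3).BC q ↔ Cob X q c := by
  cases q with
  | zero =>
    have key : ∀ z : (sd X h hc hm h3).C 0, z ∈ (sd X h hc hm h3).BC 0 ↔ z = 0 :=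
      fun z => Submodule.mem_bot _
    refine (key _).trans ?_
    change (NS X 0).mkQ c = 0 ↔ _
    rw [mk_eq_zero, cob_zero_iff]
  | succ q =>
    have key : ∀ z : (sd X h hc hm h3).C (q + 1), z ∈ (sd X h hc hm h3).BC (q + 1) ↔
      ∃ b, (sd X h hc hm h3).dC q b = z := fun z => LinearMap.mem_range
    refine (key _).trans ?_
    constructor
    · rintro ⟨b, hb⟩
      obtain ⟨b, rfl⟩ := Submodule.mkQ_surjective _ b
      change (NS X (q + 1)).mkQ (d b) = (NS X (q + 1)).mkQ c at hb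
      rw [mk_eq_iff] at hb
      exact ⟨b, nl_sub_comm.1 hb⟩
    · rintro ⟨b, hb⟩
      refine ⟨(NS X q).mkQ b, ?_⟩
      change (NS X (q + 1)).mkQ (d b) = (NS X (q + 1)).mkQ c
      rw [mk_eq_iff]
      exact nl_sub_comm.1 hb

theorem sd_BE {q : ℕ} {c : List Ω → ZMod 3} :
    (NS (Fx X h) q).mkQ c ∈ (sd X h hc hm h3).BE q ↔ Cob (Fx X h) q c := by
  cases q with
  | zero =>
    have key : ∀ z : (sd X h hc hm h3).E 0, z ∈ (sd X h hc hm h3).BE 0 ↔ z = 0 :=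
      fun z => Submodule.mem_bot _
    refine (key _).trans ?_
    change (NS (Fx X h) 0).mkQ c = 0 ↔ _
    rw [mk_eq_zero, cob_zero_iff]
  | succ q =>
    have key : ∀ z : (sd X h hc hm h3).E (q + 1), z ∈ (sd X h hc hm h3).BE (q + 1) ↔
      ∃ b, (sd X h hc hm h3).dE q b = z := fun z => LinearMap.mem_range
    refine (key _).trans ?_
    constructor
    · rintro ⟨b, hb⟩
      obtain ⟨b, rfl⟩ := Submodule.mkQ_surjective _ b
      change (NS (Fx X h) (q + 1)).mkQ (d b) = (NS (Fx X h) (q + 1)).mkQ c at hb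
      rw [mk_eq_iff] at hb
      exact ⟨b, nl_sub_comm.1 hb⟩
    · rintro ⟨b, hb⟩
      refine ⟨(NS (Fx X h) q).mkQ b, ?_⟩
      change (NS (Fx X h) (q + 1)).mkQ (d b) = (NS (Fx X h) (q + 1)).mkQ c
      rw [mk_eq_iff]
      exact nl_sub_comm.1 hb

theorem sd_VC {q : ℕ} : (sd X h hc hm h3).VC q ↔ HV X q := by
  constructor
  · intro H c hcc
    exact (sd_BC hc hm h3).1 (H _ ((sd_dC hc hm h3).2 hcc))
  · intro H c hcc
    obtain ⟨c, rfl⟩ := Submodule.mkQ_surjective _ c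
    exact (sd_BC hc hm h3).2 (H _ ((sd_dC hc hm h3).1 hcc))

theorem sd_VE {q : ℕ} : (sd X h hc hm h3).VE q ↔ HV (Fx X h) q := by
  constructor
  · intro H c hcc
    exact (sd_BE hc hm h3).1 (H _ ((sd_dE hc hm h3).2 hcc))
  · intro H c hcc
    obtain ⟨c, rfl⟩ := Submodule.mkQ_surjective _ c
    exact (sd_BE hc hm h3).2 (H _ ((sd_dE hc hm h3).1 hcc))

theorem sd_sg {q : ℕ} {c : List Ω → ZMod 3} :
    (sd X h hc hm h3).sg q ((NS X q).mkQ c) = (NS X q).mkQ (c + pb h c + pb h (pb h c)) := rfl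

theorem sd_ta {q : ℕ} {c : List Ω → ZMod 3} :
    (sd X h hc hm h3).ta q ((NS X q).mkQ c) = (NS X q).mkQ (c - pb h c) := rfl

theorem sd_fd (hX : IsClosed X) (N : ℕ) (hN : ∀ q, N ≤ q → HV X q) (q : ℕ) (hq : N ≤ q) :
    (sd X h hc hm h3).VS q ∧ (sd X h hc hm h3).VT q := by
  cases q with
  | zero =>
    constructor
    · rintro c ⟨m, hm', rfl⟩ _
      have hm0 : m = 0 := (sd X h hc hm h3).m0 m hm'
      rw [hm0, map_zero]
      exact Submodule.zero_mem _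
    · rintro c ⟨m, hm', rfl⟩ _
      have hm0 : m = 0 := (sd X h hc hm h3).m0 m hm'
      rw [hm0, map_zero]
      exact Submodule.zero_mem _
  | succ q =>
    constructor
    · rintro c ⟨m, hm', rfl⟩ hcc
      obtain ⟨m, rfl⟩ := Submodule.mkQ_surjective _ m
      have hmF : Nl (Fx X h) (q + 1) m := by
        have : (NS (Fx X h) (q + 1)).mkQ m = 0 := hm'
        rwa [mk_eq_zero] at this
      rw [sd_sg, sd_dC] at hcc
      obtain ⟨m', h1, h2⟩ := (smith_fd X hX h hc hm h3 N hN q hq m hmF).1 hcc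
      refine ⟨(NS X q).mkQ (m' + pb h m' + pb h (pb h m')), ⟨(NS X q).mkQ m', ?_, sd_sg hc hm h3⟩, ?_⟩
      · change (NS (Fx X h) q).mkQ m' = 0
        rw [mk_eq_zero]
        exact h1
      · rw [sd_sg]
        change (NS X (q + 1)).mkQ (d _) = _
        rw [mk_eq_iff]
        exact nl_sub_comm.1 h2
    · rintro c ⟨m, hm', rfl⟩ hcc
      obtain ⟨m, rfl⟩ := Submodule.mkQ_surjective _ m
      have hmF : Nl (Fx X h) (q + 1) m := by
        have : (NS (Fx X h) (q + 1)).mkQ m = 0 := hm'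
        rwa [mk_eq_zero] at this
      rw [sd_ta, sd_dC] at hcc
      obtain ⟨m', h1, h2⟩ := (smith_fd X hX h hc hm h3 N hN q hq m hmF).2 hcc
      refine ⟨(NS X q).mkQ (m' - pb h m'), ⟨(NS X q).mkQ m', ?_, sd_ta hc hm h3⟩, ?_⟩
      · change (NS (Fx X h) q).mkQ m' = 0
        rw [mk_eq_zero]
        exact h1
      · rw [sd_ta]
        change (NS X (q + 1)).mkQ (d _) = _
        rw [mk_eq_iff]
        exact nl_sub_comm.1 h2

end trans

omit [MetricSpace Ω] [CompactSpace Ω] in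
theorem Fx_mono (hYX : Y ⊆ X) : Fx Y h ⊆ Fx X h := fun _ hx => ⟨hYX hx.1, hx.2⟩

/-- restriction morphism -/
noncomputable def rs (hc : Continuous h) (hm : ∀ x ∈ X, h x ∈ X) (h3 : ∀ x ∈ X, h (h (h x)) = x)
    (hm' : ∀ x ∈ Y, h x ∈ Y) (h3' : ∀ x ∈ Y, h (h (h x)) = x) (hYX : Y ⊆ X) :
    SDHom (sd X h hc hm h3) (sd Y h hc hm' h3') where
  f q := (NS X q).mapQ (NS Y q) LinearMap.id (fun _ hn => Nl.mono hn hYX)
  g q := (NS (Fx X h) q).mapQ (NS (Fx Y h) q) LinearMap.id (fun _ hn => Nl.mono hn (Fx_mono hYX))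
  fd q c := by
    obtain ⟨c, rfl⟩ := Submodule.mkQ_surjective _ c
    rfl
  gd q c := by
    obtain ⟨c, rfl⟩ := Submodule.mkQ_surjective _ c
    rfl
  fh q c := by
    obtain ⟨c, rfl⟩ := Submodule.mkQ_surjective _ c
    rfl
  fr q c := by
    obtain ⟨c, rfl⟩ := Submodule.mkQ_surjective _ c
    rfl

/-- `W` is invariant on `X`. -/
def Inv (X : Set Ω) (h : Ω → Ω) (W : Set Ω) : Prop := ∀ y ∈ X, (h y ∈ W ↔ y ∈ W)

omit [MetricSpace Ω] [CompactSpace Ω] in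
theorem inv_diff (hm : ∀ x ∈ X, h x ∈ X) {W : Set Ω} (hW : Inv X h W) : ∀ x ∈ X \ W, h x ∈ X \ W :=
  fun x hx => ⟨hm x hx.1, fun hh => hx.2 ((hW x hx.1).1 hh)⟩

omit [CompactSpace Ω] in
theorem exists_inv (hc : Continuous h) (h3 : ∀ x ∈ X, h (h (h x)) = x)
    {x : Ω} (hx' : h x = x) {W : Set Ω} (hW : IsOpen W) (hxW : x ∈ W) :
    ∃ W' : Set Ω, IsOpen W' ∧ x ∈ W' ∧ W' ⊆ W ∧ Inv X h W' := by
  refine ⟨W ∩ (h ⁻¹' W ∩ h ⁻¹' (h ⁻¹' W)), hW.inter ((hW.preimage hc).inter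
    ((hW.preimage hc).preimage hc)), ?_, inter_subset_left, ?_⟩
  · simp [hx', hxW]
  · intro y hy
    simp only [mem_inter_iff, mem_preimage, h3 y hy]
    tauto

theorem zero_chain (hc : Continuous h) (hm : ∀ x ∈ X, h x ∈ X) (h3 : ∀ x ∈ X, h (h (h x)) = x)
    (hX : IsClosed X) (N : ℕ) (hN : ∀ Y : Set Ω, IsClosed Y → ∀ q, N ≤ q → HV Y q)
    (x : Ω) (hx' : h x = x)
    (hloc : ∀ W : Set Ω, IsOpen W → x ∈ W → ∃ W' : Set Ω, IsOpen W' ∧ x ∈ W' ∧ W' ⊆ W ∧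
      ∀ q c, Coc (X \ W') q c → Cob (X \ W) q c) (k : ℕ) :
    ∀ W : Set Ω, IsOpen W → x ∈ W → ∀ hW : Inv X h W,
      ∃ W' : Set Ω, ∃ hW' : Inv X h W', ∃ hsub : W' ⊆ W, IsOpen W' ∧ x ∈ W' ∧
        (∀ q, N ≤ q + k → (rs (X := X \ W') (Y := X \ W) hc (inv_diff hm hW')
          (fun y hy => h3 y hy.1) (inv_diff hm hW) (fun y hy => h3 y hy.1)
          (sdiff_subset_sdiff_right hsub)).ZR q) ∧
        (1 ≤ k → ∀ q, N ≤ q + k → ∀ e, (sd (X \ W') h hc (inv_diff hm hW')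
          (fun y hy => h3 y hy.1)).dE q e = 0 → (rs (X := X \ W') (Y := X \ W) hc (inv_diff hm hW')
          (fun y hy => h3 y hy.1) (inv_diff hm hW) (fun y hy => h3 y hy.1)
          (sdiff_subset_sdiff_right hsub)).g q e ∈ (sd (X \ W) h hc (inv_diff hm hW)
          (fun y hy => h3 y hy.1)).BE q) := by
  induction k with
  | zero =>
    intro W hWo hxW hW
    refine ⟨W, hW, Subset.rfl, hWo, hxW, ?_, fun h0 => absurd h0 (by norm_num)⟩
    intro q hq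
    have hcl : IsClosed (X \ W) := hX.sdiff hWo
    have hfd := sd_fd (X := X \ W) hc (inv_diff hm hW) (fun y hy => h3 y hy.1) hcl N
      (fun q hq => hN _ hcl q hq) q (by simpa using hq)
    constructor
    · intro c hcM hcd
      have := hfd.1 c hcM hcd
      obtain ⟨c, rfl⟩ := Submodule.mkQ_surjective _ c
      exact this
    · intro c hcM hcd
      have := hfd.2 c hcM hcd
      obtain ⟨c, rfl⟩ := Submodule.mkQ_surjective _ c
      exact this
  | succ k ih =>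
    intro W hWo hxW hW
    obtain ⟨W1, hW1o, hxW1, hW1W, hW1⟩ := hloc W hWo hxW
    obtain ⟨W2, hW2o, hxW2, hW2W1, hW2⟩ := exists_inv (X := X) hc h3 hx' hW1o hxW1
    obtain ⟨W', hW', hsub, hW'o, hxW', hZR, -⟩ := ih W2 hW2o hxW2 hW2
    have hsub' : W' ⊆ W := hsub.trans (hW2W1.trans hW1W)
    have key : ∀ q, N ≤ q + (k + 1) → _ := fun q hq => alg_step
      (rs (X := X \ W') (Y := X \ W2) hc (inv_diff hm hW') (fun y hy => h3 y hy.1)
        (inv_diff hm hW2) (fun y hy => h3 y hy.1) (sdiff_subset_sdiff_right hsub))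
      (rs (X := X \ W2) (Y := X \ W) hc (inv_diff hm hW2) (fun y hy => h3 y hy.1)
        (inv_diff hm hW) (fun y hy => h3 y hy.1) (sdiff_subset_sdiff_right (hW2W1.trans hW1W)))
      (rs (X := X \ W') (Y := X \ W) hc (inv_diff hm hW') (fun y hy => h3 y hy.1)
        (inv_diff hm hW) (fun y hy => h3 y hy.1) (sdiff_subset_sdiff_right hsub'))
      (by
        intro q c
        obtain ⟨c, rfl⟩ := Submodule.mkQ_surjective _ c
        rfl)
      (by
        intro q c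
        obtain ⟨c, rfl⟩ := Submodule.mkQ_surjective _ c
        rfl) q
      (by
        intro c hcc
        obtain ⟨c, rfl⟩ := Submodule.mkQ_surjective _ c
        rw [sd_dC] at hcc
        change (NS (X \ W) q).mkQ c ∈ _
        rw [sd_BC]
        exact hW1 q c (hcc.mono (sdiff_subset_sdiff_right hW2W1)))
      (hZR (q + 1) (by omega))
    exact ⟨W', hW', hsub', hW'o, hxW', fun q hq => (key q hq).1, fun _ q hq => (key q hq).2⟩

/-- L8: the inductive step. -/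
theorem smith_step (w : Ω) (X : Set Ω) (r N : ℕ)
    (hN : ∀ Y : Set Ω, IsClosed Y → ∀ q, N ≤ q → HV Y q)
    (hSL : SL w X r) (h : Ω → Ω) (hc : Continuous h)
    (hm : ∀ x ∈ X, h x ∈ X) (h3 : ∀ x ∈ X, h (h (h x)) = x) (hw' : h w = w)
    (hne : ∃ x ∈ X, h x ≠ x) : ∃ r', r' + 2 ≤ r ∧ SL w {x ∈ X | h x = x} r' := by
  obtain ⟨hX, hHV, ⟨u, hu, hu0, hu1⟩, hloc⟩ := hSL
  have hFcl : IsClosed (Fx X h) := hX.inter (isClosed_eq hc continuous_id)
  have hfd := fun q hq => sd_fd (X := X) hc hm h3 hX N (fun q hq => hN X hX q hq) q hq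
  obtain ⟨r', hr', hVE, v, hv, hv0, hv1⟩ := alg_sphere (sd X h hc hm h3) r N
    (fun q hq => (sd_VC hc hm h3).2 (hHV q hq)) ((NS X r).mkQ u) ((sd_dC hc hm h3).2 hu)
    (fun hh => hu0 ((sd_BC hc hm h3).1 hh))
    (by
      intro c hcc
      obtain ⟨c, rfl⟩ := Submodule.mkQ_surjective _ c
      obtain ⟨a, ha⟩ := hu1 c ((sd_dC hc hm h3).1 hcc)
      refine ⟨a, ?_⟩
      have := (sd_BC hc hm h3).2 ha
      exact this)
    (by
      intro c hcc
      obtain ⟨c, rfl⟩ := Submodule.mkQ_surjective _ c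
      rw [sd_dC] at hcc
      change (NS (Fx X h) r).mkQ c ∈ _
      rw [sd_BE]
      obtain ⟨x, hx, hxne⟩ := hne
      have hxw : x ≠ w := by rintro rfl; exact hxne hw'
      obtain ⟨W', hW'o, hxW', hsub, H⟩ := hloc x hx hxw (Fx X h)ᶜ hFcl.isOpen_compl
        (fun hh => hxne hh.2)
      have := H r c (hcc.mono sdiff_subset)
      apply this.mono
      intro y hy
      exact ⟨hy.1, fun hh => hh hy⟩)
    (fun q hq => (hfd q hq).1) (fun q hq => (hfd q hq).2)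
  refine ⟨r', hr', hFcl, fun q hq => (sd_VE hc hm h3).1 (hVE q hq), ?_, ?_⟩
  · obtain ⟨v, rfl⟩ := Submodule.mkQ_surjective _ v
    refine ⟨v, (sd_dE hc hm h3).1 hv, fun hh => hv0 ((sd_BE hc hm h3).2 hh), ?_⟩
    intro c hcc
    obtain ⟨a, ha⟩ := hv1 ((NS (Fx X h) r').mkQ c) ((sd_dE hc hm h3).2 hcc)
    exact ⟨a, (sd_BE hc hm h3).1 ha⟩
  · rintro x ⟨hx, hxf⟩ hxw W hWo hxW
    obtain ⟨W0, hW0o, hxW0, hW0W, hW0⟩ := exists_inv (X := X) hc h3 hxf hWo hxW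
    obtain ⟨W', hW', hsub, hW'o, hxW', -, hE⟩ := zero_chain hc hm h3 hX N hN x hxf
      (fun W hW hxW => hloc x hx hxw W hW hxW) (N + 1) W0 hW0o hxW0 hW0
    refine ⟨W', hW'o, hxW', hsub.trans hW0W, ?_⟩
    intro q c hcc
    have e1 : Fx (X \ W') h = {x ∈ X | h x = x} \ W' := by
      ext y
      exact ⟨fun hy => ⟨⟨hy.1.1, hy.2⟩, hy.1.2⟩, fun hy => ⟨⟨hy.1.1, hy.2⟩, hy.1.2⟩⟩
    have e2 : Fx (X \ W0) h = {x ∈ X | h x = x} \ W0 := by
      ext y
      exact ⟨fun hy => ⟨⟨hy.1.1, hy.2⟩, hy.1.2⟩, fun hy => ⟨⟨hy.1.1, hy.2⟩, hy.1.2⟩⟩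
    have h1 := hE (by omega) q (by omega) ((NS (Fx (X \ W') h) q).mkQ c) (by
      rw [sd_dE, e1]; exact hcc)
    have h2 : (NS (Fx (X \ W0) h) q).mkQ c ∈ (sd (X \ W0) h hc (inv_diff hm hW0)
          (fun y hy => h3 y hy.1)).BE q := h1
    rw [sd_BE, e2] at h2
    exact h2.mono (sdiff_subset_sdiff_right hW0W)

end

end Pool.Agent.Helper554.Smith
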